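import Pool.Agent.L5helper42.AA.Rounds

/-!
# MP_58d537_lc: the bit-fixing statement for quantum algorithms with few adaptive rounds

We consider quantum algorithms which make `r` rounds of queries; in every round `T` queries are
made in parallel. For every fixed `r` we prove, with bounds polynomial in `T` and `1 / Var` (resp.
`1 / ε`), the bit-fixing statement of the problem, and the simulation statement: the acceptance
probability is approximated in the quadratic mean by a classical decision tree.

Idea. Fix, round by round, all bits whose conditional mean query weight in this round is at least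
`δ`. For a flip of another bit `j` the change of the probabilities of a family of events is bounded
by (query weight of `j`) times (weight on `j` of the events evolved backwards). The sum over `j` and
over the family is small as soon as the query weights of the earlier rounds are concentrated around
their conditional means; by the Efron-Stein inequality this shows inductively that the query weights
of the next round are concentrated, and finally that the acceptance probability is.
-/

set_option autoImplicit false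

open Finset Matrix

namespace Pool.Agent.Results.MP_58d537_lc.BoundedRounds

/-- The sign which a batch `q` of `T` parallel queries picks up for the oracle `x`: the entry `none`
is an unused query, the entry `some i` gives the sign `(-1) ^ (x i)`. -/
noncomputable def phase {N T : ℕ} (x : Fin N → Bool) (q : Fin T → Option (Fin N)) : ℂ :=
  ∏ k, (q k).elim (1 : ℂ) (fun i => if x i then -1 else 1)

/-- The state of the algorithm after `r` rounds: the algorithm starts in the basis state `s₀`,
applies `U 0`, and in the round number `r + 1` it makes `T` parallel queries and applies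
`U (r + 1)`. The basis states are pairs of a batch of `T` queries and a state of the workspace. -/
noncomputable def state {N T m : ℕ}
    (U : ℕ → Matrix.unitaryGroup ((Fin T → Option (Fin N)) × Fin m) ℂ)
    (s₀ : (Fin T → Option (Fin N)) × Fin m) (x : Fin N → Bool) :
    ℕ → (Fin T → Option (Fin N)) × Fin m → ℂ
  | 0 => (U 0).1 *ᵥ Pi.single s₀ 1
  | r + 1 => (U (r + 1)).1 *ᵥ fun s => phase x s.1 * state U s₀ x r s

/-- The probability that a measurement after `r` rounds gives a basis state in `Acc`. -/
noncomputable def accept {N T m : ℕ}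
    (U : ℕ → Matrix.unitaryGroup ((Fin T → Option (Fin N)) × Fin m) ℂ)
    (s₀ : (Fin T → Option (Fin N)) × Fin m) (Acc : Finset ((Fin T → Option (Fin N)) × Fin m))
    (r : ℕ) (x : Fin N → Bool) : ℝ := ∑ s ∈ Acc, ‖state U s₀ x r s‖ ^ 2

/-- Classical decision trees on `N` bits with labels in `α` at the leaves. -/
inductive DTree (N : ℕ) (α : Type) : Type
  | leaf (v : α) : DTree N α
  | node (i : Fin N) (a b : DTree N α) : DTree N α

/-- The label of the leaf reached on the input `x`. -/
def DTree.eval {N : ℕ} {α : Type} : DTree N α → (Fin N → Bool) → α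
  | leaf v, _ => v
  | node i a b, x => if x i then b.eval x else a.eval x

/-- The depth, that is the largest number of queried bits. -/
def DTree.depth {N : ℕ} {α : Type} : DTree N α → ℕ
  | leaf _ => 0
  | node _ a b => max a.depth b.depth + 1

/-! ### Decision trees -/

section trees

variable {N : ℕ} {α β : Type}

/-- Replace every leaf by a tree. -/
def DTree.bind : DTree N α → (α → DTree N β) → DTree N β
  | leaf v, g => g v
  | node i a b, g => node i (a.bind g) (b.bind g)

lemma DTree.eval_bind (D : DTree N α) (g : α → DTree N β) (x : Fin N → Bool) :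
    (D.bind g).eval x = (g (D.eval x)).eval x := by
  induction D with
  | leaf v => rfl
  | node i a b iha ihb =>
    simp only [DTree.bind, DTree.eval]
    split_ifs <;> assumption

lemma DTree.depth_bind (D : DTree N α) (g : α → DTree N β) {d : ℕ} (hg : ∀ v, (g v).depth ≤ d) :
    (D.bind g).depth ≤ D.depth + d := by
  induction D with
  | leaf v => simpa [DTree.bind, DTree.depth] using hg v
  | node i a b iha ihb =>
    simp only [DTree.bind, DTree.depth]
    omega

/-- Ask all bits in a list and update the point `y`. -/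
def ask : List (Fin N) → (Fin N → Bool) → DTree N (Fin N → Bool)
  | [], y => DTree.leaf y
  | i :: l, y => DTree.node i (ask l (Function.update y i false)) (ask l (Function.update y i true))

lemma ask_depth (l : List (Fin N)) (y : Fin N → Bool) : (ask l y).depth = l.length := by
  induction l generalizing y with
  | nil => rfl
  | cons i l ih => simp [ask, DTree.depth, ih]

lemma ask_eval (l : List (Fin N)) (y x : Fin N → Bool) (j : Fin N) :
    (ask l y).eval x j = if j ∈ l then x j else y j := by
  induction l generalizing y with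
  | nil => simp [ask, DTree.eval]
  | cons i l ih =>
    have h : (ask (i :: l) y).eval x = (ask l (Function.update y i (x i))).eval x := by
      simp only [ask, DTree.eval]
      cases hx : x i <;> simp
    rw [h, ih]
    by_cases h1 : j ∈ l
    · simp [h1]
    · by_cases h2 : j = i
      · subst h2; simp [h1]
      · simp [h1, h2]

end trees

/-! ### The model -/

section model

variable {N T m : ℕ}

/-- The bits queried by a basis state. -/
def QQ (s : (Fin T → Option (Fin N)) × Fin m) : Finset (Fin N) :=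
  univ.biUnion fun k => (s.1 k).toFinset

lemma QQ_card (s : (Fin T → Option (Fin N)) × Fin m) : ((QQ s).card : ℝ) ≤ (T : ℝ) := by
  have h : (QQ s).card ≤ T := by
    unfold QQ
    refine card_biUnion_le.trans ?_
    calc ∑ k : Fin T, (s.1 k).toFinset.card ≤ ∑ _k : Fin T, 1 := by
          refine sum_le_sum fun k _ => ?_
          cases s.1 k <;> simp
      _ = T := by simp
  exact_mod_cast h

lemma norm_phase (x : Fin N → Bool) (q : Fin T → Option (Fin N)) : ‖phase x q‖ = 1 := by
  unfold phase
  rw [norm_prod]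
  refine prod_eq_one fun k _ => ?_
  cases q k with
  | none => simp
  | some i => simp only [Option.elim]; split_ifs <;> simp

lemma phase_flip (j : Fin N) (x : Fin N → Bool) (s : (Fin T → Option (Fin N)) × Fin m)
    (hj : j ∉ QQ s) : phase (L5helper42.AA.flip j x) s.1 = phase x s.1 := by
  unfold phase
  refine prod_congr rfl fun k _ => ?_
  have hk : j ∉ (s.1 k).toFinset := fun h => hj (by
    unfold QQ
    exact mem_biUnion.2 ⟨k, mem_univ k, h⟩)
  cases hs : s.1 k with
  | none => rfl
  | some i =>
    rw [hs] at hk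
    have hij : i ≠ j := by
      rintro rfl
      simp at hk
    simp only [Option.elim]
    rw [L5helper42.AA.flip_apply_ne hij]

lemma state_eq (U : ℕ → Matrix.unitaryGroup ((Fin T → Option (Fin N)) × Fin m) ℂ)
    (s₀ : (Fin T → Option (Fin N)) × Fin m) (x : Fin N → Bool) (r : ℕ) :
    state U s₀ x r = L5helper42.AA.psi (fun t => U (t + 1)) (fun x s => phase x s.1)
      ((U 0).1 *ᵥ Pi.single s₀ 1) x r := by
  induction r with
  | zero => rfl
  | succ r ih => rw [state, L5helper42.AA.psi, ih]

lemma nsq_start (U : ℕ → Matrix.unitaryGroup ((Fin T → Option (Fin N)) × Fin m) ℂ)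
    (s₀ : (Fin T → Option (Fin N)) × Fin m) :
    L5helper42.AA.nsq ((U 0).1 *ᵥ Pi.single s₀ 1) = 1 := by
  rw [L5helper42.AA.nsq_unitary, L5helper42.AA.nsq]
  rw [sum_eq_single s₀]
  · simp
  · intro b _ hb
    simp [Pi.single_apply, hb]
  · intro h; exact absurd (mem_univ _) h

end model

open L5helper42.AA in
/-- The trees which fix the heavy bits. -/
lemma exists_tree {N : ℕ} {ι : Type} [Fintype ι] [DecidableEq ι]
    {U : ℕ → Matrix.unitaryGroup ι ℂ} {ph : (Fin N → Bool) → ι → ℂ} {v₀ : ι → ℂ}
    {Q : ι → Finset (Fin N)} {δ T : ℝ} (hph : ∀ x s, ‖ph x s‖ = 1) (h₀ : nsq v₀ = 1)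
    (hQ : ∀ s, ((Q s).card : ℝ) ≤ T) (hT : 0 ≤ T) (hδ : 0 < δ) (t : ℕ) :
    ∃ D : DTree N (Fin N → Bool), (∀ x, D.eval x ∈ cell (FF U ph v₀ Q δ t) x) ∧
      (D.depth : ℝ) ≤ t * (T / δ) := by
  have key : ∃ D : DTree N (Fin N → Bool), (∀ x, D.eval x ∈ cell (FF U ph v₀ Q δ t) x) ∧
      D.depth ≤ t * ⌊T / δ⌋₊ := by
    induction t with
    | zero =>
      refine ⟨DTree.leaf fun _ => false, fun x => ?_, by simp [DTree.depth]⟩
      rw [mem_cell]
      intro i hi
      simp [FF] at hi
    | succ t ih =>
      obtain ⟨D, hD, hd⟩ := ih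
      let H : (Fin N → Bool) → Finset (Fin N) := fun y => univ.filter fun j =>
        δ ≤ avg (FF U ph v₀ Q δ t) (fun z => wt Q j (psi U ph v₀ z t)) y
      refine ⟨D.bind fun y => ask (H y).toList y, fun x => ?_, ?_⟩
      · have hy := hD x
        have hH : H (D.eval x) = H x := by
          simp only [H]
          ext j
          simp only [mem_filter, mem_univ, true_and]
          rw [avg_congr (FF_adapted t) _ hy]
        rw [mem_cell]
        intro i hi
        rw [DTree.eval_bind, ask_eval]
        have hmem : (i ∈ (H (D.eval x)).toList) ↔ i ∈ H x := by rw [mem_toList, hH]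
        by_cases h : i ∈ H x
        · rw [if_pos (hmem.2 h)]
        · rw [if_neg (fun h' => h (hmem.1 h'))]
          rw [FF, mem_union] at hi
          rcases hi with hi | hi
          · exact mem_cell.1 hy i hi
          · exact absurd hi h
      · refine (DTree.depth_bind D _ (d := ⌊T / δ⌋₊) fun y => ?_).trans ?_
        · rw [ask_depth, length_toList]
          exact Nat.le_floor (FF_card (U := U) hph h₀ hQ hδ t y)
        · rw [add_mul, one_mul]
          exact Nat.add_le_add_right hd _
  obtain ⟨D, hD, hd⟩ := key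
  refine ⟨D, hD, ?_⟩
  calc (D.depth : ℝ) ≤ ((t * ⌊T / δ⌋₊ : ℕ) : ℝ) := by exact_mod_cast hd
    _ = t * (⌊T / δ⌋₊ : ℝ) := by push_cast; ring
    _ ≤ t * (T / δ) := mul_le_mul_of_nonneg_left (Nat.floor_le (by positivity)) (Nat.cast_nonneg _)

open L5helper42.AA in
lemma FF_card_le {N : ℕ} {ι : Type} [Fintype ι] [DecidableEq ι]
    {U : ℕ → Matrix.unitaryGroup ι ℂ} {ph : (Fin N → Bool) → ι → ℂ} {v₀ : ι → ℂ}
    {Q : ι → Finset (Fin N)} {δ T : ℝ} (hph : ∀ x s, ‖ph x s‖ = 1) (h₀ : nsq v₀ = 1)
    (hQ : ∀ s, ((Q s).card : ℝ) ≤ T) (hδ : 0 < δ) (t : ℕ) (x : Fin N → Bool) :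
    ((FF U ph v₀ Q δ t x).card : ℝ) ≤ t * (T / δ) := by
  induction t with
  | zero => simp [FF]
  | succ t ih =>
    rw [FF]
    have h1 := FF_card (U := U) (Q := Q) hph h₀ hQ hδ t x
    have h2 : ((FF U ph v₀ Q δ t x ∪ univ.filter fun j =>
      δ ≤ avg (FF U ph v₀ Q δ t) (fun y => wt Q j (psi U ph v₀ y t)) x).card : ℝ) ≤
      ((FF U ph v₀ Q δ t x).card : ℝ) + ((univ.filter fun j =>
      δ ≤ avg (FF U ph v₀ Q δ t) (fun y => wt Q j (psi U ph v₀ y t)) x).card : ℝ) := by
      exact_mod_cast card_union_le _ _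
    push_cast
    linarith

open L5helper42.AA in
/-- The core estimate: for every `ε` there is an adapted set-valued map with values of polynomial
size, realized by a decision tree, such that the conditional variance of the acceptance
probability is at most `ε`. -/
lemma core (r : ℕ) : ∃ C : ℝ, 0 < C ∧ ∃ k : ℕ, ∀ (N T m : ℕ)
    (U : ℕ → Matrix.unitaryGroup ((Fin T → Option (Fin N)) × Fin m) ℂ)
    (s₀ : (Fin T → Option (Fin N)) × Fin m)
    (Acc : Finset ((Fin T → Option (Fin N)) × Fin m)), 1 ≤ T → ∀ ε : ℝ, 0 < ε → ε ≤ 1 →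
    ∃ F : (Fin N → Bool) → Finset (Fin N), Adapted F ∧
      (∀ x, ((F x).card : ℝ) ≤ C * ((T : ℝ) / ε) ^ k) ∧
      (∃ D : DTree N (Fin N → Bool), (∀ x, D.eval x ∈ cell F x) ∧
        (D.depth : ℝ) ≤ C * ((T : ℝ) / ε) ^ k) ∧
      (∑ x, (accept U s₀ Acc r x - avg F (accept U s₀ Acc r) x) ^ 2) / 2 ^ N ≤ ε := by
  obtain ⟨K, hK, e, hrounds⟩ := rounds (r - 1)
  set K₁ : ℝ := 1 + r * (32 * r * (4 + K) + 32 * r ^ 3 * (2 + 2 * K)) with hK₁
  have hK₁1 : 1 ≤ K₁ := by
    rw [hK₁]
    have : (0 : ℝ) ≤ r * (32 * r * (4 + K) + 32 * r ^ 3 * (2 + 2 * K)) := by positivity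
    linarith
  refine ⟨r * K₁ ^ 2 ^ r + 1, by positivity, 1 + (e + 2) * 2 ^ r, ?_⟩
  intro N T m U s₀ Acc hT ε hε hε1
  set Tr : ℝ := (T : ℝ) with hTr
  have hTr1 : 1 ≤ Tr := by rw [hTr]; exact_mod_cast hT
  have hTr0 : 0 < Tr := by linarith
  set θ : ℝ := ε / (K₁ * Tr ^ (e + 1)) with hθ
  have hden : 1 ≤ K₁ * Tr ^ (e + 1) := by
    have := one_le_pow₀ hTr1 (n := e + 1)
    nlinarith
  have hθ0 : 0 < θ := by positivity
  have hθ1 : θ ≤ 1 := by
    rw [hθ, div_le_one (by positivity)]
    linarith
  set U' : ℕ → Matrix.unitaryGroup ((Fin T → Option (Fin N)) × Fin m) ℂ := fun t => U (t + 1)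
    with hU'
  set ph : (Fin N → Bool) → (Fin T → Option (Fin N)) × Fin m → ℂ := fun x s => phase x s.1
    with hphd
  set v₀ := (U 0).1 *ᵥ Pi.single s₀ (1 : ℂ) with hv₀
  have hph : ∀ x s, ‖ph x s‖ = 1 := fun x s => norm_phase x s.1
  have h₀ : nsq v₀ = 1 := nsq_start U s₀
  have hloc : ∀ j x (s : (Fin T → Option (Fin N)) × Fin m), j ∉ QQ s →
      ph (L5helper42.AA.flip j x) s = ph x s :=
    fun j x s hj => phase_flip j x s hj
  have hQ : ∀ s : (Fin T → Option (Fin N)) × Fin m, ((QQ s).card : ℝ) ≤ Tr := QQ_card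
  set δ : ℝ := θ ^ 2 ^ r with hδ
  have hδ0 : 0 < δ := by positivity
  have hcount : (r : ℝ) * (Tr / δ) ≤ (r * K₁ ^ 2 ^ r + 1) * (Tr / ε) ^ (1 + (e + 2) * 2 ^ r) := by
    have hq1 : 1 ≤ Tr / ε := by
      rw [le_div_iff₀ hε]; linarith
    have h1 : Tr / δ = Tr * (K₁ * Tr ^ (e + 1) / ε) ^ 2 ^ r := by
      rw [hδ, hθ, div_pow, div_pow]
      field_simp
    have h2 : Tr ≤ Tr / ε := by
      rw [le_div_iff₀ hε]; nlinarith
    have h3 : Tr ^ (e + 1) / ε ≤ (Tr / ε) ^ (e + 2) := by
      rw [pow_succ (Tr / ε) (e + 1), div_eq_mul_inv]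
      refine mul_le_mul (pow_le_pow_left₀ hTr0.le h2 _) ?_ (by positivity) (by positivity)
      rw [div_eq_mul_inv]
      have : 0 < ε⁻¹ := by positivity
      nlinarith
    have h4 : (K₁ * Tr ^ (e + 1) / ε) ^ 2 ^ r ≤ K₁ ^ 2 ^ r * (Tr / ε) ^ ((e + 2) * 2 ^ r) := by
      rw [pow_mul, ← mul_pow, mul_div_assoc]
      refine pow_le_pow_left₀ (by positivity) (mul_le_mul_of_nonneg_left h3 (by positivity)) _
    rw [h1]
    calc (r : ℝ) * (Tr * (K₁ * Tr ^ (e + 1) / ε) ^ 2 ^ r)
        ≤ r * (Tr / ε * (K₁ ^ 2 ^ r * (Tr / ε) ^ ((e + 2) * 2 ^ r))) := by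
          refine mul_le_mul_of_nonneg_left ?_ (Nat.cast_nonneg _)
          exact mul_le_mul h2 h4 (by positivity) (by positivity)
      _ = r * K₁ ^ 2 ^ r * (Tr / ε) ^ (1 + (e + 2) * 2 ^ r) := by
          rw [pow_add, pow_one]; ring
      _ ≤ _ := by
          refine mul_le_mul_of_nonneg_right (by linarith) (by positivity)
  refine ⟨FF U' ph v₀ QQ δ r, FF_adapted r, fun x => ?_, ?_, ?_⟩
  · exact (FF_card_le hph h₀ hQ hδ0 r x).trans hcount
  · obtain ⟨D, hD, hd⟩ := exists_tree (U := U') hph h₀ hQ hTr0.le hδ0 r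
    exact ⟨D, hD, hd.trans hcount⟩
  · have hacc : accept U s₀ Acc r = fun x => prA (fun _ : Unit => Acc) () (psi U' ph v₀ x r) := by
      funext x
      rw [accept, prA, state_eq]
    rw [hacc]
    have hcard : (Fintype.card (Fin N → Bool) : ℝ) = 2 ^ N := by simp
    rw [div_le_iff₀ (by positivity)]
    refine (efronStein (FF_adapted r) _).trans ?_
    have hinf := influence (U := U') (v₀ := v₀) (ph := ph) (Q := QQ) (δ := δ) hph h₀ hloc hTr1 hQ
      hδ0 (fun _ : Unit => Acc) (L := 1) zero_le_one (fun s => by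
        have : (univ.filter fun _ : Unit => s ∈ Acc).card ≤ 1 := by
          refine (card_le_univ _).trans ?_
          simp
        exact_mod_cast this) (η := θ) (B := K * Tr ^ e) hθ0 hθ1
        (by
          rw [hδ]
          calc θ ^ 2 ^ r ≤ θ ^ 1 := pow_le_pow_of_le_one hθ0.le hθ1 Nat.one_le_two_pow
            _ = θ := pow_one θ) r (by positivity)
        (fun u hu => by
          have h := hrounds U' ph v₀ QQ Tr θ r hph h₀ hloc hTr1 hQ hθ0 hθ1 (by omega) u (by omega)
          have hr : r - (r - 1) = 1 := by omega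
          rw [hr, pow_one] at h
          exact h)
    simp only [univ_unique, sum_singleton] at hinf
    rw [hcard] at hinf
    have hE1 : K * Tr ^ e ≤ K * Tr ^ (e + 1) :=
      mul_le_mul_of_nonneg_left (pow_le_pow_right₀ hTr1 (by omega)) hK
    have hE2 : Tr ≤ Tr ^ (e + 1) := by
      calc Tr = Tr ^ 1 := (pow_one _).symm
        _ ≤ _ := pow_le_pow_right₀ hTr1 (by omega)
    have hbound : θ * (r * (32 * r * ((1 + 1) * (Tr * 1) + K * Tr ^ e) +
        32 * 1 ^ 2 * r ^ 3 * (2 * Tr + 2 * (K * Tr ^ e)))) ≤ ε := by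
      have h1 : (r : ℝ) * (32 * r * ((1 + 1) * (Tr * 1) + K * Tr ^ e) +
        32 * 1 ^ 2 * r ^ 3 * (2 * Tr + 2 * (K * Tr ^ e))) ≤
        (r : ℝ) * (32 * r * ((4 + K) * Tr ^ (e + 1)) +
          32 * r ^ 3 * ((2 + 2 * K) * Tr ^ (e + 1))) := by
        refine mul_le_mul_of_nonneg_left (add_le_add ?_ ?_) (Nat.cast_nonneg _)
        · refine mul_le_mul_of_nonneg_left ?_ (by positivity)
          nlinarith
        · rw [one_pow, mul_one]
          refine mul_le_mul_of_nonneg_left ?_ (by positivity)
          linarith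
      have h2 : (r : ℝ) * (32 * r * ((4 + K) * Tr ^ (e + 1)) +
          32 * r ^ 3 * ((2 + 2 * K) * Tr ^ (e + 1))) ≤ K₁ * Tr ^ (e + 1) := by
        rw [hK₁]
        have : 0 ≤ Tr ^ (e + 1) := by positivity
        nlinarith
      calc _ ≤ θ * (K₁ * Tr ^ (e + 1)) := mul_le_mul_of_nonneg_left (h1.trans h2) hθ0.le
        _ = ε := by rw [hθ]; field_simp
    have h0 : 0 ≤ ∑ x, ∑ i ∈ (FF U' ph v₀ QQ δ r x)ᶜ,
        (prA (fun _ : Unit => Acc) () (psi U' ph v₀ x r) -
          prA (fun _ : Unit => Acc) () (psi U' ph v₀ (L5helper42.AA.flip i x) r)) ^ 2 :=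
      sum_nonneg fun x _ => sum_nonneg fun i _ => sq_nonneg _
    have h5 : (2 : ℝ) ^ N * (θ * (r * (32 * r * ((1 + 1) * (Tr * 1) + K * Tr ^ e) +
        32 * 1 ^ 2 * r ^ 3 * (2 * Tr + 2 * (K * Tr ^ e))))) ≤ 2 ^ N * ε :=
      mul_le_mul_of_nonneg_left hbound (by positivity)
    have h6 := hinf.trans h5
    linarith

/-- If there are no queries, then the acceptance probability is constant. -/
lemma accept_const {N m : ℕ}
    (U : ℕ → Matrix.unitaryGroup ((Fin 0 → Option (Fin N)) × Fin m) ℂ)
    (s₀ : (Fin 0 → Option (Fin N)) × Fin m) (Acc : Finset ((Fin 0 → Option (Fin N)) × Fin m))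
    (r : ℕ) (x y : Fin N → Bool) : accept U s₀ Acc r x = accept U s₀ Acc r y := by
  have h : state U s₀ x r = state U s₀ y r := by
    induction r with
    | zero => rfl
    | succ r ih =>
      rw [state, state, ih]
      congr 1
  rw [accept, accept, h]

lemma accept_mem {N T m : ℕ}
    (U : ℕ → Matrix.unitaryGroup ((Fin T → Option (Fin N)) × Fin m) ℂ)
    (s₀ : (Fin T → Option (Fin N)) × Fin m) (Acc : Finset ((Fin T → Option (Fin N)) × Fin m))
    (r : ℕ) (x : Fin N → Bool) : 0 ≤ accept U s₀ Acc r x ∧ accept U s₀ Acc r x ≤ 1 := by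
  constructor
  · exact sum_nonneg fun s _ => by positivity
  · have h := L5helper42.AA.nsq_psi (U := fun t => U (t + 1))
      (ph := fun x (s : (Fin T → Option (Fin N)) × Fin m) => phase x s.1)
      (fun x s => norm_phase x s.1) (nsq_start U s₀) x r
    rw [← state_eq] at h
    rw [← h, accept, L5helper42.AA.nsq]
    exact sum_le_sum_of_subset_of_nonneg (subset_univ _) fun s _ _ => by positivity

open L5helper42.AA in
/-- **Main theorem.** For every number `r` of rounds there are constants `C`, `k` such that for all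
`N`, `T`, `m` and all quantum algorithms with `r` rounds of `T` parallel queries to an oracle in
`{0,1} ^ N` and with `m`-dimensional workspace:
(1) for every `0 < ε ≤ 1` there is a classical decision tree of depth at most `C (T / ε) ^ k` whose
output approximates the acceptance probability with mean square error at most `ε`;
(2) if the variance `Var` of the acceptance probability is positive, then some assignment of at
most `C (T / Var) ^ k` bits changes the mean acceptance probability by at least `√Var / 2`. -/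
theorem result (r : ℕ) : ∃ C : ℝ, 0 < C ∧ ∃ k : ℕ, ∀ (N T m : ℕ)
    (U : ℕ → Matrix.unitaryGroup ((Fin T → Option (Fin N)) × Fin m) ℂ)
    (s₀ : (Fin T → Option (Fin N)) × Fin m)
    (Acc : Finset ((Fin T → Option (Fin N)) × Fin m)),
    (∀ ε : ℝ, 0 < ε → ε ≤ 1 → ∃ D : DTree N ℝ, (D.depth : ℝ) ≤ C * ((T : ℝ) / ε) ^ k ∧
      (∑ x, (accept U s₀ Acc r x - D.eval x) ^ 2) / 2 ^ N ≤ ε) ∧
    (∀ E Var : ℝ, E = (∑ x, accept U s₀ Acc r x) / 2 ^ N →
      Var = (∑ x, (accept U s₀ Acc r x - E) ^ 2) / 2 ^ N → 0 < Var →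
      ∃ (S : Finset (Fin N)) (a : Fin N → Bool), (S.card : ℝ) ≤ C * ((T : ℝ) / Var) ^ k ∧
        √Var / 2 ≤ |(∑ x ∈ univ.filter (fun x : Fin N → Bool => ∀ i ∈ S, x i = a i),
          accept U s₀ Acc r x) /
          ((univ.filter (fun x : Fin N → Bool => ∀ i ∈ S, x i = a i)).card : ℝ) - E|) := by
  obtain ⟨C, hC, k, hcore⟩ := core r
  refine ⟨C * 4 ^ (k + 1), by positivity, k + 1, ?_⟩
  intro N T m U s₀ Acc
  set p := accept U s₀ Acc r with hp
  rcases Nat.eq_zero_or_pos T with hT | hT
  · subst hT
    have hconst : ∀ x y, p x = p y := fun x y => accept_const U s₀ Acc r x y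
    constructor
    · intro ε hε hε1
      refine ⟨DTree.leaf (p fun _ => false), ?_, ?_⟩
      · simp [DTree.depth]
      · have : ∀ x, (p x - (DTree.leaf (p fun _ => false) : DTree N ℝ).eval x) ^ 2 = 0 := by
          intro x
          rw [DTree.eval, hconst x (fun _ => false), sub_self]
          ring
        rw [sum_congr rfl fun x _ => this x]
        simp [hε.le]
    · intro E Var hE hV hpos
      exfalso
      have h1 : ∀ x, p x - E = 0 := by
        intro x
        rw [hE, sum_congr rfl fun y _ => hconst y x, sum_const, nsmul_eq_mul, card_univ]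
        simp
      rw [sum_congr rfl fun x _ => by rw [h1 x]] at hV
      simp at hV
      exact hpos.ne' hV
  · have hT1 : (1 : ℝ) ≤ T := by exact_mod_cast hT
    constructor
    · intro ε hε hε1
      obtain ⟨F, hF, -, ⟨D, hD, hd⟩, herr⟩ := hcore N T m U s₀ Acc hT ε hε hε1
      refine ⟨D.bind fun y => DTree.leaf (avg F p y), ?_, ?_⟩
      · have h1 : (D.bind fun y => DTree.leaf (avg F p y)).depth ≤ D.depth + 0 :=
          DTree.depth_bind D _ fun y => le_rfl
        have h2 : ((D.bind fun y => DTree.leaf (avg F p y)).depth : ℝ) ≤ D.depth := by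
          exact_mod_cast h1
        refine h2.trans (hd.trans ?_)
        have hq1 : 1 ≤ (T : ℝ) / ε := by
          rw [le_div_iff₀ hε]; linarith
        have h3 : C ≤ C * 4 ^ (k + 1) := by
          have : (1 : ℝ) ≤ 4 ^ (k + 1) := one_le_pow₀ (by norm_num)
          nlinarith
        exact mul_le_mul h3 (pow_le_pow_right₀ hq1 (by omega)) (by positivity) (by positivity)
      · refine le_trans (le_of_eq ?_) herr
        congr 1
        refine sum_congr rfl fun x _ => ?_
        rw [DTree.eval_bind, DTree.eval, avg_congr hF p (hD x)]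
    · intro E Var hE hV hpos
      have hp01 : ∀ x, 0 ≤ p x ∧ p x ≤ 1 := accept_mem U s₀ Acc r
      have hE0 : 0 ≤ E := by
        rw [hE]; exact div_nonneg (sum_nonneg fun x _ => (hp01 x).1) (by positivity)
      have hE1 : E ≤ 1 := by
        rw [hE, div_le_one (by positivity)]
        calc ∑ x, p x ≤ ∑ _x : Fin N → Bool, (1 : ℝ) := sum_le_sum fun x _ => (hp01 x).2
          _ = 2 ^ N := by simp
      have hV1 : Var ≤ 1 := by
        rw [hV, div_le_one (by positivity)]
        calc ∑ x, (p x - E) ^ 2 ≤ ∑ _x : Fin N → Bool, (1 : ℝ) := by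
              refine sum_le_sum fun x _ => ?_
              have := hp01 x
              nlinarith
          _ = 2 ^ N := by simp
      obtain ⟨F, hF, hcard, -, herr⟩ := hcore N T m U s₀ Acc hT (Var / 4) (by positivity)
        (by linarith)
      rw [← hp] at herr
      rw [div_le_iff₀ (by positivity)] at herr
      have hV' : ∑ x, (p x - E) ^ 2 = Var * 2 ^ N := by
        rw [hV]; field_simp
      have h1 : ∑ x, (p x - E) ^ 2 ≤ 2 * ∑ x, (p x - avg F p x) ^ 2 +
          2 * ∑ x, (avg F p x - E) ^ 2 := by
        rw [mul_sum, mul_sum, ← sum_add_distrib]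
        refine sum_le_sum fun x _ => ?_
        nlinarith [sq_nonneg ((p x - avg F p x) - (avg F p x - E))]
      have h2 : ∑ _x : Fin N → Bool, Var / 4 ≤ ∑ x, (avg F p x - E) ^ 2 := by
        rw [sum_const, nsmul_eq_mul, card_univ]
        have : (Fintype.card (Fin N → Bool) : ℝ) = 2 ^ N := by simp
        rw [this]
        linarith
      obtain ⟨x, -, hx⟩ := exists_le_of_sum_le ⟨fun _ => false, mem_univ _⟩ h2
      refine ⟨F x, x, ?_, ?_⟩
      · refine (hcard x).trans ?_
        have hq1 : 1 ≤ (T : ℝ) / Var := by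
          rw [le_div_iff₀ hpos]; linarith
        calc C * ((T : ℝ) / (Var / 4)) ^ k = C * 4 ^ k * ((T : ℝ) / Var) ^ k := by
              have : (T : ℝ) / (Var / 4) = 4 * ((T : ℝ) / Var) := by field_simp
              rw [this, mul_pow]; ring
          _ ≤ C * 4 ^ (k + 1) * ((T : ℝ) / Var) ^ (k + 1) := by
              refine mul_le_mul (mul_le_mul_of_nonneg_left
                (pow_le_pow_right₀ (by norm_num) (by omega)) hC.le)
                (pow_le_pow_right₀ hq1 (by omega)) (by positivity) (by positivity)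
      · have h3 : (univ.filter fun y : Fin N → Bool => ∀ i ∈ F x, y i = x i) = cell F x := by
          ext y; simp [mem_cell]
        rw [h3]
        change √Var / 2 ≤ |avg F p x - E|
        rw [← Real.sqrt_sq_eq_abs]
        have h4 : √Var / 2 = √(Var / 4) := by
          rw [Real.sqrt_div hpos.le]
          congr 1
          rw [show (4 : ℝ) = 2 ^ 2 by norm_num, Real.sqrt_sq (by norm_num)]
        rw [h4]
        exact Real.sqrt_le_sqrt hx

end Pool.Agent.Results.MP_58d537_lc.BoundedRounds
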