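import Pool.Agent.L5helper56.QF.Phase

/-!
# MP_58d537_lc: the bit-fixing statement for quantum algorithms with few clean qubits

We consider quantum query algorithms in the one clean qubit model and its generalisations: all but
few qubits are initially in the maximally mixed state, so the algorithm starts in a uniformly random
basis state out of a set `S₀` of basis states, where `|ι| ≤ R |S₀|` (`R = 2 ^ k` for `k` clean
qubits). The algorithm is otherwise arbitrary (adaptive, arbitrary unitaries, bits may be queried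
again and again). We show that its acceptance probability is close to a function of few fixed bits,
with polynomial bounds in the number of queries, `R` and `1 / ε`.

Idea: a bit `i` is queried by `n i` basis states, and `∑ n i ≤ K |ι|`. Since the rows of unitary
matrices have norm one, a flip of the bit `i` changes the acceptance probability by at most
`4 T (n i) / |S₀|`, for every oracle. By the Efron-Stein inequality only the bits of large `n i`
matter.
-/

set_option autoImplicit false
set_option linter.unusedSectionVars false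

open Finset Matrix

namespace Pool.Agent.Results.MP_58d537_lc.FewCleanQubits

/-- The sign which a batch `q` of `K` parallel queries picks up for the oracle `x`: an entry
`some i` gives the sign `(-1) ^ (x i)`, an entry `none` is an unused query. -/
noncomputable def sign {N K : ℕ} (x : Fin N → Bool) (q : Fin K → Option (Fin N)) : ℂ :=
  ∏ k, (q k).elim (1 : ℂ) (fun i => if x i then -1 else 1)

/-- The unitary matrix of the algorithm after `t` rounds of queries; `q s` is the batch of queries
made by the basis state `s`. -/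
noncomputable def evo {N K : ℕ} {ι : Type} [Fintype ι] [DecidableEq ι]
    (U : ℕ → Matrix.unitaryGroup ι ℂ) (q : ι → Fin K → Option (Fin N)) (x : Fin N → Bool) :
    ℕ → Matrix ι ι ℂ
  | 0 => (U 0).1
  | t + 1 => (U (t + 1)).1 * (Matrix.diagonal fun s => sign x (q s)) * evo U q x t

/-- The probability that the algorithm with `T` rounds, started in a uniformly random basis state
in `S₀`, ends in a basis state in `Acc`. -/
noncomputable def accept {N K : ℕ} {ι : Type} [Fintype ι] [DecidableEq ι]
    (U : ℕ → Matrix.unitaryGroup ι ℂ) (q : ι → Fin K → Option (Fin N)) (S₀ Acc : Finset ι)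
    (T : ℕ) (x : Fin N → Bool) : ℝ :=
  (∑ s ∈ S₀, ∑ a ∈ Acc, ‖evo U q x T a s‖ ^ 2) / (S₀.card : ℝ)

open L5helper56.QF
open L5helper42.AA (nsq nsq_nonneg)

section

variable {N K : ℕ} {ι : Type} [Fintype ι] [DecidableEq ι]
  {U : ℕ → Matrix.unitaryGroup ι ℂ} {q : ι → Fin K → Option (Fin N)}

lemma norm_sign (x : Fin N → Bool) (b : Fin K → Option (Fin N)) : ‖sign x b‖ = 1 := by
  unfold sign
  rw [norm_prod]
  refine prod_eq_one fun k _ => ?_
  cases b k with
  | none => simp
  | some i => simp only [Option.elim]; split_ifs <;> simp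

/-- The basis states which query the bit `i`. -/
def ask (q : ι → Fin K → Option (Fin N)) (i : Fin N) : Finset ι :=
  univ.filter fun s => ∃ k, q s k = some i

lemma sign_flip (x : Fin N → Bool) (i : Fin N) (s : ι) (hs : s ∉ ask q i) :
    sign (L5helper42.AA.flip i x) (q s) = sign x (q s) := by
  unfold ask at hs
  simp only [mem_filter, mem_univ, true_and, not_exists] at hs
  unfold sign
  refine prod_congr rfl fun k _ => ?_
  cases hk : q s k with
  | none => rfl
  | some j =>
    have hj : j ≠ i := by
      rintro rfl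
      exact hs k hk
    simp only [Option.elim]
    rw [L5helper42.AA.flip_apply_ne hj]

lemma sum_ask : ∑ i, (ask q i).card ≤ K * Fintype.card ι := by
  have h1 : ∑ i, (ask q i).card = ∑ s : ι, (univ.filter fun i => ∃ k, q s k = some i).card := by
    unfold ask
    simp only [card_filter]
    rw [sum_comm]
  rw [h1]
  have h2 : ∀ s ∈ (univ : Finset ι), (univ.filter fun i => ∃ k, q s k = some i).card ≤ K := by
    intro s _
    have h3 : (univ.filter fun i => ∃ k, q s k = some i) ⊆
        univ.biUnion fun k => (q s k).toFinset := by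
      intro i hi
      simp only [mem_filter, mem_univ, true_and] at hi
      obtain ⟨k, hk⟩ := hi
      rw [mem_biUnion]
      exact ⟨k, mem_univ k, by rw [hk]; simp⟩
    refine (card_le_card h3).trans (card_biUnion_le.trans ?_)
    calc ∑ k : Fin K, (q s k).toFinset.card ≤ ∑ _k : Fin K, 1 := by
          refine sum_le_sum fun k _ => ?_
          cases q s k <;> simp
      _ = K := by simp
  refine (sum_le_sum h2).trans ?_
  rw [sum_const, card_univ, smul_eq_mul, mul_comm]

/-- The diagonal matrix of the queries. -/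
noncomputable def dg (q : ι → Fin K → Option (Fin N)) (x : Fin N → Bool) : Matrix ι ι ℂ :=
  Matrix.diagonal fun s => sign x (q s)

lemma dg_mem (x : Fin N → Bool) : dg q x ∈ Matrix.unitaryGroup ι ℂ := by
  rw [mem_unitaryGroup_iff, dg, star_eq_conjTranspose, diagonal_conjTranspose, diagonal_mul_diagonal]
  rw [← diagonal_one]
  congr 1
  funext s
  rw [Pi.star_apply, Complex.star_def, Complex.mul_conj, Complex.normSq_eq_norm_sq, norm_sign]
  simp

lemma evo_mem (x : Fin N → Bool) (t : ℕ) : evo U q x t ∈ Matrix.unitaryGroup ι ℂ := by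
  induction t with
  | zero => exact (U 0).2
  | succ t ih => exact mul_mem (mul_mem (U (t + 1)).2 (dg_mem x)) ih

/-- The part of the algorithm after the query number `u`. -/
noncomputable def late (U : ℕ → Matrix.unitaryGroup ι ℂ) (q : ι → Fin K → Option (Fin N))
    (x : Fin N → Bool) : ℕ → ℕ → Matrix ι ι ℂ
  | 0, _ => 1
  | t + 1, u => if u = t then (U (t + 1)).1 else (U (t + 1)).1 * dg q x * late U q x t u

lemma late_mem (x : Fin N → Bool) (t u : ℕ) : late U q x t u ∈ Matrix.unitaryGroup ι ℂ := by
  induction t with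
  | zero => exact one_mem _
  | succ t ih =>
    rw [late]
    split_ifs
    · exact (U (t + 1)).2
    · exact mul_mem (mul_mem (U (t + 1)).2 (dg_mem x)) ih

lemma evo_sub (x x' : Fin N → Bool) (t : ℕ) :
    evo U q x t - evo U q x' t =
      ∑ u ∈ range t, late U q x t u * (dg q x - dg q x') * evo U q x' u := by
  induction t with
  | zero => simp [evo]
  | succ t ih =>
    rw [sum_range_succ]
    have h1 : evo U q x (t + 1) - evo U q x' (t + 1) =
        (U (t + 1)).1 * dg q x * (evo U q x t - evo U q x' t) +
          (U (t + 1)).1 * (dg q x - dg q x') * evo U q x' t := by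
      rw [evo, evo]
      change (U (t + 1)).1 * dg q x * evo U q x t - (U (t + 1)).1 * dg q x' * evo U q x' t = _
      noncomm_ring
    rw [h1, ih, mul_sum]
    congr 1
    · refine sum_congr rfl fun u hu => ?_
      rw [late, if_neg (mem_range.1 hu).ne]
      simp only [Matrix.mul_assoc]
    · rw [late, if_pos rfl]

lemma row_norm {A : Matrix ι ι ℂ} (hA : A ∈ Matrix.unitaryGroup ι ℂ) (t : ι) :
    ∑ s, ‖A t s‖ ^ 2 = 1 := by
  have h := congrFun (congrFun (mem_unitaryGroup_iff.1 hA) t) t
  rw [star_eq_conjTranspose, Matrix.mul_apply, Matrix.one_apply_eq] at h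
  have h2 : (∑ s, ‖A t s‖ ^ 2 : ℝ) = (1 : ℂ).re := by
    rw [← h, Complex.re_sum]
    refine sum_congr rfl fun s _ => ?_
    rw [conjTranspose_apply, Complex.star_def, Complex.mul_conj, Complex.normSq_eq_norm_sq]
    norm_cast
  simpa using h2

lemma col_norm {A : Matrix ι ι ℂ} (hA : A ∈ Matrix.unitaryGroup ι ℂ) (t : ι) :
    ∑ s, ‖A s t‖ ^ 2 = 1 := by
  have h := row_norm (star (⟨A, hA⟩ : Matrix.unitaryGroup ι ℂ)).2 t
  simpa [star_eq_conjTranspose, conjTranspose_apply] using h

/-- The change of the unnormalized acceptance probability under a flip. -/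
lemma change (S₀ Acc : Finset ι) (T : ℕ) (x : Fin N → Bool) (i : Fin N) :
    |∑ s ∈ S₀, ∑ a ∈ Acc, ‖evo U q x T a s‖ ^ 2 -
      ∑ s ∈ S₀, ∑ a ∈ Acc, ‖evo U q (L5helper42.AA.flip i x) T a s‖ ^ 2| ≤
      4 * T * ((ask q i).card : ℝ) := by
  set x' := L5helper42.AA.flip i x with hx'
  set W := evo U q x T with hW
  set W' := evo U q x' T with hW'
  set Δ : ι → ℂ := fun t => sign x (q t) - sign x' (q t) with hΔ
  set Z : ℕ → ι → ι → ℂ := fun u t s =>
    ∑ a ∈ Acc, star (W a s + W' a s) * late U q x T u a t with hZ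
  have hWm : W ∈ Matrix.unitaryGroup ι ℂ := evo_mem x T
  have hWm' : W' ∈ Matrix.unitaryGroup ι ℂ := evo_mem x' T
  -- the difference as a sum over the queries
  have h1 : ∀ a s, ‖W a s‖ ^ 2 - ‖W' a s‖ ^ 2 = (star (W a s + W' a s) * (W - W') a s).re := by
    intro a s
    rw [← Complex.normSq_eq_norm_sq, ← Complex.normSq_eq_norm_sq]
    simp only [Complex.normSq_apply, Matrix.sub_apply, Complex.star_def, Complex.mul_re,
      Complex.conj_re, Complex.conj_im, Complex.sub_re, Complex.sub_im, Complex.add_re,
      Complex.add_im]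
    ring
  have h2 : ∀ a s, (W - W') a s = ∑ u ∈ range T, ∑ t,
      late U q x T u a t * Δ t * evo U q x' u t s := by
    intro a s
    rw [hW, hW', evo_sub, Matrix.sum_apply]
    refine sum_congr rfl fun u _ => ?_
    rw [Matrix.mul_apply]
    refine sum_congr rfl fun t _ => ?_
    congr 1
    rw [dg, dg, diagonal_sub, mul_diagonal]
  have h3 : ∑ s ∈ S₀, ∑ a ∈ Acc, ‖W a s‖ ^ 2 - ∑ s ∈ S₀, ∑ a ∈ Acc, ‖W' a s‖ ^ 2 =
      (∑ u ∈ range T, ∑ t, Δ t * ∑ s ∈ S₀, evo U q x' u t s * Z u t s).re := by
    rw [← sum_sub_distrib]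
    have h4 : ∀ s ∈ S₀, ∑ a ∈ Acc, ‖W a s‖ ^ 2 - ∑ a ∈ Acc, ‖W' a s‖ ^ 2 =
        (∑ a ∈ Acc, star (W a s + W' a s) * (W - W') a s).re := by
      intro s _
      rw [← sum_sub_distrib, Complex.re_sum]
      exact sum_congr rfl fun a _ => h1 a s
    rw [sum_congr rfl h4, ← Complex.re_sum]
    congr 1
    simp only [h2, mul_sum, hZ]
    -- reorder
    have e1 : ∀ s ∈ S₀, ∑ a ∈ Acc, ∑ u ∈ range T, ∑ t,
        star (W a s + W' a s) * (late U q x T u a t * Δ t * evo U q x' u t s) =
        ∑ u ∈ range T, ∑ t, ∑ a ∈ Acc,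
          star (W a s + W' a s) * (late U q x T u a t * Δ t * evo U q x' u t s) := by
      intro s _
      rw [sum_comm]
      exact sum_congr rfl fun u _ => sum_comm
    rw [sum_congr rfl e1, sum_comm]
    refine sum_congr rfl fun u _ => ?_
    rw [sum_comm]
    refine sum_congr rfl fun t _ => sum_congr rfl fun s _ => sum_congr rfl fun a _ => ?_
    ring
  rw [h3]
  refine (Complex.abs_re_le_norm _).trans ((norm_sum_le _ _).trans ?_)
  have h5 : ∀ u ∈ range T, ‖∑ t, Δ t * ∑ s ∈ S₀, evo U q x' u t s * Z u t s‖ ≤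
      4 * ((ask q i).card : ℝ) := by
    intro u _
    refine (norm_sum_le _ _).trans ?_
    -- bound for one basis state
    have h6 : ∀ t, ‖∑ s ∈ S₀, evo U q x' u t s * Z u t s‖ ≤ 2 := by
      intro t
      have hrow := row_norm (evo_mem (U := U) (q := q) x' u) t
      have hcol := col_norm (late_mem (U := U) (q := q) x T u) t
      set v : ι → ℂ := fun a => if a ∈ Acc then late U q x T u a t else 0 with hv
      have hnv : nsq v ≤ 1 := by
        rw [← hcol]
        unfold nsq
        refine sum_le_sum fun a _ => ?_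
        simp only [hv]
        split_ifs <;> simp
      have hZv : ∀ s, Z u t s = (Wᴴ *ᵥ v + W'ᴴ *ᵥ v) s := by
        intro s
        simp only [hZ, Pi.add_apply, mulVec, dotProduct, conjTranspose_apply, hv]
        rw [← sum_add_distrib]
        simp only [mul_ite, mul_zero]
        rw [← sum_filter_add_sum_filter_not univ (fun a => a ∈ Acc)]
        have h7 : ∑ a ∈ univ.filter (fun a => ¬ a ∈ Acc),
            ((if a ∈ Acc then star (W a s) * late U q x T u a t else 0) +
              if a ∈ Acc then star (W' a s) * late U q x T u a t else 0) = 0 := by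
          refine sum_eq_zero fun a ha => ?_
          rw [if_neg (mem_filter.1 ha).2, if_neg (mem_filter.1 ha).2, add_zero]
        rw [h7, add_zero]
        have h8 : (univ.filter fun a => a ∈ Acc) = Acc := by ext a; simp
        rw [h8]
        refine sum_congr rfl fun a ha => ?_
        rw [if_pos ha, if_pos ha, star_add]
        ring
      have hZn : ∑ s, ‖Z u t s‖ ^ 2 ≤ 4 := by
        have h9 : ∑ s, ‖Z u t s‖ ^ 2 ≤ 2 * nsq (Wᴴ *ᵥ v) + 2 * nsq (W'ᴴ *ᵥ v) := by
          unfold nsq
          rw [mul_sum, mul_sum, ← sum_add_distrib]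
          refine sum_le_sum fun s _ => ?_
          rw [hZv, Pi.add_apply]
          have := norm_add_le ((Wᴴ *ᵥ v) s) ((W'ᴴ *ᵥ v) s)
          nlinarith [sq_nonneg (‖(Wᴴ *ᵥ v) s‖ - ‖(W'ᴴ *ᵥ v) s‖), norm_nonneg ((Wᴴ *ᵥ v) s),
            norm_nonneg ((W'ᴴ *ᵥ v) s), norm_nonneg ((Wᴴ *ᵥ v) s + (W'ᴴ *ᵥ v) s)]
        rw [L5helper42.AA.nsq_unitary_conj ⟨W, hWm⟩, L5helper42.AA.nsq_unitary_conj ⟨W', hWm'⟩]
          at h9
        linarith
      have h10 : ‖∑ s ∈ S₀, evo U q x' u t s * Z u t s‖ ^ 2 ≤ 2 ^ 2 := by
        have h11 : ‖∑ s ∈ S₀, evo U q x' u t s * Z u t s‖ ≤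
            ∑ s, ‖evo U q x' u t s‖ * ‖Z u t s‖ := by
          refine (norm_sum_le _ _).trans ?_
          refine (sum_le_sum_of_subset_of_nonneg (subset_univ S₀) fun s _ _ =>
            norm_nonneg _).trans (le_of_eq ?_)
          exact sum_congr rfl fun s _ => norm_mul _ _
        calc _ ≤ (∑ s, ‖evo U q x' u t s‖ * ‖Z u t s‖) ^ 2 :=
              pow_le_pow_left₀ (norm_nonneg _) h11 2
          _ ≤ (∑ s, ‖evo U q x' u t s‖ ^ 2) * ∑ s, ‖Z u t s‖ ^ 2 :=
              sum_mul_sq_le_sq_mul_sq _ _ _
          _ ≤ 2 ^ 2 := by rw [hrow]; linarith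
      exact (abs_le_of_sq_le_sq' h10 (by norm_num)).2
    have h12 : ∀ t ∈ (univ : Finset ι), ‖Δ t * ∑ s ∈ S₀, evo U q x' u t s * Z u t s‖ ≤
        if t ∈ ask q i then 4 else 0 := by
      intro t _
      rw [norm_mul]
      split_ifs with ht
      · have h13 : ‖Δ t‖ ≤ 2 := by
          refine (norm_sub_le _ _).trans ?_
          rw [norm_sign, norm_sign]
          norm_num
        nlinarith [h6 t, norm_nonneg (Δ t), norm_nonneg (∑ s ∈ S₀, evo U q x' u t s * Z u t s)]
      · have h13 : Δ t = 0 := by
          simp only [hΔ, hx', sign_flip x i t ht, sub_self]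
        rw [h13, norm_zero, zero_mul]
    refine (sum_le_sum h12).trans (le_of_eq ?_)
    rw [← sum_filter, sum_const, nsmul_eq_mul]
    have : (univ.filter fun t => t ∈ ask q i) = ask q i := by ext t; simp
    rw [this, mul_comm]
  refine (sum_le_sum h5).trans (le_of_eq ?_)
  rw [sum_const, card_range, nsmul_eq_mul]
  ring

lemma accept_flip (S₀ Acc : Finset ι) (T : ℕ) (x : Fin N → Bool) (i : Fin N) :
    |accept U q S₀ Acc T x - accept U q S₀ Acc T (L5helper42.AA.flip i x)| ≤
      4 * T * (((ask q i).card : ℝ) / (S₀.card : ℝ)) := by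
  unfold accept
  rw [← sub_div, abs_div, abs_of_nonneg (show (0 : ℝ) ≤ (S₀.card : ℝ) from Nat.cast_nonneg _),
    ← mul_div_assoc]
  exact div_le_div_of_nonneg_right (change S₀ Acc T x i) (Nat.cast_nonneg _)

/-- The acceptance probability is nearly determined by the bits queried by many basis states. -/
lemma junta (S₀ Acc : Finset ι) (hS : S₀.Nonempty) (T : ℕ) {R : ℝ}
    (hR : (Fintype.card ι : ℝ) ≤ R * S₀.card) {δ : ℝ} (hδ : 0 < δ) :
    ∃ H : Finset (Fin N), (H.card : ℝ) ≤ K * R / δ ∧
      ex (fun x => (accept U q S₀ Acc T x - av Hᶜ (accept U q S₀ Acc T) x) ^ 2) ≤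
        4 * T ^ 2 * δ * (K * R) := by
  have hS0 : (0 : ℝ) < (S₀.card : ℝ) := by exact_mod_cast hS.card_pos
  set w : Fin N → ℝ := fun i => ((ask q i).card : ℝ) / (S₀.card : ℝ) with hw
  have hw0 : ∀ i, 0 ≤ w i := fun i => by positivity
  have hsum : ∑ i, w i ≤ K * R := by
    rw [hw, ← sum_div, div_le_iff₀ hS0]
    have h1 : (∑ i, ((ask q i).card : ℝ)) ≤ K * (Fintype.card ι : ℝ) := by
      exact_mod_cast sum_ask
    refine h1.trans ?_
    rw [mul_assoc]
    exact mul_le_mul_of_nonneg_left hR (Nat.cast_nonneg _)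
  refine ⟨univ.filter fun i => δ ≤ w i, ?_, ?_⟩
  · rw [le_div_iff₀ hδ]
    refine le_trans ?_ hsum
    calc ((univ.filter fun i => δ ≤ w i).card : ℝ) * δ = ∑ _i ∈ univ.filter fun i => δ ≤ w i, δ := by
          rw [sum_const, nsmul_eq_mul]
      _ ≤ ∑ i ∈ univ.filter fun i => δ ≤ w i, w i :=
          sum_le_sum fun i hi => (mem_filter.1 hi).2
      _ ≤ ∑ i, w i := sum_le_sum_of_subset_of_nonneg (subset_univ _) fun i _ _ => hw0 i
  · refine (efron _ _).trans ?_
    have h1 : ∀ i ∈ (univ.filter fun i => δ ≤ w i)ᶜ, inf2 i (accept U q S₀ Acc T) ≤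
        4 * T ^ 2 * δ * w i := by
      intro i hi
      simp only [mem_compl, mem_filter, mem_univ, true_and, not_le] at hi
      rw [inf2_eq]
      have h2 : ex (fun x => (accept U q S₀ Acc T x -
          accept U q S₀ Acc T (L5helper42.AA.flip i x)) ^ 2) ≤ 16 * T ^ 2 * (δ * w i) := by
        refine ex_le_of_le fun x => ?_
        have h3 := accept_flip (U := U) (q := q) S₀ Acc T x i
        have h4 : (4 * T * w i) ^ 2 ≤ 16 * T ^ 2 * (δ * w i) := by
          have : w i ^ 2 ≤ δ * w i := by nlinarith [hw0 i]
          nlinarith [sq_nonneg (T : ℝ)]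
        refine le_trans ?_ h4
        rw [← sq_abs]
        exact pow_le_pow_left₀ (abs_nonneg _) h3 2
      linarith
    refine (sum_le_sum h1).trans ?_
    rw [← mul_sum]
    refine mul_le_mul_of_nonneg_left ?_ (by positivity)
    exact (sum_le_sum_of_subset_of_nonneg (subset_univ _) fun i _ _ => hw0 i).trans hsum

/-- The mean over a subcube. -/
lemma mean_cell (p : (Fin N → Bool) → ℝ) (S : Finset (Fin N)) (a : Fin N → Bool) :
    (∑ x ∈ univ.filter (fun x : Fin N → Bool => ∀ i ∈ S, x i = a i), p x) /
      ((univ.filter (fun x : Fin N → Bool => ∀ i ∈ S, x i = a i)).card : ℝ) =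
      av Sᶜ p a := by
  set c : (Fin N → Bool) → ℝ := fun x => if ∀ i ∈ S, x i = a i then 1 else 0 with hc
  set r : (Fin N → Bool) → ℝ := fun x => p (mix S a x) with hr
  set n : ℝ := (Fintype.card (Fin N → Bool) : ℝ) with hn
  have hn0 : 0 < n := card_pos'
  have hav : av Sᶜ p a = ex r := by
    unfold av
    refine congrArg ex (funext fun y => congrArg p (funext fun k => ?_))
    simp only [mix, mem_compl]
    split_ifs <;> simp_all
  have h1 : ∑ x ∈ univ.filter (fun x : Fin N → Bool => ∀ i ∈ S, x i = a i), p x =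
      n * ex (fun x => r x * c x) := by
    unfold ex
    rw [mul_div_cancel₀ _ hn0.ne', sum_filter]
    refine sum_congr rfl fun x _ => ?_
    simp only [hc]
    split_ifs with h
    · rw [mul_one]
      refine congrArg p (funext fun k => ?_)
      simp only [mix]
      split_ifs with hk
      · exact h k hk
      · rfl
    · rw [mul_zero]
  have h2 : ((univ.filter (fun x : Fin N → Bool => ∀ i ∈ S, x i = a i)).card : ℝ) =
      n * ex c := by
    unfold ex
    rw [mul_div_cancel₀ _ hn0.ne', card_filter]
    push_cast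
    rfl
  have h3 : ex (fun x => r x * c x) = ex c * ex r := by
    have h := ex_diag S (fun z x => r x * c z)
      (fun z w x => by
        have : c (mix S z w) = c z := by
          simp only [hc]
          have h4 : (∀ i ∈ S, mix S z w i = a i) ↔ ∀ i ∈ S, z i = a i := by
            refine forall_congr' fun i => forall_congr' fun hi => ?_
            simp [mix, hi]
          simp only [h4]
        rw [this])
      (fun z w x => by
        have : r (mix S w x) = r x := by
          refine congrArg p (funext fun k => ?_)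
          simp only [mix]
          split_ifs <;> rfl
        rw [this])
    rw [h]
    simp only [ex_mul_right]
    rw [ex_mul_left, mul_comm]
  have h4 : (0 : ℝ) < ((univ.filter (fun x : Fin N → Bool => ∀ i ∈ S, x i = a i)).card : ℝ) := by
    exact_mod_cast card_pos.2 ⟨a, by simp⟩
  rw [div_eq_iff h4.ne', h1, h3, h2, hav]
  ring

end

/-- **Main theorem.** Consider a quantum algorithm with `T` rounds of `K` parallel queries to
`x ∈ {0,1} ^ N`, started in a uniformly random basis state out of a nonempty set `S₀` of basis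
states, where the number of all basis states is at most `R |S₀|` (for `k` clean qubits one has
`R = 2 ^ k`). Let `P` be its acceptance probability. Then
(1) for every `ε > 0` there are a set `H` of at most `4 T² K² R² / ε` bits and a function of these
bits which approximates `P` with mean square error at most `ε`;
(2) if the variance `Var` of `P` is positive, then some assignment of at most `16 T² K² R² / Var`
bits changes the mean of `P` by at least `√Var / 2`. -/
theorem result (N K T : ℕ) (ι : Type) [Fintype ι] [DecidableEq ι]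
    (U : ℕ → Matrix.unitaryGroup ι ℂ) (q : ι → Fin K → Option (Fin N)) (S₀ Acc : Finset ι)
    (hS : S₀.Nonempty) (R : ℝ) (hR : (Fintype.card ι : ℝ) ≤ R * S₀.card) :
    (∀ ε : ℝ, 0 < ε → ∃ H : Finset (Fin N),
      (H.card : ℝ) ≤ 4 * (T : ℝ) ^ 2 * (K : ℝ) ^ 2 * R ^ 2 / ε ∧
      ∃ g : (Fin N → Bool) → ℝ, (∀ x y, (∀ i ∈ H, x i = y i) → g x = g y) ∧
        (∑ x, (accept U q S₀ Acc T x - g x) ^ 2) / 2 ^ N ≤ ε) ∧
    (∀ E Var : ℝ, E = (∑ x, accept U q S₀ Acc T x) / 2 ^ N →
      Var = (∑ x, (accept U q S₀ Acc T x - E) ^ 2) / 2 ^ N → 0 < Var →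
      ∃ (S : Finset (Fin N)) (a : Fin N → Bool),
        (S.card : ℝ) ≤ 16 * (T : ℝ) ^ 2 * (K : ℝ) ^ 2 * R ^ 2 / Var ∧
        √Var / 2 ≤ |(∑ x ∈ univ.filter (fun x : Fin N → Bool => ∀ i ∈ S, x i = a i),
          accept U q S₀ Acc T x) /
          ((univ.filter (fun x : Fin N → Bool => ∀ i ∈ S, x i = a i)).card : ℝ) - E|) := by
  set p := accept U q S₀ Acc T with hp
  have hex : ∀ g : (Fin N → Bool) → ℝ, (∑ x, g x) / 2 ^ N = ex g := by
    intro g
    unfold ex
    congr 1
    simp
  have hS0 : (0 : ℝ) < (S₀.card : ℝ) := by exact_mod_cast hS.card_pos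
  have hcard : (0 : ℝ) < (Fintype.card ι : ℝ) := by
    obtain ⟨s, hs⟩ := hS
    exact_mod_cast Fintype.card_pos_iff.2 ⟨s⟩
  have hR0 : 0 < R := by
    by_contra h
    push Not at h
    nlinarith
  have key : ∀ ε : ℝ, 0 < ε → ∃ H : Finset (Fin N),
      (H.card : ℝ) ≤ 4 * (T : ℝ) ^ 2 * (K : ℝ) ^ 2 * R ^ 2 / ε ∧
      ex (fun x => (p x - av Hᶜ p x) ^ 2) ≤ ε := by
    intro ε hε
    rcases Nat.eq_zero_or_pos (T * K) with h0 | h0
    · -- no queries: the acceptance probability is constant
      refine ⟨∅, ?_, ?_⟩
      · rw [card_empty]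
        push_cast
        positivity
      · obtain ⟨H, h1, h2⟩ := junta (U := U) (q := q) S₀ Acc hS T hR (δ := 1) one_pos
        rcases Nat.mul_eq_zero.1 h0 with hT | hK
        · have hconst : ∀ x, av (∅ : Finset (Fin N))ᶜ p x = p x := by
            intro x
            have : ∀ x y, p x = p y := by
              intro x y
              rw [hp, hT]
              simp [accept, evo]
            unfold av
            have h3 : ∀ y, p (mix (∅ : Finset (Fin N))ᶜ y x) = p x := fun y => this _ _
            simp only [h3, ex_const]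
          simp only [hconst, sub_self]
          rw [zero_pow two_ne_zero, ex_const]
          exact hε.le
        · subst hK
          have hconst : ∀ x, av (∅ : Finset (Fin N))ᶜ p x = p x := by
            intro x
            have hev : ∀ x y : Fin N → Bool, ∀ t, evo U q x t = evo U q y t := by
              intro x y t
              induction t with
              | zero => rfl
              | succ t ih =>
                rw [evo, evo, ih]
                congr 2
            have : ∀ x y, p x = p y := by
              intro x y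
              rw [hp]
              unfold accept
              rw [hev x y T]
            unfold av
            have h3 : ∀ y, p (mix (∅ : Finset (Fin N))ᶜ y x) = p x := fun y => this _ _
            simp only [h3, ex_const]
          simp only [hconst, sub_self]
          rw [zero_pow two_ne_zero, ex_const]
          exact hε.le
    · have hT : (0 : ℝ) < T := by exact_mod_cast Nat.pos_of_mul_pos_left h0 |> fun h => (by
          rcases Nat.eq_zero_or_pos T with h1 | h1
          · rw [h1, zero_mul] at h0; exact absurd h0 (lt_irrefl _)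
          · exact h1 : 0 < T)
      have hK : (0 : ℝ) < K := by
        rcases Nat.eq_zero_or_pos K with h1 | h1
        · rw [h1, mul_zero] at h0; exact absurd h0 (lt_irrefl _)
        · exact_mod_cast h1
      obtain ⟨H, h1, h2⟩ := junta (U := U) (q := q) S₀ Acc hS T hR
        (δ := ε / (4 * T ^ 2 * (K * R))) (by positivity)
      refine ⟨H, h1.trans (le_of_eq ?_), h2.trans (le_of_eq ?_)⟩
      · field_simp
      · field_simp
  constructor
  · intro ε hε
    obtain ⟨H, h1, h2⟩ := key ε hε
    refine ⟨H, h1, av Hᶜ p, fun x y hxy => ?_, ?_⟩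
    · unfold av
      refine congrArg ex (funext fun z => congrArg p (funext fun k => ?_))
      simp only [mix, mem_compl]
      by_cases hk : k ∈ H
      · simp [hk, hxy k hk]
      · simp [hk]
    · rw [hex fun x => (p x - av Hᶜ p x) ^ 2]
      exact h2
  · intro E Var hE hV hpos
    rw [hex p] at hE
    rw [hex fun x => (p x - E) ^ 2] at hV
    obtain ⟨H, h1, h2⟩ := key (Var / 4) (by positivity)
    have h3 : ∃ x, Var / 4 ≤ (av Hᶜ p x - E) ^ 2 := by
      by_contra hcon
      push Not at hcon
      have h4 : Var ≤ 2 * ex (fun x => (p x - av Hᶜ p x) ^ 2) +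
          2 * ex (fun x => (av Hᶜ p x - E) ^ 2) := by
        rw [hV, ← ex_mul_left, ← ex_mul_left, ← ex_add]
        refine ex_mono fun x => ?_
        nlinarith [sq_nonneg ((p x - av Hᶜ p x) - (av Hᶜ p x - E))]
      have h5 : ex (fun x => (av Hᶜ p x - E) ^ 2) < Var / 4 := by
        have : ex (fun x => (av Hᶜ p x - E) ^ 2) < ex fun _ : Fin N → Bool => Var / 4 := by
          unfold ex
          refine div_lt_div_of_pos_right ?_ card_pos'
          exact sum_lt_sum_of_nonempty ⟨fun _ => false, mem_univ _⟩ fun x _ => hcon x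
        rwa [ex_const] at this
      linarith
    obtain ⟨x, hx⟩ := h3
    refine ⟨H, x, h1.trans (le_of_eq ?_), ?_⟩
    · field_simp
      ring
    · rw [mean_cell, ← Real.sqrt_sq_eq_abs]
      have h4 : √Var / 2 = √(Var / 4) := by
        rw [Real.sqrt_div hpos.le]
        congr 1
        rw [show (4 : ℝ) = 2 ^ 2 by norm_num, Real.sqrt_sq (by norm_num)]
      rw [h4]
      exact Real.sqrt_le_sqrt hx

end Pool.Agent.Results.MP_58d537_lc.FewCleanQubits
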