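import Pool.Agent.L5helper56.QF.Phase

/-!
# MP_58d537_lc: the bit-fixing statement for quantum algorithms which never return to a block

We consider quantum algorithms with an unbounded number `T` of adaptive phases. In every phase the
algorithm makes `K` parallel queries (in superposition) to the bits in a block which was not used
before on the current branch of the computation; an intermediate measurement may decide which block
comes next; the quantum memory is kept. We prove, with absolute polynomial bounds, the simulation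
statement and the bit-fixing statement of the problem.

Idea: a quantum form of the inequality of O'Donnell, Saks, Schramm and Servedio. The covariance of a
function `f` with the acceptance probability is estimated by first averaging `f` over the block of
the first phase, and then recursively over the blocks of the later phases. In each phase the
acceptance probability is, as a function of the bits in the block, nearly determined by the bits of
large query weight, and the query weights do not depend on the bits outside the blocks used before.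
-/

set_option autoImplicit false
set_option linter.unusedSectionVars false

open Finset Matrix

namespace Pool.Agent.Results.MP_58d537_lc.FreshBlocks

/-- The sign which a batch `q` of `K` parallel queries picks up when only the bits in the block `B`
may be queried: an entry `some i` with `i ∈ B` gives the sign `(-1) ^ (x i)`, all other entries are
unused queries. -/
noncomputable def sign {N K : ℕ} (B : Finset (Fin N)) (x : Fin N → Bool)
    (q : Fin K → Option (Fin N)) : ℂ :=
  ∏ k, (q k).elim (1 : ℂ) (fun i => if i ∈ B ∧ x i = true then -1 else 1)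

/-- Quantum algorithms with classical control. The basis states are pairs of a batch of `K` queries
and a state of the workspace. `stop Acc` measures and accepts if the result is in `Acc`;
`step B U V c out next` applies `U`, makes one batch of queries to the block `B`, applies `V`,
measures the value `j` of the function `out` of the basis state, and goes on with `next j`. -/
inductive Alg (N K m : ℕ) : Type
  | stop (Acc : Finset ((Fin K → Option (Fin N)) × Fin m)) : Alg N K m
  | step (B : Finset (Fin N))
      (U V : Matrix.unitaryGroup ((Fin K → Option (Fin N)) × Fin m) ℂ) (c : ℕ)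
      (out : (Fin K → Option (Fin N)) × Fin m → Fin c) (next : Fin c → Alg N K m) : Alg N K m

/-- The state after one batch of queries. -/
noncomputable def evolve {N K m : ℕ} (B : Finset (Fin N))
    (U V : Matrix.unitaryGroup ((Fin K → Option (Fin N)) × Fin m) ℂ) (x : Fin N → Bool)
    (v : (Fin K → Option (Fin N)) × Fin m → ℂ) : (Fin K → Option (Fin N)) × Fin m → ℂ :=
  V.1 *ᵥ fun s => sign B x s.1 * (U.1 *ᵥ v) s

/-- The (not normalized) acceptance probability, started in the state `v`. -/
noncomputable def Alg.accept {N K m : ℕ} : Alg N K m →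
    ((Fin K → Option (Fin N)) × Fin m → ℂ) → (Fin N → Bool) → ℝ
  | stop Acc, v, _ => ∑ s ∈ Acc, ‖v s‖ ^ 2
  | step B U V _ out next, v, x =>
      ∑ j, (next j).accept (fun s => if out s = j then evolve B U V x v s else 0) x

/-- The number of phases. -/
def Alg.depth {N K m : ℕ} : Alg N K m → ℕ
  | stop _ => 0
  | step _ _ _ _ _ next => (univ.sup fun j => (next j).depth) + 1

/-- On every branch the blocks are disjoint from each other and from `S`. -/
def Alg.Fresh {N K m : ℕ} : Alg N K m → Finset (Fin N) → Prop
  | stop _, _ => True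
  | step B _ _ _ _ next, S => Disjoint B S ∧ ∀ j, (next j).Fresh (S ∪ B)

/-- Classical decision trees on `N` bits with labels in `α` at the leaves. -/
inductive DTree (N : ℕ) (α : Type) : Type
  | leaf (v : α) : DTree N α
  | node (i : Fin N) (a b : DTree N α) : DTree N α

/-- The label of the leaf reached on the input `x`. -/
def DTree.eval {N : ℕ} {α : Type} : DTree N α → (Fin N → Bool) → α
  | leaf v, _ => v
  | node i a b, x => if x i then b.eval x else a.eval x

/-- The depth, that is the largest number of queried bits. -/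
def DTree.depth {N : ℕ} {α : Type} : DTree N α → ℕ
  | leaf _ => 0
  | node _ a b => max a.depth b.depth + 1

open L5helper56.QF
open L5helper42.AA (nsq ip wt nsq_nonneg ip_apply ip_self ip_mulVec nsq_unitary nsq_phase
  wt_nonneg wt_le sum_wt_le ip_sq_le flip_flip sum_flip nsq_unitary_conj)

/-! ### Signs -/

section signs

variable {N K m : ℕ}

/-- The bits queried by a basis state. -/
def QQ (s : (Fin K → Option (Fin N)) × Fin m) : Finset (Fin N) :=
  univ.biUnion fun k => (s.1 k).toFinset

lemma QQ_card (s : (Fin K → Option (Fin N)) × Fin m) : ((QQ s).card : ℝ) ≤ (K : ℝ) := by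
  have h : (QQ s).card ≤ K := by
    unfold QQ
    refine card_biUnion_le.trans ?_
    calc ∑ k : Fin K, (s.1 k).toFinset.card ≤ ∑ _k : Fin K, 1 := by
          refine sum_le_sum fun k _ => ?_
          cases s.1 k <;> simp
      _ = K := by simp
  exact_mod_cast h

lemma norm_sign (B : Finset (Fin N)) (x : Fin N → Bool) (q : Fin K → Option (Fin N)) :
    ‖sign B x q‖ = 1 := by
  unfold sign
  rw [norm_prod]
  refine prod_eq_one fun k _ => ?_
  cases q k with
  | none => simp
  | some i => simp only [Option.elim]; split_ifs <;> simp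

lemma sign_congr (B : Finset (Fin N)) (x y : Fin N → Bool)
    (s : (Fin K → Option (Fin N)) × Fin m) (h : ∀ i ∈ QQ s, i ∈ B → x i = y i) :
    sign B x s.1 = sign B y s.1 := by
  unfold sign
  refine prod_congr rfl fun k _ => ?_
  cases hs : s.1 k with
  | none => rfl
  | some i =>
    have hi : i ∈ QQ s := by
      unfold QQ
      rw [mem_biUnion]
      exact ⟨k, mem_univ k, by rw [hs]; simp⟩
    simp only [Option.elim]
    by_cases hB : i ∈ B
    · rw [h i hi hB]
    · simp [hB]

lemma evolve_congr (B : Finset (Fin N))
    (U V : Matrix.unitaryGroup ((Fin K → Option (Fin N)) × Fin m) ℂ) (x y : Fin N → Bool)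
    (v : (Fin K → Option (Fin N)) × Fin m → ℂ) (h : ∀ i ∈ B, x i = y i) :
    evolve B U V x v = evolve B U V y v := by
  unfold evolve
  congr 1
  funext s
  rw [sign_congr B x y s fun i _ hi => h i hi]

lemma nsq_evolve (B : Finset (Fin N))
    (U V : Matrix.unitaryGroup ((Fin K → Option (Fin N)) × Fin m) ℂ) (x : Fin N → Bool)
    (v : (Fin K → Option (Fin N)) × Fin m → ℂ) : nsq (evolve B U V x v) = nsq v := by
  unfold evolve
  rw [nsq_unitary, nsq_phase (p := fun s : (Fin K → Option (Fin N)) × Fin m => sign B x s.1)
    (fun s => norm_sign B x s.1), nsq_unitary]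

end signs

/-! ### Parts of a state -/

section parts

variable {ι : Type} [Fintype ι] [DecidableEq ι]

/-- The part of the state with a given value of `out`. -/
def part {c : ℕ} (out : ι → Fin c) (j : Fin c) (v : ι → ℂ) : ι → ℂ :=
  fun s => if out s = j then v s else 0

lemma sum_nsq_part {c : ℕ} (out : ι → Fin c) (v : ι → ℂ) : ∑ j, nsq (part out j v) = nsq v := by
  unfold nsq part
  rw [sum_comm]
  refine sum_congr rfl fun s _ => ?_
  rw [sum_eq_single (out s)]
  · simp
  · intro j _ hj
    rw [if_neg (fun h => hj h.symm)]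
    simp
  · intro h; exact absurd (mem_univ _) h

lemma part_sub {c : ℕ} (out : ι → Fin c) (j : Fin c) (v w : ι → ℂ) :
    part out j v - part out j w = part out j (v - w) := by
  funext s
  simp only [part, Pi.sub_apply]
  split_ifs <;> simp

/-- The block diagonal matrix made of compressions. -/
noncomputable def blk {c : ℕ} (out : ι → Fin c) (M : Fin c → Matrix ι ι ℂ) : Matrix ι ι ℂ :=
  fun s t => if out s = out t then M (out s) s t else 0

lemma blk_mulVec {c : ℕ} (out : ι → Fin c) (M : Fin c → Matrix ι ι ℂ) (v : ι → ℂ) (s : ι) :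
    (blk out M *ᵥ v) s = (M (out s) *ᵥ part out (out s) v) s := by
  simp only [mulVec, dotProduct, blk, part]
  refine sum_congr rfl fun t _ => ?_
  by_cases h : out s = out t
  · simp [h]
  · have : ¬ out t = out s := fun h' => h h'.symm
    simp [h, this]

lemma blk_HC {c : ℕ} (out : ι → Fin c) (M : Fin c → Matrix ι ι ℂ) (hM : ∀ j, HC (M j)) :
    HC (blk out M) := by
  constructor
  · ext s t
    rw [conjTranspose_apply]
    simp only [blk]
    by_cases h : out s = out t
    · have h1 := congrFun (congrFun (hM (out s)).1 s) t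
      rw [conjTranspose_apply] at h1
      rw [if_pos h.symm, if_pos h, ← h1, h]
    · have : ¬ out t = out s := fun h' => h h'.symm
      rw [if_neg h, if_neg this, star_zero]
  · intro v
    calc nsq (blk out M *ᵥ v) ≤ ∑ j, nsq (M j *ᵥ part out j v) := by
          unfold nsq
          rw [sum_comm]
          refine sum_le_sum fun s _ => ?_
          rw [blk_mulVec]
          exact single_le_sum (f := fun j => ‖(M j *ᵥ part out j v) s‖ ^ 2)
            (fun j _ => by positivity) (mem_univ (out s))
      _ ≤ ∑ j, nsq (part out j v) := sum_le_sum fun j _ => (hM j).2 _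
      _ = nsq v := sum_nsq_part out v

lemma ip_blk {c : ℕ} (out : ι → Fin c) (M : Fin c → Matrix ι ι ℂ) (v : ι → ℂ) :
    ip v (blk out M *ᵥ v) = ∑ j, ip (part out j v) (M j *ᵥ part out j v) := by
  simp only [ip_apply]
  rw [sum_comm]
  refine sum_congr rfl fun s _ => ?_
  rw [blk_mulVec, sum_eq_single (out s)]
  · simp [part]
  · intro j _ hj
    have : ¬ out s = j := fun h => hj h.symm
    simp [part, this]
  · intro h; exact absurd (mem_univ _) h

lemma HC_conj {M W : Matrix ι ι ℂ} (hM : HC M) (h1 : ∀ v : ι → ℂ, nsq (W *ᵥ v) = nsq v)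
    (h2 : ∀ v : ι → ℂ, nsq (Wᴴ *ᵥ v) = nsq v) : HC (Wᴴ * M * W) := by
  constructor
  · rw [conjTranspose_mul, conjTranspose_mul, conjTranspose_conjTranspose, hM.1, Matrix.mul_assoc]
  · intro v
    rw [← mulVec_mulVec, ← mulVec_mulVec, h2]
    exact (hM.2 _).trans (h1 v).le

lemma ip_conj_mat (M W : Matrix ι ι ℂ) (v : ι → ℂ) :
    ip v ((Wᴴ * M * W) *ᵥ v) = ip (W *ᵥ v) (M *ᵥ (W *ᵥ v)) := by
  rw [ip_mulVec, mulVec_mulVec, mulVec_mulVec, Matrix.mul_assoc]

end parts

/-! ### The acceptance probability as a quadratic form -/

section quad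

variable {N K m : ℕ}

lemma accept_step (B : Finset (Fin N))
    (U V : Matrix.unitaryGroup ((Fin K → Option (Fin N)) × Fin m) ℂ) (c : ℕ)
    (out : (Fin K → Option (Fin N)) × Fin m → Fin c) (next : Fin c → Alg N K m)
    (v : (Fin K → Option (Fin N)) × Fin m → ℂ) (x : Fin N → Bool) :
    (Alg.step B U V c out next).accept v x =
      ∑ j, (next j).accept (part out j (evolve B U V x v)) x := rfl

lemma accept_nonneg (A : Alg N K m) (v : (Fin K → Option (Fin N)) × Fin m → ℂ)
    (x : Fin N → Bool) : 0 ≤ A.accept v x := by
  induction A generalizing v with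
  | stop Acc => exact sum_nonneg fun s _ => by positivity
  | step B U V c out next ih =>
    rw [accept_step]
    exact sum_nonneg fun j _ => ih j _

lemma accept_congr (A : Alg N K m) (S : Finset (Fin N)) (hA : A.Fresh S)
    (v : (Fin K → Option (Fin N)) × Fin m → ℂ) (x y : Fin N → Bool)
    (h : ∀ i, i ∉ S → x i = y i) : A.accept v x = A.accept v y := by
  induction A generalizing v S with
  | stop Acc => rfl
  | step B U V c out next ih =>
    obtain ⟨hB, hn⟩ := hA
    rw [accept_step, accept_step]
    refine sum_congr rfl fun j _ => ?_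
    rw [evolve_congr B U V x y v fun i hi => h i (Finset.disjoint_left.1 hB hi)]
    exact ih j (S ∪ B) (hn j) _ fun i hi => h i fun h' => hi (mem_union_left _ h')

/-- Continuation after the batch of queries, for fixed values of the bits outside the block. -/
lemma exists_next_form {c : ℕ} (V : Matrix.unitaryGroup ((Fin K → Option (Fin N)) × Fin m) ℂ)
    (out : (Fin K → Option (Fin N)) × Fin m → Fin c) (next : Fin c → Alg N K m)
    (x : Fin N → Bool)
    (ih : ∀ j, ∃ M : Matrix ((Fin K → Option (Fin N)) × Fin m)
      ((Fin K → Option (Fin N)) × Fin m) ℂ, HC M ∧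
      ∀ v, (next j).accept v x = (ip v (M *ᵥ v)).re) :
    ∃ M : Matrix ((Fin K → Option (Fin N)) × Fin m) ((Fin K → Option (Fin N)) × Fin m) ℂ,
      HC M ∧ ∀ w, ∑ j, (next j).accept (part out j (V.1 *ᵥ w)) x = (ip w (M *ᵥ w)).re := by
  choose M hM hacc using ih
  refine ⟨(V.1)ᴴ * blk out M * V.1, HC_conj (blk_HC out M hM) (nsq_unitary V)
    (nsq_unitary_conj V), fun w => ?_⟩
  rw [ip_conj_mat, ip_blk, Complex.re_sum]
  exact sum_congr rfl fun j _ => hacc j _

lemma exists_form (A : Alg N K m) (x : Fin N → Bool) :
    ∃ M : Matrix ((Fin K → Option (Fin N)) × Fin m) ((Fin K → Option (Fin N)) × Fin m) ℂ,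
      HC M ∧ ∀ v, A.accept v x = (ip v (M *ᵥ v)).re := by
  induction A with
  | stop Acc =>
    refine ⟨Matrix.diagonal fun s => if s ∈ Acc then 1 else 0, ⟨?_, fun v => ?_⟩, fun v => ?_⟩
    · rw [diagonal_conjTranspose]
      congr 1
      funext s
      simp only [Pi.star_apply]
      split_ifs <;> simp
    · unfold nsq
      refine sum_le_sum fun s _ => ?_
      rw [mulVec_diagonal]
      split_ifs <;> simp
    · rw [Alg.accept, ip_apply, Complex.re_sum]
      rw [← sum_filter_add_sum_filter_not univ (fun s => s ∈ Acc)]
      have h1 : ∑ s ∈ univ.filter (fun s => ¬ s ∈ Acc),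
          (star (v s) * (Matrix.diagonal (fun s => if s ∈ Acc then (1 : ℂ) else 0) *ᵥ v) s).re =
          0 := by
        refine sum_eq_zero fun s hs => ?_
        rw [mulVec_diagonal, if_neg (mem_filter.1 hs).2]
        simp
      rw [h1, add_zero]
      have h2 : (univ.filter fun s => s ∈ Acc) = Acc := by ext s; simp
      rw [h2]
      refine sum_congr rfl fun s hs => ?_
      rw [mulVec_diagonal, if_pos hs, one_mul, Complex.star_def, ← Complex.normSq_eq_conj_mul_self,
        Complex.normSq_eq_norm_sq]
      norm_cast
  | step B U V c out next ih =>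
    obtain ⟨M, hM, hacc⟩ := exists_next_form V out next x ih
    set Φ : Matrix ((Fin K → Option (Fin N)) × Fin m) ((Fin K → Option (Fin N)) × Fin m) ℂ :=
      Matrix.diagonal fun s => sign B x s.1 with hΦ
    have hΦ1 : ∀ v, nsq (Φ *ᵥ v) = nsq v := by
      intro v
      unfold nsq
      refine sum_congr rfl fun s _ => ?_
      rw [hΦ, mulVec_diagonal, norm_mul, norm_sign, one_mul]
    have hΦ2 : ∀ v, nsq (Φᴴ *ᵥ v) = nsq v := by
      intro v
      unfold nsq
      refine sum_congr rfl fun s _ => ?_
      rw [hΦ, diagonal_conjTranspose, mulVec_diagonal, norm_mul, Pi.star_apply, norm_star,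
        norm_sign, one_mul]
    refine ⟨(U.1)ᴴ * (Φᴴ * M * Φ) * U.1, HC_conj (HC_conj hM hΦ1 hΦ2) (nsq_unitary U)
      (nsq_unitary_conj U), fun v => ?_⟩
    rw [ip_conj_mat, ip_conj_mat, ← hacc, accept_step]
    have h : Φ *ᵥ (U.1 *ᵥ v) = fun s => sign B x s.1 * (U.1 *ᵥ v) s := by
      funext s
      rw [hΦ, mulVec_diagonal]
    rw [h]
    rfl

end quad

/-! ### The covariance inequality -/

section covariance

variable {N K m : ℕ}

lemma cov_sum {J : Type*} (s : Finset J) (f : (Fin N → Bool) → ℝ)
    (g : J → (Fin N → Bool) → ℝ) : cov f (fun x => ∑ j ∈ s, g j x) = ∑ j ∈ s, cov f (g j) := by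
  unfold cov
  rw [ex_sum, mul_sum, sum_sub_distrib]
  congr 1
  rw [← ex_sum]
  refine congrArg ex (funext fun x => ?_)
  rw [mul_sum]

lemma mix_congr (B : Finset (Fin N)) (z x y : Fin N → Bool) (i : Fin N) (h : x i = y i) :
    mix B z x i = mix B z y i := by
  simp only [mix, h]

/-- **Quantum OSSS inequality.** -/
lemma osss (R : Finset (Fin N)) (a : Fin N → Bool) (hK : 0 < K) {η τ : ℝ} (hη : 0 < η)
    (hτ : 0 ≤ τ) (A : Alg N K m) : ∀ (S : Finset (Fin N)), A.Fresh S →
    ∀ (v : (Fin K → Option (Fin N)) × Fin m → ℂ) (f : (Fin N → Bool) → ℝ),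
    (∀ x, 0 ≤ f x) → (∀ x, f x ≤ 1) → (∀ i, inf1 i f ≤ τ) →
    |cov f (fun x => A.accept v (mix R a x))| ≤
      A.depth * (((K : ℝ) ^ 2 / η ^ 2) * τ + 2 * η) * nsq v := by
  have hK' : (0 : ℝ) < K := by exact_mod_cast hK
  set κ : ℝ := ((K : ℝ) ^ 2 / η ^ 2) * τ + 2 * η with hκ
  have hκ0 : 0 ≤ κ := by positivity
  induction A with
  | stop Acc =>
    intro S _ v f _ _ _
    have : cov f (fun x => (Alg.stop Acc : Alg N K m).accept v (mix R a x)) = 0 := by
      unfold cov
      simp only [Alg.accept]
      rw [ex_mul_right, ex_const]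
      ring
    rw [this]
    simp [Alg.depth]
  | step B U V c out next ih =>
    intro S hA v f hf0 hf1 hf
    obtain ⟨hB, hn⟩ := hA
    -- the phase, and the rest
    set ph : (Fin N → Bool) → (Fin K → Option (Fin N)) × Fin m → ℂ :=
      fun z s => sign B (mix R a z) s.1 with hph
    set u : (Fin K → Option (Fin N)) × Fin m → ℂ := U.1 *ᵥ v with hu
    have hnu : nsq u = nsq v := nsq_unitary U v
    set w : (Fin N → Bool) → (Fin K → Option (Fin N)) × Fin m → ℂ :=
      fun z => V.1 *ᵥ qst ph u z with hw
    have hwe : ∀ z, evolve B U V (mix R a z) v = w z := fun z => rfl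
    set q : (Fin N → Bool) → (Fin N → Bool) → ℝ :=
      fun z x => ∑ j, (next j).accept (part out j (w z)) (mix R a x) with hq
    have hP : (fun x => (Alg.step B U V c out next).accept v (mix R a x)) = fun x => q x x := by
      funext x
      rw [accept_step]
      rfl
    have hw1 : ∀ z y, w (mix B z y) = w z := by
      intro z y
      rw [← hwe, ← hwe]
      refine evolve_congr B U V _ _ v fun i hi => ?_
      refine mix_congr R a _ _ i ?_
      simp [mix, hi]
    have hq1 : ∀ z y x, q (mix B z y) x = q z x := by
      intro z y x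
      simp only [hq, hw1]
    have hq2 : ∀ z y x, q z (mix B y x) = q z x := by
      intro z y x
      simp only [hq]
      refine sum_congr rfl fun j _ => ?_
      refine accept_congr (next j) (S ∪ B) (hn j) _ _ _ fun i hi => ?_
      refine mix_congr R a _ _ i ?_
      have : i ∉ B := fun h => hi (mem_union_right _ h)
      simp [mix, this]
    have hqf : ∀ x, ∃ M : Matrix ((Fin K → Option (Fin N)) × Fin m)
        ((Fin K → Option (Fin N)) × Fin m) ℂ, HC M ∧
        (∀ φ, ∑ j, (next j).accept (part out j (V.1 *ᵥ φ)) (mix R a x) =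
          (ip φ (M *ᵥ φ)).re) :=
      fun x => exists_next_form V out next (mix R a x) fun j => exists_form (next j) _
    -- decomposition
    set fb := av B f with hfb
    have e1 : ex (fun x => f x * q x x) = ex fun x => ex fun z => f (mix B z x) * q z x := by
      have h := ex_diag B (fun z x => f (mix B z x) * q z x)
        (fun z y x => by
          have : mix B (mix B z y) x = mix B z x := by
            funext i; simp only [mix]; split_ifs <;> rfl
          rw [this, hq1])
        (fun z y x => by
          have : mix B z (mix B y x) = mix B z x := mix_mix_self B z y x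
          rw [this, hq2])
      rw [ex_comm] at h
      rw [← h]
      refine congrArg ex (funext fun x => ?_)
      simp only [mix_self]
    have e2 : ex (fun x => fb x * q x x) = ex fun z => ex fun x => fb x * q z x :=
      ex_diag B (fun z x => fb x * q z x) (fun z y x => by rw [hq1])
        (fun z y x => by rw [hq2, hfb, av_mix])
    have e3 : ex (fun x => q x x) = ex fun z => ex fun x => q z x :=
      ex_diag B q hq1 hq2
    have hd : cov f (fun x => q x x) =
        ex (fun x => cov (fun z => f (mix B z x)) (fun z => q z x)) +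
          ex (fun z => cov fb (fun x => q z x)) := by
      have h1 : ex (fun x => cov (fun z => f (mix B z x)) (fun z => q z x)) =
          ex (fun x => f x * q x x) - ex fun x => fb x * q x x := by
        rw [e1, e2, ex_comm (fun z x => fb x * q z x), ← ex_sub]
        refine congrArg ex (funext fun x => ?_)
        unfold cov
        rw [ex_mul_left]
        rfl
      have h2 : ex (fun z => cov fb (fun x => q z x)) =
          ex (fun x => fb x * q x x) - ex f * ex fun x => q x x := by
        rw [e2, e3, ← ex_mul_left, ← ex_sub]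
        refine congrArg ex (funext fun z => ?_)
        unfold cov
        rw [hfb, ex_av]
      rw [h1, h2, cov]
      ring
    rw [hP, hd]
    -- the first part
    have hloc : ∀ (j : Fin N) (x : Fin N → Bool) (s : (Fin K → Option (Fin N)) × Fin m),
        j ∉ QQ s → ph (L5helper42.AA.flip j x) s = ph x s := by
      intro j x s hj
      refine sign_congr B _ _ s fun i hi _ => ?_
      refine mix_congr R a _ _ i ?_
      refine L5helper42.AA.flip_apply_ne ?_ x
      rintro rfl
      exact hj hi
    have hnorm : ∀ x s, ‖ph x s‖ = 1 := fun x s => norm_sign B _ _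
    set H : Finset (Fin N) := heavy (QQ (K := K) (m := m)) u (η ^ 2 / K) with hH
    have p1 : |ex (fun x => cov (fun z => f (mix B z x)) (fun z => q z x))| ≤ κ * nsq v := by
      refine (abs_ex_le _).trans ?_
      have h1 : ∀ x, |cov (fun z => f (mix B z x)) (fun z => q z x)| ≤
          nsq u * (∑ i ∈ H, inf1 i (fun z => f (mix B z x))) + 2 * η * nsq u := by
        intro x
        obtain ⟨M, hM, hMq⟩ := hqf x
        have hqx : (fun z => q z x) = fun z => (ip (qst ph u z) (M *ᵥ qst ph u z)).re := by
          funext z
          rw [← hMq]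
        rw [hqx]
        refine phase_cov hnorm hloc QQ_card hK' hM (fun φ => ?_) u hη _ (fun z => hf0 _)
          (fun z => hf1 _)
        rw [← hMq]
        exact sum_nonneg fun j _ => accept_nonneg _ _ _
      refine (ex_mono h1).trans ?_
      rw [ex_add, ex_mul_left, ex_const, ex_sum]
      have h2 : ∀ i ∈ H, ex (fun x => inf1 i (fun z => f (mix B z x))) ≤ τ := by
        intro i _
        by_cases hi : i ∈ B
        · have h3 : ∀ x z, f (mix B z x) - av {i} (fun z => f (mix B z x)) z =
              (fun y => f y - av {i} f y) (mix B z x) := by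
            intro x z
            simp only
            congr 1
            unfold av
            refine congrArg ex (funext fun y => congrArg f (funext fun k => ?_))
            simp only [mix, mem_singleton]
            by_cases hk : k = i
            · subst hk; simp [hi]
            · simp [hk]
          unfold inf1
          simp only [h3]
          rw [ex_mix' B fun y => |f y - av {i} f y|]
          exact hf i
        · have h3 : ∀ x z, f (mix B z x) - av {i} (fun z => f (mix B z x)) z = 0 := by
            intro x z
            have : av {i} (fun z => f (mix B z x)) z = f (mix B z x) := by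
              unfold av
              have h4 : ∀ y, f (mix B (mix {i} y z) x) = f (mix B z x) := by
                intro y
                refine congrArg f (funext fun k => ?_)
                simp only [mix, mem_singleton]
                by_cases hk : k = i
                · subst hk; simp [hi]
                · simp [hk]
              simp only [h4, ex_const]
            rw [this, sub_self]
          unfold inf1
          simp only [h3, abs_zero, ex_const]
          exact hτ
      have h5 : nsq u * ((H.card : ℝ)) ≤ nsq u * ((K : ℝ) / (η ^ 2 / K)) :=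
        heavy_card QQ_card hK'.le u (by positivity)
      calc nsq u * ∑ i ∈ H, ex (fun x => inf1 i (fun z => f (mix B z x))) + 2 * η * nsq u
          ≤ nsq u * ∑ _i ∈ H, τ + 2 * η * nsq u :=
            add_le_add (mul_le_mul_of_nonneg_left (sum_le_sum h2) (nsq_nonneg u)) le_rfl
        _ = (nsq u * (H.card : ℝ)) * τ + 2 * η * nsq u := by
            rw [sum_const, nsmul_eq_mul]; ring
        _ ≤ (nsq u * ((K : ℝ) / (η ^ 2 / K))) * τ + 2 * η * nsq u :=
            add_le_add (mul_le_mul_of_nonneg_right h5 hτ) le_rfl
        _ = κ * nsq v := by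
            rw [hnu, hκ]
            field_simp
    -- the second part
    have p2 : |ex (fun z => cov fb (fun x => q z x))| ≤
        (univ.sup fun j => (next j).depth : ℕ) * κ * nsq v := by
      refine (abs_ex_le _).trans (ex_le_of_le fun z => ?_)
      have h1 : cov fb (fun x => q z x) =
          ∑ j, cov fb (fun x => (next j).accept (part out j (w z)) (mix R a x)) :=
        cov_sum univ fb _
      rw [h1]
      refine (abs_sum_le_sum_abs _ _).trans ?_
      have h2 : ∀ j ∈ (univ : Finset (Fin c)),
          |cov fb (fun x => (next j).accept (part out j (w z)) (mix R a x))| ≤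
          (univ.sup fun j => (next j).depth : ℕ) * κ * nsq (part out j (w z)) := by
        intro j _
        refine (ih j (S ∪ B) (hn j) (part out j (w z)) fb (fun x => av_nonneg hf0 x)
          (fun x => av_le hf1 x) (fun i => (inf1_av i B f).trans (hf i))).trans ?_
        refine mul_le_mul_of_nonneg_right (mul_le_mul_of_nonneg_right ?_ hκ0) (nsq_nonneg _)
        have : (next j).depth ≤ univ.sup fun j => (next j).depth :=
          le_sup (f := fun j => (next j).depth) (mem_univ j)
        exact_mod_cast this
      refine (sum_le_sum h2).trans (le_of_eq ?_)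
      rw [← mul_sum, sum_nsq_part]
      congr 1
      rw [← hwe, nsq_evolve]
    refine (abs_add_le _ _).trans ?_
    rw [Alg.depth]
    push_cast
    calc _ ≤ κ * nsq v + (univ.sup fun j => (next j).depth : ℕ) * κ * nsq v := add_le_add p1 p2
      _ = _ := by ring

end covariance

/-! ### The total influence -/

section total

variable {N K m : ℕ}

/-- Sum over the leaves of the squared distance of the final states. -/
noncomputable def dist : Alg N K m → ((Fin K → Option (Fin N)) × Fin m → ℂ) →
    ((Fin K → Option (Fin N)) × Fin m → ℂ) → (Fin N → Bool) → (Fin N → Bool) → ℝ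
  | .stop _, v, v', _, _ => nsq (v - v')
  | .step B U V _ out next, v, v', x, x' =>
      ∑ j, dist (next j) (part out j (evolve B U V x v)) (part out j (evolve B U V x' v')) x x'

lemma accept_dist {t : ℝ} (ht : 0 < t) (A : Alg N K m) :
    ∀ (v v' : (Fin K → Option (Fin N)) × Fin m → ℂ) (x x' : Fin N → Bool),
    |A.accept v x - A.accept v' x'| ≤ (1 / (2 * t)) * dist A v v' x x' + t * (nsq v + nsq v') := by
  induction A with
  | stop Acc =>
    intro v v' x x'
    simp only [Alg.accept, dist]
    rw [← sum_sub_distrib]
    refine (abs_sum_le_sum_abs _ _).trans ?_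
    have h1 : ∀ s, |‖v s‖ ^ 2 - ‖v' s‖ ^ 2| ≤
        (1 / (2 * t)) * ‖(v - v') s‖ ^ 2 + t * (‖v s‖ ^ 2 + ‖v' s‖ ^ 2) := by
      intro s
      have h2 : |‖v s‖ ^ 2 - ‖v' s‖ ^ 2| = |‖v s‖ - ‖v' s‖| * (‖v s‖ + ‖v' s‖) := by
        rw [sq_sub_sq, abs_mul, abs_of_nonneg (add_nonneg (norm_nonneg _) (norm_nonneg _)),
          mul_comm]
      have h3 : |‖v s‖ - ‖v' s‖| ≤ ‖(v - v') s‖ := abs_norm_sub_norm_le _ _
      set d := ‖(v - v') s‖
      set p := ‖v s‖
      set r := ‖v' s‖
      have hp : 0 ≤ p := norm_nonneg _
      have hr : 0 ≤ r := norm_nonneg _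
      have hd : 0 ≤ d := norm_nonneg _
      rw [h2]
      have h4 : |p - r| * (p + r) ≤ d * (p + r) := mul_le_mul_of_nonneg_right h3 (by linarith)
      have h5 : d * (p + r) ≤ (1 / (2 * t)) * d ^ 2 + (t / 2) * (p + r) ^ 2 := by
        have : 0 ≤ (d - t * (p + r)) ^ 2 / (2 * t) := by positivity
        have h6 : (d - t * (p + r)) ^ 2 / (2 * t) =
            (1 / (2 * t)) * d ^ 2 + (t / 2) * (p + r) ^ 2 - d * (p + r) := by
          field_simp
          ring
        linarith
      have h7 : (t / 2) * (p + r) ^ 2 ≤ t * (p ^ 2 + r ^ 2) := by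
        have : (p + r) ^ 2 ≤ 2 * (p ^ 2 + r ^ 2) := by nlinarith [sq_nonneg (p - r)]
        nlinarith
      linarith
    calc ∑ s ∈ Acc, |‖v s‖ ^ 2 - ‖v' s‖ ^ 2|
        ≤ ∑ s, |‖v s‖ ^ 2 - ‖v' s‖ ^ 2| :=
          sum_le_sum_of_subset_of_nonneg (subset_univ _) fun s _ _ => abs_nonneg _
      _ ≤ ∑ s, ((1 / (2 * t)) * ‖(v - v') s‖ ^ 2 + t * (‖v s‖ ^ 2 + ‖v' s‖ ^ 2)) :=
          sum_le_sum fun s _ => h1 s
      _ = _ := by
          unfold nsq
          rw [sum_add_distrib, ← mul_sum, ← mul_sum, sum_add_distrib]
  | step B U V c out next ih =>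
    intro v v' x x'
    rw [accept_step, accept_step, ← sum_sub_distrib]
    refine (abs_sum_le_sum_abs _ _).trans ((sum_le_sum fun j _ => ih j _ _ x x').trans ?_)
    rw [sum_add_distrib, ← mul_sum, ← mul_sum, sum_add_distrib, sum_nsq_part, sum_nsq_part,
      nsq_evolve, nsq_evolve]
    rfl

lemma evolve_sub (B : Finset (Fin N))
    (U V : Matrix.unitaryGroup ((Fin K → Option (Fin N)) × Fin m) ℂ) (x : Fin N → Bool)
    (v v' : (Fin K → Option (Fin N)) × Fin m → ℂ) :
    evolve B U V x v - evolve B U V x v' = evolve B U V x (v - v') := by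
  unfold evolve
  rw [← mulVec_sub]
  congr 1
  funext s
  simp only [Pi.sub_apply, mulVec_sub]
  ring

lemma dist_same (A : Alg N K m) : ∀ (v v' : (Fin K → Option (Fin N)) × Fin m → ℂ)
    (x : Fin N → Bool), dist A v v' x x = nsq (v - v') := by
  induction A with
  | stop Acc => intro v v' x; rfl
  | step B U V c out next ih =>
    intro v v' x
    rw [dist, sum_congr rfl fun j _ => ih j _ _ x]
    simp only [part_sub, sum_nsq_part]
    rw [evolve_sub, nsq_evolve]

lemma dist_congr (A : Alg N K m) : ∀ (S : Finset (Fin N)), A.Fresh S →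
    ∀ (v v' : (Fin K → Option (Fin N)) × Fin m → ℂ) (x x' y' : Fin N → Bool),
    (∀ i, i ∉ S → x' i = y' i) → dist A v v' x x' = dist A v v' x y' := by
  induction A with
  | stop Acc => intro S _ v v' x x' y' _; rfl
  | step B U V c out next ih =>
    intro S hA v v' x x' y' h
    obtain ⟨hB, hn⟩ := hA
    rw [dist, dist, evolve_congr B U V x' y' v' fun i hi => h i (Finset.disjoint_left.1 hB hi)]
    exact sum_congr rfl fun j _ => ih j (S ∪ B) (hn j) _ _ x x' y' fun i hi =>
      h i fun h' => hi (mem_union_left _ h')

lemma sum_dist (A : Alg N K m) : ∀ (S : Finset (Fin N)), A.Fresh S →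
    ∀ (v : (Fin K → Option (Fin N)) × Fin m → ℂ) (x : Fin N → Bool),
    ∑ i ∈ Sᶜ, dist A v v x (L5helper42.AA.flip i x) ≤ 4 * K * A.depth * nsq v := by
  induction A with
  | stop Acc =>
    intro S _ v x
    simp only [dist, sub_self, Alg.depth]
    have : nsq (0 : (Fin K → Option (Fin N)) × Fin m → ℂ) = 0 := by simp [nsq]
    rw [this]
    simp
  | step B U V c out next ih =>
    intro S hA v x
    obtain ⟨hB, hn⟩ := hA
    set u : (Fin K → Option (Fin N)) × Fin m → ℂ := U.1 *ᵥ v with hu
    set D : ℕ := univ.sup fun j => (next j).depth with hD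
    have hsplit : Sᶜ = B ∪ (S ∪ B)ᶜ := by
      ext i
      simp only [mem_union, mem_compl]
      have h0 : i ∈ B → i ∉ S := fun h => Finset.disjoint_left.1 hB h
      tauto
    have hdis : Disjoint B (S ∪ B)ᶜ := by
      rw [Finset.disjoint_left]
      intro i hi h
      rw [mem_compl] at h
      exact h (mem_union_right _ hi)
    rw [hsplit, sum_union hdis]
    have h1 : ∀ i ∈ B, dist (Alg.step B U V c out next) v v x (L5helper42.AA.flip i x) ≤
        4 * wt (QQ (K := K) (m := m)) i u := by
      intro i hi
      rw [dist]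
      have h2 : ∀ j ∈ (univ : Finset (Fin c)),
          dist (next j) (part out j (evolve B U V x v))
            (part out j (evolve B U V (L5helper42.AA.flip i x) v)) x
            (L5helper42.AA.flip i x) =
          nsq (part out j (evolve B U V x v - evolve B U V (L5helper42.AA.flip i x) v)) := by
        intro j _
        rw [dist_congr (next j) (S ∪ B) (hn j) _ _ x (L5helper42.AA.flip i x) x ?_, dist_same,
          part_sub]
        intro k hk
        refine L5helper42.AA.flip_apply_ne ?_ x
        rintro rfl
        exact hk (mem_union_right _ hi)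
      rw [sum_congr rfl h2, sum_nsq_part]
      have h3 : evolve B U V x v - evolve B U V (L5helper42.AA.flip i x) v =
          V.1 *ᵥ (qst (fun x s => sign B x s.1) u x -
            qst (fun x s => sign B x s.1) u (L5helper42.AA.flip i x)) := by
        rw [mulVec_sub]
        rfl
      rw [h3, nsq_unitary]
      refine nsq_qst_diff (Q := QQ) (fun x s => norm_sign B x s.1) ?_ u x i
      intro j x s hj
      refine sign_congr B _ _ s fun k hk _ => ?_
      refine L5helper42.AA.flip_apply_ne ?_ x
      rintro rfl
      exact hj hk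
    have h2 : ∑ i ∈ B, dist (Alg.step B U V c out next) v v x (L5helper42.AA.flip i x) ≤
        4 * K * nsq v := by
      refine (sum_le_sum h1).trans ?_
      rw [← mul_sum, mul_assoc]
      refine mul_le_mul_of_nonneg_left ?_ (by norm_num)
      refine (sum_le_sum_of_subset_of_nonneg (subset_univ _) fun j _ _ => wt_nonneg _ _ _).trans ?_
      refine (sum_wt_le QQ QQ_card u).trans ?_
      rw [hu, nsq_unitary]
    have h3 : ∑ i ∈ (S ∪ B)ᶜ, dist (Alg.step B U V c out next) v v x
        (L5helper42.AA.flip i x) ≤ 4 * K * D * nsq v := by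
      have h4 : ∀ i ∈ (S ∪ B)ᶜ, dist (Alg.step B U V c out next) v v x
          (L5helper42.AA.flip i x) = ∑ j, dist (next j) (part out j (evolve B U V x v))
            (part out j (evolve B U V x v)) x (L5helper42.AA.flip i x) := by
        intro i hi
        rw [dist]
        rw [evolve_congr B U V (L5helper42.AA.flip i x) x v fun k hk => ?_]
        refine L5helper42.AA.flip_apply_ne ?_ x
        rintro rfl
        rw [mem_compl] at hi
        exact hi (mem_union_right _ hk)
      rw [sum_congr rfl h4, sum_comm]
      have h5 : ∀ j ∈ (univ : Finset (Fin c)),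
          ∑ i ∈ (S ∪ B)ᶜ, dist (next j) (part out j (evolve B U V x v))
            (part out j (evolve B U V x v)) x (L5helper42.AA.flip i x) ≤
          4 * K * D * nsq (part out j (evolve B U V x v)) := by
        intro j _
        refine (ih j (S ∪ B) (hn j) _ x).trans ?_
        refine mul_le_mul_of_nonneg_right ?_ (nsq_nonneg _)
        have : (next j).depth ≤ D := le_sup (f := fun j => (next j).depth) (mem_univ j)
        have : ((next j).depth : ℝ) ≤ D := by exact_mod_cast this
        have hK0 : (0 : ℝ) ≤ 4 * K := by positivity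
        exact mul_le_mul_of_nonneg_left this hK0
      refine (sum_le_sum h5).trans (le_of_eq ?_)
      rw [← mul_sum, sum_nsq_part, nsq_evolve]
    rw [Alg.depth]
    push_cast
    calc _ ≤ 4 * K * nsq v + 4 * K * D * nsq v := add_le_add h2 h3
      _ = _ := by rw [hD]; ring

lemma total_influence (A : Alg N K m) (hA : A.Fresh ∅)
    (v : (Fin K → Option (Fin N)) × Fin m → ℂ) (hv : nsq v = 1) :
    ∑ i, inf2 i (A.accept v) ≤ 4 * K * A.depth := by
  have h1 : ∀ i ∈ (univ : Finset (Fin N)), inf2 i (A.accept v) ≤
      ex fun x => dist A v v x (L5helper42.AA.flip i x) := by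
    intro i _
    rw [inf2_eq, ← ex_mul_left]
    refine ex_mono fun x => ?_
    set Δ := A.accept v x - A.accept v (L5helper42.AA.flip i x) with hΔ
    set d := dist A v v x (L5helper42.AA.flip i x) with hd
    have h2 : ∀ t : ℝ, 0 < t → |Δ| ≤ (1 / (2 * t)) * d + t * 2 := by
      intro t ht
      have := accept_dist ht A v v x (L5helper42.AA.flip i x)
      rw [hv] at this
      norm_num at this ⊢
      exact this
    rcases eq_or_ne Δ 0 with h0 | h0
    · rw [h0]
      have h3 : 0 ≤ d := by
        have := h2 1 one_pos
        rw [h0] at this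
        have h4 : ∀ (A : Alg N K m) (v v' : (Fin K → Option (Fin N)) × Fin m → ℂ)
            (x x' : Fin N → Bool), 0 ≤ dist A v v' x x' := by
          intro A
          induction A with
          | stop Acc => intro v v' x x'; exact nsq_nonneg _
          | step B U V c out next ih =>
            intro v v' x x'
            rw [dist]
            exact sum_nonneg fun j _ => ih j _ _ x x'
        exact h4 A v v x _
      simpa using h3
    · have hpos : 0 < |Δ| := abs_pos.2 h0
      have h3 := h2 (|Δ| / 4) (by positivity)
      have h4 : 1 / (2 * (|Δ| / 4)) * d = 2 * d / |Δ| := by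
        field_simp
        ring
      rw [h4] at h3
      have h5 : |Δ| / 2 ≤ 2 * d / |Δ| := by linarith
      rw [le_div_iff₀ hpos] at h5
      have h6 : Δ ^ 2 = |Δ| * |Δ| := by rw [← sq, sq_abs]
      nlinarith
  refine (sum_le_sum h1).trans ?_
  rw [← ex_sum]
  refine ex_le_of_le fun x => ?_
  have := sum_dist A ∅ hA v x
  rw [compl_empty, hv, mul_one] at this
  exact this

end total

/-! ### The decision tree -/

section tree

variable {N : ℕ}

/-- The restriction of `P` to the subcube given by the values of `a` on `S`. -/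
def res (P : (Fin N → Bool) → ℝ) (S : Finset (Fin N)) (a x : Fin N → Bool) : ℝ := P (mix S a x)

/-- Variance. -/
noncomputable def var (g : (Fin N → Bool) → ℝ) : ℝ := ex fun x => (g x - ex g) ^ 2

lemma ex_split (i : Fin N) (G : (Fin N → Bool) → ℝ) :
    ex G = (ex (fun x => G (Function.update x i false)) +
      ex (fun x => G (Function.update x i true))) / 2 := by
  have h1 : ex (fun x => G x + G (L5helper42.AA.flip i x)) = 2 * ex G := by
    rw [ex_add]
    have : ex (fun x => G (L5helper42.AA.flip i x)) = ex G := by
      unfold ex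
      rw [sum_flip i G]
    rw [this]
    ring
  have h2 : ∀ x, G x + G (L5helper42.AA.flip i x) =
      G (Function.update x i false) + G (Function.update x i true) := by
    intro x
    unfold L5helper42.AA.flip
    cases h : x i
    · have : Function.update x i false = x := by
        rw [← h, Function.update_eq_self]
      rw [this]
      rfl
    · have : Function.update x i true = x := by
        rw [← h, Function.update_eq_self]
      rw [this, add_comm]
      rfl
  simp only [h2, ex_add] at h1
  linarith

lemma res_update {P : (Fin N → Bool) → ℝ} {S : Finset (Fin N)} {i : Fin N} (hi : i ∉ S)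
    (a x : Fin N → Bool) (b : Bool) :
    res P S a (Function.update x i b) = res P (insert i S) (Function.update a i b) x := by
  unfold res
  refine congrArg P (funext fun k => ?_)
  simp only [mix, mem_insert]
  by_cases hk : k = i
  · subst hk; simp [hi]
  · simp [hk]

lemma res_indep {P : (Fin N → Bool) → ℝ} {S : Finset (Fin N)} (a x y : Fin N → Bool)
    (h : ∀ i, i ∉ S → x i = y i) : res P S a x = res P S a y := by
  unfold res
  refine congrArg P (funext fun k => ?_)
  simp only [mix]
  by_cases hk : k ∈ S
  · simp [hk]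
  · simp [hk, h k hk]

lemma av_res_of_mem {P : (Fin N → Bool) → ℝ} {S : Finset (Fin N)} {i : Fin N} (hi : i ∈ S)
    (a x : Fin N → Bool) : av {i} (res P S a) x = res P S a x := by
  unfold av
  have : ∀ y, res P S a (mix {i} y x) = res P S a x := by
    intro y
    refine res_indep a _ _ fun k hk => ?_
    have : k ≠ i := by rintro rfl; exact hk hi
    simp [mix, this]
  simp only [this, ex_const]

lemma inf2_of_mem {P : (Fin N → Bool) → ℝ} {S : Finset (Fin N)} {i : Fin N} (hi : i ∈ S)
    (a : Fin N → Bool) : inf2 i (res P S a) = 0 := by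
  unfold inf2
  simp only [av_res_of_mem hi, sub_self]
  rw [zero_pow two_ne_zero, ex_const]

lemma inf1_of_mem {P : (Fin N → Bool) → ℝ} {S : Finset (Fin N)} {i : Fin N} (hi : i ∈ S)
    (a : Fin N → Bool) : inf1 i (res P S a) = 0 := by
  unfold inf1
  simp only [av_res_of_mem hi, sub_self, abs_zero, ex_const]

/-- Total influence. -/
noncomputable def tot (g : (Fin N → Bool) → ℝ) : ℝ := ∑ i, inf2 i g

lemma tot_nonneg (g : (Fin N → Bool) → ℝ) : 0 ≤ tot g := sum_nonneg fun i _ => inf2_nonneg i g

lemma tot_split {P : (Fin N → Bool) → ℝ} {S : Finset (Fin N)} {i : Fin N} (hi : i ∉ S)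
    (a : Fin N → Bool) :
    tot (res P S a) = inf2 i (res P S a) +
      (tot (res P (insert i S) (Function.update a i false)) +
        tot (res P (insert i S) (Function.update a i true))) / 2 := by
  unfold tot
  rw [← add_sum_erase univ (fun j => inf2 j (res P S a)) (mem_univ i),
    ← add_sum_erase univ (fun j => inf2 j (res P (insert i S) (Function.update a i false)))
      (mem_univ i),
    ← add_sum_erase univ (fun j => inf2 j (res P (insert i S) (Function.update a i true)))
      (mem_univ i), inf2_of_mem (mem_insert_self i S), inf2_of_mem (mem_insert_self i S),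
    zero_add, zero_add, ← sum_add_distrib, sum_div]
  congr 1
  refine sum_congr rfl fun j hj => ?_
  have hji : j ≠ i := (mem_erase.1 hj).1
  unfold inf2
  rw [ex_split i]
  have h : ∀ b : Bool, ∀ x, (res P S a (Function.update x i b) -
      av {j} (res P S a) (Function.update x i b)) ^ 2 =
      (res P (insert i S) (Function.update a i b) x -
        av {j} (res P (insert i S) (Function.update a i b)) x) ^ 2 := by
    intro b x
    rw [res_update hi]
    congr 2
    unfold av
    refine congrArg ex (funext fun y => ?_)
    rw [← res_update hi]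
    refine congrArg (res P S a) (funext fun k => ?_)
    simp only [mix, mem_singleton]
    by_cases hk : k = i
    · subst hk
      have : ¬ k = j := fun h => hji h.symm
      simp [this]
    · simp only [Function.update_of_ne hk, mix, mem_singleton]
  simp only [h]

lemma sq_inf1_le (i : Fin N) (g : (Fin N → Bool) → ℝ) : inf1 i g ^ 2 ≤ inf2 i g := by
  have h := cs (fun x => |g x - av {i} g x|) (fun _ : Fin N → Bool => (1 : ℝ))
  simp only [mul_one, one_pow, ex_const, sq_abs] at h
  exact h

lemma res_bounds {P : (Fin N → Bool) → ℝ} (hP : ∀ x, 0 ≤ P x ∧ P x ≤ 1) (S : Finset (Fin N))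
    (a x : Fin N → Bool) : 0 ≤ res P S a x ∧ res P S a x ≤ 1 := hP _

lemma sq_diff_le_one {p q : ℝ} (hp : 0 ≤ p ∧ p ≤ 1) (hq : 0 ≤ q ∧ q ≤ 1) : (p - q) ^ 2 ≤ 1 := by
  nlinarith [hp.1, hp.2, hq.1, hq.2]

/-- Query influential bits. -/
lemma build {P : (Fin N → Bool) → ℝ} (hP : ∀ x, 0 ≤ P x ∧ P x ≤ 1) {τ v : ℝ} (hτ : 0 < τ)
    (hv : 0 ≤ v) (AA : ∀ S a, v < var (res P S a) → ∃ i, τ ≤ inf1 i (res P S a)) (d : ℕ) :
    ∀ (S : Finset (Fin N)) (a : Fin N → Bool), ∃ D : DTree N ℝ, D.depth ≤ d ∧
      (∀ x, ∃ (S' : Finset (Fin N)) (a' : Fin N → Bool), S'.card ≤ S.card + d ∧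
        D.eval x = ex (res P S' a')) ∧
      (∀ x y, (∀ i, i ∉ S → x i = y i) → D.eval x = D.eval y) ∧
      d * τ ^ 2 * (ex (fun x => (res P S a x - D.eval x) ^ 2) - v) ≤ tot (res P S a) := by
  induction d with
  | zero =>
    intro S a
    refine ⟨DTree.leaf (ex (res P S a)), by simp [DTree.depth], fun x => ⟨S, a, by simp, rfl⟩,
      fun x y _ => rfl, ?_⟩
    simp only [Nat.cast_zero, zero_mul]
    exact tot_nonneg _
  | succ d ih =>
    intro S a
    by_cases hvar : var (res P S a) ≤ v
    · refine ⟨DTree.leaf (ex (res P S a)), by simp [DTree.depth], fun x => ⟨S, a, by simp, rfl⟩,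
        fun x y _ => rfl, ?_⟩
      refine le_trans ?_ (tot_nonneg _)
      refine mul_nonpos_of_nonneg_of_nonpos (by positivity) ?_
      simp only [DTree.eval]
      unfold var at hvar
      linarith
    · obtain ⟨i, hi⟩ := AA S a (not_le.1 hvar)
      have hiS : i ∉ S := by
        intro h
        rw [inf1_of_mem h] at hi
        linarith
      obtain ⟨D0, h01, h02, h03, h04⟩ := ih (insert i S) (Function.update a i false)
      obtain ⟨D1, h11, h12, h13, h14⟩ := ih (insert i S) (Function.update a i true)
      have hcard : (insert i S).card + d = S.card + (d + 1) := by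
        rw [card_insert_of_notMem hiS]; ring
      refine ⟨DTree.node i D0 D1, ?_, fun x => ?_, fun x y hxy => ?_, ?_⟩
      · simp only [DTree.depth]
        omega
      · simp only [DTree.eval]
        split_ifs
        · obtain ⟨S', a', h1, h2⟩ := h12 x
          exact ⟨S', a', by omega, h2⟩
        · obtain ⟨S', a', h1, h2⟩ := h02 x
          exact ⟨S', a', by omega, h2⟩
      · have hx : ∀ k, k ∉ insert i S → x k = y k := fun k hk =>
          hxy k fun h => hk (mem_insert_of_mem h)
        simp only [DTree.eval]
        rw [hxy i hiS, h03 x y hx, h13 x y hx]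
      · set E := ex fun x => (res P S a x - (DTree.node i D0 D1).eval x) ^ 2 with hE
        have hE2 : E = (ex (fun x => (res P (insert i S) (Function.update a i false) x -
            D0.eval x) ^ 2) + ex (fun x => (res P (insert i S) (Function.update a i true) x -
            D1.eval x) ^ 2)) / 2 := by
          rw [hE, ex_split i]
          have e0 : ∀ x, (DTree.node i D0 D1).eval (Function.update x i false) = D0.eval x := by
            intro x
            simp only [DTree.eval, Function.update_self, Bool.false_eq_true, if_false]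
            refine h03 _ _ fun k hk => ?_
            exact Function.update_of_ne (fun h => hk (by rw [h]; exact mem_insert_self _ _)) _ _
          have e1 : ∀ x, (DTree.node i D0 D1).eval (Function.update x i true) = D1.eval x := by
            intro x
            simp only [DTree.eval, Function.update_self, if_true]
            refine h13 _ _ fun k hk => ?_
            exact Function.update_of_ne (fun h => hk (by rw [h]; exact mem_insert_self _ _)) _ _
          simp only [e0, e1, res_update hiS]
        have hE1 : E ≤ 1 := by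
          refine ex_le_of_le fun x => sq_diff_le_one (res_bounds hP S a x) ?_
          simp only [DTree.eval]
          split_ifs
          · obtain ⟨S', a', -, h2⟩ := h12 x
            rw [h2]
            exact ⟨ex_nonneg fun x => (res_bounds hP _ _ _).1,
              ex_le_of_le fun x => (res_bounds hP _ _ _).2⟩
          · obtain ⟨S', a', -, h2⟩ := h02 x
            rw [h2]
            exact ⟨ex_nonneg fun x => (res_bounds hP _ _ _).1,
              ex_le_of_le fun x => (res_bounds hP _ _ _).2⟩
        rw [tot_split hiS]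
        have h5 : τ ^ 2 ≤ inf2 i (res P S a) :=
          (pow_le_pow_left₀ hτ.le hi 2).trans (sq_inf1_le i _)
        set E0 := ex fun x => (res P (insert i S) (Function.update a i false) x -
            D0.eval x) ^ 2
        set E1 := ex fun x => (res P (insert i S) (Function.update a i true) x -
            D1.eval x) ^ 2
        have h6 : ((d + 1 : ℕ) : ℝ) * τ ^ 2 * (E - v) =
            (d * τ ^ 2 * (E0 - v) + d * τ ^ 2 * (E1 - v)) / 2 + τ ^ 2 * (E - v) := by
          push_cast
          have : E0 + E1 = 2 * E := by rw [hE2]; ring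
          have h7 : d * τ ^ 2 * (E0 - v) + d * τ ^ 2 * (E1 - v) =
              d * τ ^ 2 * (E0 + E1 - 2 * v) := by ring
          rw [h7, this]
          ring
        rw [h6]
        have h8 : τ ^ 2 * (E - v) ≤ τ ^ 2 := by
          have : 0 ≤ τ ^ 2 := sq_nonneg τ
          nlinarith
        linarith

end tree

/-! ### The main theorem -/

section main

variable {N K m : ℕ}

lemma accept_le (A : Alg N K m) (v : (Fin K → Option (Fin N)) × Fin m → ℂ)
    (x : Fin N → Bool) : A.accept v x ≤ nsq v := by
  obtain ⟨M, hM, h⟩ := exists_form A x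
  rw [h]
  exact qf_le hM v

lemma nsq_single (s₀ : (Fin K → Option (Fin N)) × Fin m) :
    nsq (Pi.single s₀ (1 : ℂ)) = 1 := by
  rw [nsq, sum_eq_single s₀]
  · simp
  · intro b _ hb
    simp [hb]
  · intro h; exact absurd (mem_univ _) h

/-- The mean over a subcube. -/
lemma mean_cell (p : (Fin N → Bool) → ℝ) (S : Finset (Fin N)) (a : Fin N → Bool) :
    (∑ x ∈ univ.filter (fun x : Fin N → Bool => ∀ i ∈ S, x i = a i), p x) /
      ((univ.filter (fun x : Fin N → Bool => ∀ i ∈ S, x i = a i)).card : ℝ) =
      ex (res p S a) := by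
  set c : (Fin N → Bool) → ℝ := fun x => if ∀ i ∈ S, x i = a i then 1 else 0 with hc
  set n : ℝ := (Fintype.card (Fin N → Bool) : ℝ) with hn
  have hn0 : 0 < n := card_pos'
  have h1 : ∑ x ∈ univ.filter (fun x : Fin N → Bool => ∀ i ∈ S, x i = a i), p x =
      n * ex (fun x => res p S a x * c x) := by
    unfold ex
    rw [mul_div_cancel₀ _ hn0.ne', sum_filter]
    refine sum_congr rfl fun x _ => ?_
    simp only [hc]
    split_ifs with h
    · rw [mul_one]
      unfold res
      refine congrArg p (funext fun k => ?_)
      simp only [mix]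
      split_ifs with hk
      · exact h k hk
      · rfl
    · rw [mul_zero]
  have h2 : ((univ.filter (fun x : Fin N → Bool => ∀ i ∈ S, x i = a i)).card : ℝ) =
      n * ex c := by
    unfold ex
    rw [mul_div_cancel₀ _ hn0.ne', card_filter]
    push_cast
    rfl
  have h3 : ex (fun x => res p S a x * c x) = ex c * ex (res p S a) := by
    have h := ex_diag S (fun z x => res p S a x * c z)
      (fun z w x => by
        have : c (mix S z w) = c z := by
          simp only [hc]
          have h4 : (∀ i ∈ S, mix S z w i = a i) ↔ ∀ i ∈ S, z i = a i := by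
            refine forall_congr' fun i => forall_congr' fun hi => ?_
            simp [mix, hi]
          simp only [h4]
        rw [this])
      (fun z w x => by
        have : res p S a (mix S w x) = res p S a x :=
          res_indep a _ _ fun i hi => by simp [mix, hi]
        rw [this])
    rw [h]
    simp only [ex_mul_right]
    rw [ex_mul_left, mul_comm]
  have h4 : (0 : ℝ) < ((univ.filter (fun x : Fin N → Bool => ∀ i ∈ S, x i = a i)).card : ℝ) := by
    exact_mod_cast card_pos.2 ⟨a, by simp⟩
  rw [div_eq_iff h4.ne', h1, h3, h2]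
  ring

/-- An influential bit of every restriction of large variance. -/
lemma influential (A : Alg N K m) (hA : A.Fresh ∅)
    (v₀ : (Fin K → Option (Fin N)) × Fin m → ℂ) (hv₀ : nsq v₀ = 1) (hK : 0 < K) {T : ℕ}
    (hT : 0 < T) (hAT : A.depth ≤ T) {v : ℝ} (hv : 0 < v) (S : Finset (Fin N))
    (a : Fin N → Bool) (hvar : v < var (res (A.accept v₀) S a)) :
    ∃ i, v ^ 3 / (32 * K ^ 2 * T ^ 3) ≤ inf1 i (res (A.accept v₀) S a) := by
  by_contra hcon
  push Not at hcon
  have hK' : (0 : ℝ) < K := by exact_mod_cast hK
  have hT' : (0 : ℝ) < T := by exact_mod_cast hT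
  set τ : ℝ := v ^ 3 / (32 * K ^ 2 * T ^ 3) with hτ
  have hτ0 : 0 < τ := by positivity
  set g := res (A.accept v₀) S a with hg
  have h1 := osss S a hK (η := v / (4 * T)) (τ := τ) (by positivity) hτ0.le A ∅ hA v₀ g
    (fun x => accept_nonneg _ _ _) (fun x => (accept_le _ _ _).trans hv₀.le)
    (fun i => (hcon i).le)
  have h2 : cov g (fun x => A.accept v₀ (mix S a x)) = var g := by
    have : (fun x => A.accept v₀ (mix S a x)) = g := rfl
    rw [this]
    unfold cov var
    have h3 : (fun x => (g x - ex g) ^ 2) =
        fun x => (g x * g x - 2 * ex g * g x) + ex g ^ 2 := by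
      funext x; ring
    rw [h3, ex_add, ex_sub, ex_mul_left, ex_const]
    ring
  rw [h2, hv₀, mul_one] at h1
  have h4 : (A.depth : ℝ) ≤ T := by exact_mod_cast hAT
  have h5 : (K : ℝ) ^ 2 / (v / (4 * T)) ^ 2 * τ + 2 * (v / (4 * T)) = v / T := by
    rw [hτ]
    field_simp
    ring
  rw [h5] at h1
  have h6 : (A.depth : ℝ) * (v / T) ≤ T * (v / T) :=
    mul_le_mul_of_nonneg_right h4 (by positivity)
  have h7 : (T : ℝ) * (v / T) = v := by field_simp
  have h8 := le_abs_self (var g)
  linarith

/-- The tree, with the means of restrictions as labels. -/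
lemma exists_tree (A : Alg N K m) (hA : A.Fresh ∅)
    (v₀ : (Fin K → Option (Fin N)) × Fin m → ℂ) (hv₀ : nsq v₀ = 1) (hK : 0 < K) {T : ℕ}
    (hT : 0 < T) (hAT : A.depth ≤ T) {ε : ℝ} (hε : 0 < ε) (hε1 : ε ≤ 1) :
    ∃ (D : DTree N ℝ) (d : ℕ), (d : ℝ) ≤ 2 ^ 20 * K ^ 5 * T ^ 7 / ε ^ 7 ∧ D.depth ≤ d ∧
      (∀ x, ∃ (S' : Finset (Fin N)) (a' : Fin N → Bool), S'.card ≤ d ∧
        D.eval x = ex (res (A.accept v₀) S' a')) ∧
      ex (fun x => (A.accept v₀ x - D.eval x) ^ 2) ≤ ε := by
  have hK' : (1 : ℝ) ≤ K := by exact_mod_cast hK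
  have hT' : (1 : ℝ) ≤ T := by exact_mod_cast hT
  set v : ℝ := ε / 2 with hv
  have hv0 : 0 < v := by positivity
  set τ : ℝ := v ^ 3 / (32 * K ^ 2 * T ^ 3) with hτ
  have hτ0 : 0 < τ := by positivity
  set B : ℝ := 2 ^ 19 * K ^ 5 * T ^ 7 / ε ^ 7 with hB
  have hB1 : 1 ≤ B := by
    rw [hB, le_div_iff₀ (by positivity), one_mul]
    have h1 : ε ^ 7 ≤ 1 := pow_le_one₀ hε.le hε1
    have h2 : (1 : ℝ) ≤ K ^ 5 := one_le_pow₀ hK'
    have h3 : (1 : ℝ) ≤ T ^ 7 := one_le_pow₀ hT'
    have h4 : (1 : ℝ) ≤ K ^ 5 * T ^ 7 := by nlinarith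
    nlinarith
  obtain ⟨D, h1, h2, -, h4⟩ := build (P := A.accept v₀)
    (fun x => ⟨accept_nonneg _ _ _, (accept_le _ _ _).trans hv₀.le⟩) hτ0 hv0.le
    (fun S a h => influential A hA v₀ hv₀ hK hT hAT hv0 S a h) ⌈B⌉₊ ∅ fun _ => false
  have hres : res (A.accept v₀) ∅ (fun _ => false) = A.accept v₀ := by
    funext x
    exact congrArg (A.accept v₀) (funext fun i => by simp [mix])
  rw [hres] at h4
  refine ⟨D, ⌈B⌉₊, ?_, h1, fun x => ?_, ?_⟩
  · have : (⌈B⌉₊ : ℝ) < B + 1 := Nat.ceil_lt_add_one (by linarith)
    have h5 : 2 * B = 2 ^ 20 * K ^ 5 * T ^ 7 / ε ^ 7 := by rw [hB]; ring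
    linarith
  · obtain ⟨S', a', h5, h6⟩ := h2 x
    exact ⟨S', a', by simpa using h5, h6⟩
  · set E := ex fun x => (A.accept v₀ x - D.eval x) ^ 2 with hE
    by_contra hcon
    push Not at hcon
    have h5 := h4.trans (total_influence A hA v₀ hv₀)
    have h6 : (A.depth : ℝ) ≤ T := by exact_mod_cast hAT
    have h7 : (4 : ℝ) * K * A.depth ≤ 4 * K * T :=
      mul_le_mul_of_nonneg_left h6 (by positivity)
    have h8 : B ≤ (⌈B⌉₊ : ℝ) := Nat.le_ceil B
    have h9 : v < E - v := by rw [hv] at *; linarith
    have h10 : B * τ ^ 2 * v < (⌈B⌉₊ : ℝ) * τ ^ 2 * (E - v) := by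
      have : B * τ ^ 2 * v < B * τ ^ 2 * (E - v) :=
        mul_lt_mul_of_pos_left h9 (by positivity)
      refine this.trans_le ?_
      refine mul_le_mul_of_nonneg_right (mul_le_mul_of_nonneg_right h8 (sq_nonneg _)) ?_
      linarith
    have h11 : B * τ ^ 2 * v = 4 * K * T := by
      rw [hB, hτ, hv]
      field_simp
      ring
    linarith

/-- **Main theorem.** Let `A` be a quantum algorithm with at most `T` phases of one batch of `K`
parallel queries each, such that on every branch the blocks are disjoint. Then, with
`P x = A.accept (Pi.single s₀ 1) x` the acceptance probability,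
(1) for every `0 < ε ≤ 1` there is a classical decision tree of depth at most
`2 ^ 20 K ^ 5 T ^ 7 / ε ^ 7` whose output approximates `P` with mean square error at most `ε`;
(2) if the variance `Var` of `P` is positive, then some assignment of at most
`2 ^ 34 K ^ 5 T ^ 7 / Var ^ 7` bits changes the mean of `P` by at least `√Var / 2`. -/
theorem result (N K m T : ℕ) (A : Alg N K m) (s₀ : (Fin K → Option (Fin N)) × Fin m)
    (hA : A.Fresh ∅) (hK : 1 ≤ K) (hT : 1 ≤ T) (hAT : A.depth ≤ T) :
    (∀ ε : ℝ, 0 < ε → ε ≤ 1 → ∃ D : DTree N ℝ,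
      (D.depth : ℝ) ≤ 2 ^ 20 * (K : ℝ) ^ 5 * (T : ℝ) ^ 7 / ε ^ 7 ∧
      (∑ x, (A.accept (Pi.single s₀ 1) x - D.eval x) ^ 2) / 2 ^ N ≤ ε) ∧
    (∀ E Var : ℝ, E = (∑ x, A.accept (Pi.single s₀ 1) x) / 2 ^ N →
      Var = (∑ x, (A.accept (Pi.single s₀ 1) x - E) ^ 2) / 2 ^ N → 0 < Var →
      ∃ (S : Finset (Fin N)) (a : Fin N → Bool),
        (S.card : ℝ) ≤ 2 ^ 34 * (K : ℝ) ^ 5 * (T : ℝ) ^ 7 / Var ^ 7 ∧
        √Var / 2 ≤ |(∑ x ∈ univ.filter (fun x : Fin N → Bool => ∀ i ∈ S, x i = a i),
          A.accept (Pi.single s₀ 1) x) /
          ((univ.filter (fun x : Fin N → Bool => ∀ i ∈ S, x i = a i)).card : ℝ) - E|) := by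
  set v₀ : (Fin K → Option (Fin N)) × Fin m → ℂ := Pi.single s₀ 1 with hv₀d
  have hv₀ : nsq v₀ = 1 := nsq_single s₀
  set p := A.accept v₀ with hp
  have hex : ∀ g : (Fin N → Bool) → ℝ, (∑ x, g x) / 2 ^ N = ex g := by
    intro g
    unfold ex
    congr 1
    simp
  have hp01 : ∀ x, 0 ≤ p x ∧ p x ≤ 1 :=
    fun x => ⟨accept_nonneg _ _ _, (accept_le _ _ _).trans hv₀.le⟩
  constructor
  · intro ε hε hε1
    obtain ⟨D, d, hd, hD, -, herr⟩ := exists_tree A hA v₀ hv₀ hK hT hAT hε hε1
    refine ⟨D, ?_, ?_⟩
    · refine le_trans ?_ hd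
      exact_mod_cast hD
    · rw [hex fun x => (p x - D.eval x) ^ 2]
      exact herr
  · intro E Var hE hV hpos
    rw [hex p] at hE
    rw [hex fun x => (p x - E) ^ 2] at hV
    have hE01 : 0 ≤ E ∧ E ≤ 1 := by
      rw [hE]
      exact ⟨ex_nonneg fun x => (hp01 x).1, ex_le_of_le fun x => (hp01 x).2⟩
    have hV1 : Var ≤ 1 := by
      rw [hV]
      exact ex_le_of_le fun x => sq_diff_le_one (hp01 x) hE01
    obtain ⟨D, d, hd, hD, hlab, herr⟩ := exists_tree A hA v₀ hv₀ hK hT hAT (ε := Var / 4)
      (by positivity) (by linarith)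
    -- some label is far from the mean
    have h1 : ∃ x, Var / 4 ≤ (D.eval x - E) ^ 2 := by
      by_contra hcon
      push Not at hcon
      have h2 : Var ≤ 2 * ex (fun x => (p x - D.eval x) ^ 2) +
          2 * ex (fun x => (D.eval x - E) ^ 2) := by
        rw [hV, ← ex_mul_left, ← ex_mul_left, ← ex_add]
        refine ex_mono fun x => ?_
        nlinarith [sq_nonneg ((p x - D.eval x) - (D.eval x - E))]
      have h3 : ex (fun x => (D.eval x - E) ^ 2) < Var / 4 := by
        have : ex (fun x => (D.eval x - E) ^ 2) < ex fun _ : Fin N → Bool => Var / 4 := by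
          unfold ex
          refine div_lt_div_of_pos_right ?_ card_pos'
          exact sum_lt_sum_of_nonempty ⟨fun _ => false, mem_univ _⟩ fun x _ => hcon x
        rwa [ex_const] at this
      linarith
    obtain ⟨x, hx⟩ := h1
    obtain ⟨S, a, hS, hlabel⟩ := hlab x
    refine ⟨S, a, ?_, ?_⟩
    · have h2 : (S.card : ℝ) ≤ d := by exact_mod_cast hS
      refine h2.trans (hd.trans (le_of_eq ?_))
      field_simp
      ring
    · have h3 : (∑ x ∈ univ.filter (fun x : Fin N → Bool => ∀ i ∈ S, x i = a i), p x) /
          ((univ.filter (fun x : Fin N → Bool => ∀ i ∈ S, x i = a i)).card : ℝ) =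
          ex (res p S a) := mean_cell p S a
      rw [h3, ← hlabel, ← Real.sqrt_sq_eq_abs]
      have h4 : √Var / 2 = √(Var / 4) := by
        rw [Real.sqrt_div hpos.le]
        congr 1
        rw [show (4 : ℝ) = 2 ^ 2 by norm_num, Real.sqrt_sq (by norm_num)]
      rw [h4]
      exact Real.sqrt_le_sqrt hx

end main

end Pool.Agent.Results.MP_58d537_lc.FreshBlocks
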