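import Pool.Agent.L5helper56.QF.Tele

/-!
# MP_58d537_lc: the bit-fixing statement for quantum algorithms with a small quantum memory

We consider quantum query algorithms with an unbounded number `T` of adaptive steps. In every step
the algorithm makes one query in superposition, with arbitrary unitaries before and after it on a
workspace of arbitrary size, and then a measurement. The classical outcomes may be remembered
without any restriction and control the whole later computation, but the quantum memory which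
survives a step has dimension at most `M`. Bits may be queried again in later steps. We prove for
this class the influence conjecture of Aaronson and Ambainis, the simulation statement and the
bit-fixing statement, with bounds polynomial in `T`, `M` and `1 / Var` (or `1 / ε`).

Idea: for every outcome `j` of a step, the map from the old to the new quantum memory depends on
the bits through a matrix with at most `M ^ 2` entries, so that all bits but a few heavy ones
(depending on `j`) have a small effect on the new state, uniformly in the old state and in the other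
bits. Hence on every branch there is a small set `S` of heavy bits such that every bit outside `S`
has a small effect on the (not normalized) state. The acceptance probability `f` itself has a small
total sensitivity at every point. An interpolation argument then shows that the mean of `f` against
the probability of the branch hardly changes when `f` is averaged over all bits outside `S`; but
these averages are the means of `f` under fixing the bits in `S`. This gives the bit-fixing
statement. For the influences we replace `f` step by step by its average over the heavy bits. The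
heavy bits are defined by a small threshold `δ`, so that the states depend very little on the other
bits; for the comparison of the two averages in one step a larger threshold `δ₁` is used, so that
the number `1 / δ₁` of the bits which are very heavy is small in comparison with `1 / √δ`.
-/

set_option autoImplicit false
set_option linter.unusedSectionVars false

open Finset Matrix

namespace Pool.Agent.Results.MP_58d537_lc.SmallQuantumMemory

/-- The sign which a query picks up: `some i` gives `(-1) ^ (x i)`, and `none` is no query. -/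
noncomputable def sign {N : ℕ} (x : Fin N → Bool) (q : Option (Fin N)) : ℂ :=
  q.elim 1 fun i => if x i = true then -1 else 1

/-- Quantum algorithms with classical control. The basis states are pairs of a query and a state
of the workspace. `stop Acc` measures and accepts if the result is in `Acc`; `step U V c out next`
applies `U`, makes one query, applies `V`, measures the value `j` of the function `out` of the
basis state, and goes on with `next j`. -/
inductive Alg (N m : ℕ) : Type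
  | stop (Acc : Finset (Option (Fin N) × Fin m)) : Alg N m
  | step (U V : Matrix.unitaryGroup (Option (Fin N) × Fin m) ℂ) (c : ℕ)
      (out : Option (Fin N) × Fin m → Fin c) (next : Fin c → Alg N m) : Alg N m

/-- The state after one query. -/
noncomputable def evolve {N m : ℕ} (U V : Matrix.unitaryGroup (Option (Fin N) × Fin m) ℂ)
    (x : Fin N → Bool) (v : Option (Fin N) × Fin m → ℂ) : Option (Fin N) × Fin m → ℂ :=
  V.1 *ᵥ fun s => sign x s.1 * (U.1 *ᵥ v) s

/-- The (not normalized) acceptance probability, started in the state `v`. -/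
noncomputable def Alg.accept {N m : ℕ} : Alg N m → (Option (Fin N) × Fin m → ℂ) →
    (Fin N → Bool) → ℝ
  | stop Acc, v, _ => ∑ s ∈ Acc, ‖v s‖ ^ 2
  | step U V _ out next, v, x =>
      ∑ j, (next j).accept (fun s => if out s = j then evolve U V x v s else 0) x

/-- The number of steps, that is of queries. -/
def Alg.depth {N m : ℕ} : Alg N m → ℕ
  | stop _ => 0
  | step _ _ _ _ next => (univ.sup fun j => (next j).depth) + 1

/-- After every step the quantum memory has dimension at most `M`: every outcome of the measurement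
is given by at most `M` basis states. -/
def Alg.Memory {N m : ℕ} : Alg N m → ℕ → Prop
  | stop _, _ => True
  | step _ _ _ out next, M =>
      ∀ j, (univ.filter fun s => out s = j).card ≤ M ∧ (next j).Memory M

open L5helper56.QF
open L5helper42.AA (nsq ip wt nsq_nonneg ip_apply ip_self ip_mulVec nsq_unitary nsq_phase
  wt_nonneg wt_le sum_wt_le ip_sq_le flip_flip sum_flip nsq_unitary_conj)

open L5helper42.AA renaming flip → fl

variable {N m : ℕ}

/-! ### The acceptance probability as a quadratic form -/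

lemma accept_step (U V : Matrix.unitaryGroup (Option (Fin N) × Fin m) ℂ) (c : ℕ)
    (out : Option (Fin N) × Fin m → Fin c) (next : Fin c → Alg N m)
    (v : Option (Fin N) × Fin m → ℂ) (x : Fin N → Bool) :
    (Alg.step U V c out next).accept v x =
      ∑ j, (next j).accept (part out j (Ex Prod.fst U V x *ᵥ v)) x := by
  rw [Alg.accept]
  refine sum_congr rfl fun j _ => ?_
  rw [Ex_mulVec]
  rfl

/-- The matrix of the quadratic form. -/
noncomputable def form : Alg N m → (Fin N → Bool) →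
    Matrix (Option (Fin N) × Fin m) (Option (Fin N) × Fin m) ℂ
  | .stop Acc, _ => diagonal fun s => if s ∈ Acc then 1 else 0
  | .step U V _ out next, x =>
      (Ex Prod.fst U V x)ᴴ * blk out (fun j => form (next j) x) * Ex Prod.fst U V x

lemma form_HC (A : Alg N m) (x : Fin N → Bool) : HC (form A x) := by
  induction A with
  | stop Acc =>
    simp only [form]
    refine ⟨?_, fun v => ?_⟩
    · rw [diagonal_conjTranspose]
      congr 1
      funext s
      simp only [Pi.star_apply]
      split_ifs <;> simp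
    · unfold nsq
      refine sum_le_sum fun s _ => ?_
      rw [mulVec_diagonal]
      split_ifs <;> simp
  | step U V c out next ih =>
    simp only [form]
    exact HC_conj (blk_HC out _ ih) (nsq_Ex Prod.fst U V x) (nsq_Ex_conj Prod.fst U V x)

lemma accept_eq (A : Alg N m) (x : Fin N → Bool) :
    ∀ v : Option (Fin N) × Fin m → ℂ, A.accept v x = (ip v (form A x *ᵥ v)).re := by
  induction A with
  | stop Acc =>
    intro v
    rw [Alg.accept, form, ip_apply, Complex.re_sum]
    rw [← sum_filter_add_sum_filter_not univ (fun s => s ∈ Acc)]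
    have h1 : ∑ s ∈ univ.filter (fun s => ¬ s ∈ Acc),
        (star (v s) * (Matrix.diagonal (fun s => if s ∈ Acc then (1 : ℂ) else 0) *ᵥ v) s).re =
        0 := by
      refine sum_eq_zero fun s hs => ?_
      rw [mulVec_diagonal, if_neg (mem_filter.1 hs).2]
      simp
    rw [h1, add_zero]
    have h2 : (univ.filter fun s => s ∈ Acc) = Acc := by ext s; simp
    rw [h2]
    refine sum_congr rfl fun s hs => ?_
    rw [mulVec_diagonal, if_pos hs, one_mul, Complex.star_def, ← Complex.normSq_eq_conj_mul_self,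
      Complex.normSq_eq_norm_sq]
    norm_cast
  | step U V c out next ih =>
    intro v
    rw [accept_step, form, ip_conj_mat, ip_blk, Complex.re_sum]
    exact sum_congr rfl fun j _ => ih j _

lemma accept_nonneg (A : Alg N m) (x : Fin N → Bool) :
    ∀ v : Option (Fin N) × Fin m → ℂ, 0 ≤ A.accept v x := by
  induction A with
  | stop Acc =>
    intro v
    exact sum_nonneg fun s _ => by positivity
  | step U V c out next ih =>
    intro v
    rw [accept_step]
    exact sum_nonneg fun j _ => ih j _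

lemma accept_le (A : Alg N m) (x : Fin N → Bool) (v : Option (Fin N) × Fin m → ℂ) :
    A.accept v x ≤ nsq v := by
  rw [accept_eq]
  exact qf_le (form_HC A x) v

/-! ### Sensitivity of the acceptance probability -/

lemma depth_next {c : ℕ} (next : Fin c → Alg N m) {n : ℕ}
    (h : (univ.sup fun j => (next j).depth) + 1 ≤ n + 1) (j : Fin c) : (next j).depth ≤ n :=
  (le_sup (f := fun j => (next j).depth) (mem_univ j)).trans (Nat.le_of_succ_le_succ h)

lemma blk_l2 {c : ℕ} (out : Option (Fin N) × Fin m → Fin c) (next : Fin c → Alg N m) {C : ℝ}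
    (x : Fin N → Bool)
    (h : ∀ (j : Fin c) (v : Option (Fin N) × Fin m → ℂ),
      ∑ k, nsq ((form (next j) x - form (next j) (fl k x)) *ᵥ v) ≤ C * nsq v)
    (v : Option (Fin N) × Fin m → ℂ) :
    ∑ k, nsq ((blk out (fun j => form (next j) x) -
      blk out (fun j => form (next j) (fl k x))) *ᵥ v) ≤ C * nsq v := by
  calc _ ≤ ∑ k, ∑ j, nsq ((form (next j) x - form (next j) (fl k x)) *ᵥ part out j v) := by
        refine sum_le_sum fun k _ => ?_
        rw [blk_sub]
        exact nsq_blk_le out _ v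
    _ = ∑ j, ∑ k, nsq ((form (next j) x - form (next j) (fl k x)) *ᵥ part out j v) := sum_comm
    _ ≤ ∑ j, C * nsq (part out j v) := sum_le_sum fun j _ => h j _
    _ = C * nsq v := by rw [← mul_sum, sum_nsq_part]

lemma sens2 (A : Alg N m) : ∀ n : ℕ, A.depth ≤ n → ∀ (x : Fin N → Bool)
    (v : Option (Fin N) × Fin m → ℂ),
    ∑ k, nsq ((form A x - form A (fl k x)) *ᵥ v) ≤ 16 * n * (n + 1) * nsq v := by
  induction A with
  | stop Acc =>
    intro n _ x v
    have h0 : ∀ k, nsq ((form (Alg.stop Acc) x - form (Alg.stop Acc) (fl k x)) *ᵥ v) = 0 := by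
      intro k
      simp only [form, sub_self, zero_mulVec]
      simp [nsq]
    simp only [h0, sum_const_zero]
    exact mul_nonneg (by positivity) (nsq_nonneg v)
  | step U V c out next ih =>
    intro n hn x v
    simp only [Alg.depth] at hn
    obtain ⟨n, rfl⟩ : ∃ n', n = n' + 1 := ⟨n - 1, by omega⟩
    have h1 := blk_l2 out next x (C := 16 * n * (n + 1))
      (fun j v => ih j n (depth_next next hn j) x v)
    have h2 := step_l2 (qr := Prod.fst) U V (n := (n : ℝ) + 1) (by positivity) x _ _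
      (blk_HC out (fun j => form (next j) x) fun j => form_HC _ _)
      (fun k => blk_HC out (fun j => form (next j) (fl k x)) fun j => form_HC _ _) h1 v
    refine h2.trans (le_of_eq ?_)
    push_cast
    field_simp
    ring

lemma sens1 (A : Alg N m) : ∀ n : ℕ, A.depth ≤ n → ∀ (x : Fin N → Bool)
    (v : Option (Fin N) × Fin m → ℂ),
    ∑ k, |A.accept v x - A.accept v (fl k x)| ≤ 8 * n * (n + 1) * nsq v := by
  induction A with
  | stop Acc =>
    intro n _ x v
    simp only [Alg.accept, sub_self, abs_zero, sum_const_zero]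
    exact mul_nonneg (by positivity) (nsq_nonneg v)
  | step U V c out next ih =>
    intro n hn x v
    simp only [Alg.depth] at hn
    obtain ⟨n, rfl⟩ : ∃ n', n = n' + 1 := ⟨n - 1, by omega⟩
    have h1 := blk_l2 out next x (C := 16 * n * (n + 1))
      (fun j v => sens2 (next j) n (depth_next next hn j) x v)
    have h2 := step_l1 (qr := Prod.fst) U V (n := 4 * ((n : ℝ) + 1)) (by positivity) x _ _
      (blk_HC out (fun j => form (next j) x) fun j => form_HC _ _)
      (fun k => blk_HC out (fun j => form (next j) (fl k x)) fun j => form_HC _ _) h1 v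
    have h3 : ∀ y, (Alg.step U V c out next).accept v y =
        (ip (Ex Prod.fst U V y *ᵥ v) (blk out (fun j => form (next j) y) *ᵥ
          (Ex Prod.fst U V y *ᵥ v))).re := by
      intro y
      rw [accept_eq, form, ip_conj_mat]
    simp only [h3]
    refine h2.trans ?_
    set w := Ex Prod.fst U V x *ᵥ v with hw
    have h4 : ∑ k, |(ip w (blk out (fun j => form (next j) x) *ᵥ w)).re -
        (ip w (blk out (fun j => form (next j) (fl k x)) *ᵥ w)).re| ≤
        8 * n * (n + 1) * nsq v := by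
      calc _ ≤ ∑ k, ∑ j, |(next j).accept (part out j w) x -
            (next j).accept (part out j w) (fl k x)| := by
            refine sum_le_sum fun k _ => ?_
            rw [ip_blk, ip_blk, Complex.re_sum, Complex.re_sum, ← sum_sub_distrib]
            refine (abs_sum_le_sum_abs _ _).trans (le_of_eq ?_)
            simp only [accept_eq]
        _ = ∑ j, ∑ k, |(next j).accept (part out j w) x -
            (next j).accept (part out j w) (fl k x)| := sum_comm
        _ ≤ ∑ j, 8 * n * (n + 1) * nsq (part out j w) :=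
            sum_le_sum fun j _ => ih j n (depth_next next hn j) x _
        _ = 8 * n * (n + 1) * nsq v := by
            rw [← mul_sum, sum_nsq_part, hw, nsq_Ex]
    have h5 : (8 + 2 * (4 * ((n : ℝ) + 1)) + 2 * (16 * n * (n + 1)) / (4 * ((n : ℝ) + 1))) =
        16 * ((n : ℝ) + 1) := by
      field_simp
      ring
    rw [h5]
    push_cast
    nlinarith [nsq_nonneg v]

/-! ### The main induction -/

section main

variable {M : ℕ} {f : (Fin N → Bool) → ℝ} {L θ ω δ η d : ℝ}

lemma main_ind (hL0 : 0 ≤ L) (hθ0 : 0 ≤ θ) (hω : 0 < ω) (hδ : 0 < δ) (hη : 0 < η)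
    (hf : ∀ z, ∑ k, |f z - av {k} f z| ≤ L)
    (hθ : ∀ (S : Finset (Fin N)) (a : Fin N → Bool), (S.card : ℝ) ≤ d →
      |av Sᶜ f a - ex f| ≤ θ) (A : Alg N m) :
    A.Memory M → ∀ n : ℕ, A.depth ≤ n → ∀ (S : Finset (Fin N)), (S.card : ℝ) + n / δ ≤ d →
    ∀ (F : Finset (Option (Fin N) × Fin m)), F.card ≤ M → ∀ (J : Type) [Fintype J]
    (C : (Fin N → Bool) → Option (Fin N) × Fin m → ℂ)
    (g : (Fin N → Bool) → J → Option (Fin N) × Fin m → ℂ),
    (∀ x s, s ∉ F → C x s = 0) →
    (∀ k, k ∉ S → ∀ x w, ‖ip w (C x - C (fl k x))‖ ^ 2 ≤ ∑ i, ‖ip w (g x i)‖ ^ 2) →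
    |ex (fun x => A.accept (C x) x * f x) - ex (fun x => A.accept (C x) x) * ex f| ≤
      θ * ex (fun x => nsq (C x)) +
      L * ((1 / (2 * ω) + 1 / 2) * (1 + η + (1 + 1 / η) * (8 * δ * M ^ 2)) ^ n *
          ex (fun x => ∑ i, nsq (g x i)) +
        (ω / 2 + (1 / (2 * ω) + 1 / 2) * ((1 + 1 / η) * (8 * δ * M ^ 2)) * n *
          (1 + η + (1 + 1 / η) * (8 * δ * M ^ 2)) ^ n) * ex (fun x => nsq (C x))) := by
  set ζ : ℝ := (1 + 1 / η) * (8 * δ * M ^ 2) with hζ
  have hζ0 : 0 ≤ ζ := by positivity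
  set ρ : ℝ := 1 + η + ζ with hρ
  have hρ1 : 1 ≤ ρ := by linarith
  set α : ℝ := 1 / (2 * ω) + 1 / 2 with hα
  have hα0 : 0 < α := by positivity
  induction A with
  | stop Acc =>
    intro _ n _ S hS F hF J _ C g hC hmaj
    set τ : (Fin N → Bool) → ℝ := fun x => ∑ i, nsq (g x i) with hτ
    have hτ0 : ∀ x, 0 ≤ τ x := fun x => sum_nonneg fun i _ => nsq_nonneg _
    set acc : (Fin N → Bool) → ℝ := fun x => (Alg.stop Acc : Alg N m).accept (C x) x with hacc
    have hacc0 : ∀ x, 0 ≤ acc x := fun x => accept_nonneg _ _ _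
    have hacc1 : ∀ x, acc x ≤ nsq (C x) := fun x => accept_le _ _ _
    set G : (Fin N → Bool) → ℝ := fun x => α * τ x + ω / 2 * nsq (C x) with hG
    have hG0 : ∀ x, 0 ≤ G x := fun x => add_nonneg (mul_nonneg hα0.le (hτ0 x))
      (mul_nonneg (by positivity) (nsq_nonneg _))
    have h1 : |ex (fun x => acc x * f x) - ex (fun x => acc x * av Sᶜ f x)| ≤ L * ex G := by
      refine interp Sᶜ acc f G (fun k hk x => ?_) hG0 (fun z => ?_)
      · rw [mem_compl] at hk
        rw [av_single]
        have h2 := acc_diff Acc (C x) (C (fl k x)) hω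
        have h3 := nsq_le_of_maj (C x - C (fl k x)) (g x) (hmaj k hk x)
        have h4 : (1 / ω + 1) * nsq (C x - C (fl k x)) ≤ (1 / ω + 1) * τ x :=
          mul_le_mul_of_nonneg_left h3 (by positivity)
        have h5 : acc x - (acc x + acc (fl k x)) / 2 = (acc x - acc (fl k x)) / 2 := by ring
        have h6 : |acc x - acc (fl k x)| ≤ ω * nsq (C x) + (1 / ω + 1) * τ x := h2.trans (by
          linarith)
        rw [h5, abs_div, abs_two]
        simp only [hG]
        have h7 : α * τ x = (1 / ω + 1) * τ x / 2 := by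
          rw [hα]
          field_simp
        rw [h7]
        linarith
      · exact (sum_le_sum_of_subset_of_nonneg (subset_univ _) fun k _ _ => abs_nonneg _).trans
          (hf z)
    have h2 : |ex (fun x => acc x * av Sᶜ f x) - ex acc * ex f| ≤
        θ * ex fun x => nsq (C x) := by
      rw [← ex_mul_right, ← ex_sub, ← ex_mul_left]
      refine (abs_ex_le _).trans (ex_mono fun x => ?_)
      rw [← mul_sub, abs_mul, abs_of_nonneg (hacc0 x), mul_comm]
      refine mul_le_mul (hθ S x ?_) (hacc1 x) (hacc0 x) hθ0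
      have : 0 ≤ (n : ℝ) / δ := by positivity
      linarith
    have h3 : ex G = α * ex τ + ω / 2 * ex fun x => nsq (C x) := by
      simp only [hG]
      rw [ex_add, ex_mul_left, ex_mul_left]
    have h4 : 0 ≤ ex τ := ex_nonneg hτ0
    have h5 : 0 ≤ ex fun x => nsq (C x) := ex_nonneg fun x => nsq_nonneg _
    have h6 : 1 ≤ ρ ^ n := one_le_pow₀ hρ1
    have h7 : α * ex τ ≤ α * ρ ^ n * ex τ := by
      refine mul_le_mul_of_nonneg_right ?_ h4
      exact le_mul_of_one_le_right hα0.le h6
    have h8 : ω / 2 * ex (fun x => nsq (C x)) ≤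
        (ω / 2 + α * ζ * n * ρ ^ n) * ex fun x => nsq (C x) := by
      refine mul_le_mul_of_nonneg_right ?_ h5
      have : 0 ≤ α * ζ * n * ρ ^ n := by positivity
      linarith
    have h9 : L * ex G ≤ L * (α * ρ ^ n * ex τ +
        (ω / 2 + α * ζ * n * ρ ^ n) * ex fun x => nsq (C x)) := by
      rw [h3]
      exact mul_le_mul_of_nonneg_left (by linarith) hL0
    have h10 := abs_sub_le (ex fun x => acc x * f x) (ex fun x => acc x * av Sᶜ f x)
      (ex acc * ex f)
    linarith
  | step U V c out next ih =>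
    intro hA n hn S hS F hF J _ C g hC hmaj
    simp only [Alg.depth] at hn
    obtain ⟨n, rfl⟩ : ∃ n', n = n' + 1 := ⟨n - 1, by omega⟩
    set E : (Fin N → Bool) → Matrix (Option (Fin N) × Fin m) (Option (Fin N) × Fin m) ℂ :=
      fun x => Ex Prod.fst U V x with hE
    set τ : (Fin N → Bool) → ℝ := fun x => ∑ i, nsq (g x i) with hτ
    have hτ0 : ∀ x, 0 ≤ τ x := fun x => sum_nonneg fun i _ => nsq_nonneg _
    -- the new states
    set Cj : Fin c → (Fin N → Bool) → Option (Fin N) × Fin m → ℂ :=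
      fun j x => part out j (E x *ᵥ C x) with hCj
    have hsumC : ∀ x, ∑ j, nsq (Cj j x) = nsq (C x) := by
      intro x
      simp only [hCj]
      rw [sum_nsq_part, hE, nsq_Ex]
    -- the heavy bits
    set H : Fin c → Finset (Fin N) := fun j => hvy Prod.fst U V out F δ j with hH
    set ν : Fin c → ℝ := fun j => ∑ l, kap Prod.fst U V out F j l with hν
    have hν0 : ∀ j, 0 ≤ ν j := fun j => sum_nonneg fun l _ => kap_nonneg _ U V out F j l
    have hνs : ∑ j, ν j ≤ M := (sum_kap Prod.fst U V out F).trans (by exact_mod_cast hF)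
    set β : Fin c → (Fin N → Bool) → ℝ :=
      fun j x => (1 + 1 / η) * (8 * (δ * ν j) * (nsq (C x) + τ x)) with hβ
    have hβ0 : ∀ j x, 0 ≤ β j x := by
      intro j x
      have := hν0 j
      have := hτ0 x
      have := nsq_nonneg (C x)
      positivity
    set gj : Fin c → (Fin N → Bool) → J ⊕ (Option (Fin N) × Fin m) →
      Option (Fin N) × Fin m → ℂ := fun j x => fam Prod.fst U V out x η (β j x) j (g x) with hgj
    -- the induction hypothesis
    have hstep : ∀ j, |ex (fun x => (next j).accept (Cj j x) x * f x) -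
        ex (fun x => (next j).accept (Cj j x) x) * ex f| ≤
        θ * ex (fun x => nsq (Cj j x)) +
        L * (α * ρ ^ n * ex (fun x => ∑ i, nsq (gj j x i)) +
        (ω / 2 + α * ζ * n * ρ ^ n) * ex (fun x => nsq (Cj j x))) := by
      intro j
      refine ih j (hA j).2 n (depth_next next hn j) (S ∪ H j) ?_
        (univ.filter fun s => out s = j) (hA j).1 _ (Cj j) (gj j) ?_ ?_
      · have h1 : ((S ∪ H j).card : ℝ) ≤ S.card + (H j).card := by
          exact_mod_cast card_union_le S (H j)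
        have h2 : ((H j).card : ℝ) ≤ 1 / δ := hvy_card Prod.fst U V out F hδ j
        have h3 : (((n + 1 : ℕ) : ℝ)) / δ = n / δ + 1 / δ := by
          push_cast
          ring
        rw [h3] at hS
        linarith
      · intro x s hs
        simp only [hCj, part]
        rw [if_neg]
        intro h
        exact hs (mem_filter.2 ⟨mem_univ _, h⟩)
      · intro k hk x w
        rw [mem_union, not_or] at hk
        have hk2 : kap Prod.fst U V out F j k ≤ δ * ν j := by
          have := hk.2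
          simp only [hH, hvy, mem_filter, mem_univ, true_and, not_lt] at this
          exact this
        have h1 := maj_step Prod.fst U V out F x k hη j (g x) (C x) (C (fl k x))
          (hC (fl k x)) (hmaj k hk.1 x) hk2 w
        refine h1.trans (le_of_eq ?_)
        rw [hgj, sum_fam_ip Prod.fst U V out x hη (hβ0 j x) j (g x) w]
    -- summation over the outcomes
    have hacc : ∀ x, (Alg.step U V c out next).accept (C x) x =
        ∑ j, (next j).accept (Cj j x) x := fun x => accept_step U V c out next (C x) x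
    have e1 : ex (fun x => (Alg.step U V c out next).accept (C x) x * f x) =
        ∑ j, ex fun x => (next j).accept (Cj j x) x * f x := by
      rw [← ex_sum]
      refine congrArg ex (funext fun x => ?_)
      rw [hacc, sum_mul]
    have e2 : ex (fun x => (Alg.step U V c out next).accept (C x) x) =
        ∑ j, ex fun x => (next j).accept (Cj j x) x := by
      rw [← ex_sum]
      exact congrArg ex (funext fun x => hacc x)
    rw [e1, e2, sum_mul, ← sum_sub_distrib]
    refine (abs_sum_le_sum_abs _ _).trans ((sum_le_sum fun j _ => hstep j).trans ?_)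
    rw [sum_add_distrib, ← mul_sum, ← mul_sum, sum_add_distrib, ← mul_sum, ← mul_sum,
      ← ex_sum, ← ex_sum]
    simp only [hsumC]
    set Y := ex fun x => nsq (C x) with hY
    have hY0 : 0 ≤ Y := ex_nonneg fun x => nsq_nonneg _
    have hX0 : 0 ≤ ex τ := ex_nonneg hτ0
    have h5 : ex (fun x => ∑ j, ∑ i, nsq (gj j x i)) ≤ ρ * ex τ + ζ * Y := by
      rw [hY, ← ex_mul_left, ← ex_mul_left, ← ex_add]
      refine ex_mono fun x => ?_
      have h6 : ∀ j, ∑ i, nsq (gj j x i) ≤
          (1 + η) * ∑ i, nsq (part out j (E x *ᵥ g x i)) +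
          (1 + 1 / η) * (8 * δ * M) * (nsq (C x) + τ x) * ν j := by
        intro j
        rw [hgj, sum_fam_nsq Prod.fst U V out x hη (hβ0 j x) j (g x)]
        refine add_le_add le_rfl ?_
        have h7 : ((univ.filter fun s => out s = j).card : ℝ) ≤ M := by
          exact_mod_cast (hA j).1
        refine (mul_le_mul_of_nonneg_left h7 (hβ0 j x)).trans (le_of_eq ?_)
        rw [hβ]
        ring
      refine (sum_le_sum fun j _ => h6 j).trans ?_
      rw [sum_add_distrib, ← mul_sum, ← mul_sum, sum_comm]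
      have h8 : ∑ i, ∑ j, nsq (part out j (E x *ᵥ g x i)) = τ x := by
        refine sum_congr rfl fun i _ => ?_
        rw [sum_nsq_part, hE, nsq_Ex]
      rw [h8]
      have h9 : (1 + 1 / η) * (8 * δ * M) * (nsq (C x) + τ x) * ∑ j, ν j ≤
          (1 + 1 / η) * (8 * δ * M) * (nsq (C x) + τ x) * M := by
        refine mul_le_mul_of_nonneg_left hνs ?_
        have := hτ0 x
        have := nsq_nonneg (C x)
        positivity
      have h10 : (1 + 1 / η) * (8 * δ * M) * (nsq (C x) + τ x) * M =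
          ζ * nsq (C x) + ζ * τ x := by
        rw [hζ]
        ring
      rw [h10] at h9
      rw [hρ]
      linarith
    have hρn : 0 ≤ ρ ^ n := by positivity
    have h6 : α * ρ ^ n * ex (fun x => ∑ j, ∑ i, nsq (gj j x i)) ≤
        α * ρ ^ n * (ρ * ex τ + ζ * Y) := mul_le_mul_of_nonneg_left h5 (by positivity)
    have h7 : ρ ^ n ≤ ρ ^ (n + 1) := pow_le_pow_right₀ hρ1 (Nat.le_succ n)
    have h8 : α * ζ * (n + 1) * ρ ^ n * Y ≤ α * ζ * (n + 1) * ρ ^ (n + 1) * Y := by
      refine mul_le_mul_of_nonneg_right (mul_le_mul_of_nonneg_left h7 (by positivity)) hY0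
    have h9 : α * ρ ^ n * ex (fun x => ∑ j, ∑ i, nsq (gj j x i)) +
        (ω / 2 + α * ζ * n * ρ ^ n) * Y ≤
        α * ρ ^ (n + 1) * ex τ + (ω / 2 + α * ζ * ((n + 1 : ℕ) : ℝ) * ρ ^ (n + 1)) * Y := by
      push_cast
      have e3 : α * ρ ^ n * (ρ * ex τ + ζ * Y) =
          α * ρ ^ (n + 1) * ex τ + α * ζ * ρ ^ n * Y := by ring
      rw [e3] at h6
      linarith
    have h10 := mul_le_mul_of_nonneg_left h9 hL0
    linarith

/-- The second induction: the test function is averaged over the heavy bits of the branch. -/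
lemma main_ind2 {ω₁ δ₁ τ₀ D : ℝ} (hL0 : 0 ≤ L) (hω : 0 < ω) (hω₁ : 0 < ω₁) (hδ : 0 < δ)
    (hδ₁ : 0 < δ₁) (hη : 0 < η) (hD : 1 ≤ D) (hδD : 1 / δ₁ ≤ D) (hτ₀ : 0 ≤ τ₀)
    (hf : ∀ z, ∑ k, |f z - av {k} f z| ≤ L) (hinf : ∀ i, inf1 i f ≤ τ₀)
    (R : Finset (Fin N)) (a : Fin N → Bool) (A : Alg N m) :
    A.Memory M → ∀ n : ℕ, A.depth ≤ n → ∀ (S : Finset (Fin N))
    (F : Finset (Option (Fin N) × Fin m)), F.card ≤ M → ∀ (J : Type) [Fintype J]
    (C : (Fin N → Bool) → Option (Fin N) × Fin m → ℂ)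
    (g : (Fin N → Bool) → J → Option (Fin N) × Fin m → ℂ),
    (∀ x s, s ∉ F → C x s = 0) →
    (∀ k, k ∉ S → ∀ x w, ‖ip w (C x - C (fl k x))‖ ^ 2 ≤ ∑ i, ‖ip w (g x i)‖ ^ 2) →
    |ex (fun x => A.accept (C x) (mix R a x) * av S f x) -
        ex (fun x => A.accept (C x) (mix R a x)) * ex f| ≤
      (1 + η + (1 + 1 / η) * (8 * δ * M ^ 2)) ^ n * (L * (1 / (2 * ω) + 1 / 2) +
          n * (2 * L * ((1 / (2 * ω₁) + 1 / 2) * (1 + η + (1 + 1 / η) * (8 * δ₁ * M ^ 2))) +
            10 * D * (2 * L * (1 / (2 * ω) + 1 / 2)))) * ex (fun x => ∑ i, nsq (g x i)) +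
      (L * (ω / 2) +
        n * (2 * L * ((1 / (2 * ω₁) + 1 / 2) * ((1 + 1 / η) * (8 * δ₁ * M ^ 2)) + ω₁ / 2) +
          10 * D * (τ₀ / δ + 2 * L * (ω / 2))) +
        (1 + 1 / η) * (8 * δ * M ^ 2) * n * (1 + η + (1 + 1 / η) * (8 * δ * M ^ 2)) ^ n *
          (L * (1 / (2 * ω) + 1 / 2) +
          n * (2 * L * ((1 / (2 * ω₁) + 1 / 2) * (1 + η + (1 + 1 / η) * (8 * δ₁ * M ^ 2))) +
            10 * D * (2 * L * (1 / (2 * ω) + 1 / 2))))) * ex (fun x => nsq (C x)) := by
  set ζ : ℝ := (1 + 1 / η) * (8 * δ * M ^ 2) with hζ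
  have hζ0 : 0 ≤ ζ := by positivity
  set ρ : ℝ := 1 + η + ζ with hρ
  have hρ1 : 1 ≤ ρ := by linarith
  set α : ℝ := 1 / (2 * ω) + 1 / 2 with hα
  have hα0 : 0 < α := by positivity
  set a₁ : ℝ := 2 * L * ((1 / (2 * ω₁) + 1 / 2) * (1 + η + (1 + 1 / η) * (8 * δ₁ * M ^ 2))) +
    10 * D * (2 * L * α) with ha₁
  have ha₁0 : 0 ≤ a₁ := by positivity
  set b₁ : ℝ := 2 * L * ((1 / (2 * ω₁) + 1 / 2) * ((1 + 1 / η) * (8 * δ₁ * M ^ 2)) + ω₁ / 2) +
    10 * D * (τ₀ / δ + 2 * L * (ω / 2)) with hb₁
  have hb₁0 : 0 ≤ b₁ := by positivity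
  induction A with
  | stop Acc =>
    intro _ n _ S F hF J _ C g hC hmaj
    set τ : (Fin N → Bool) → ℝ := fun x => ∑ i, nsq (g x i) with hτ
    have hτ0 : ∀ x, 0 ≤ τ x := fun x => sum_nonneg fun i _ => nsq_nonneg _
    set acc : (Fin N → Bool) → ℝ :=
      fun x => (Alg.stop Acc : Alg N m).accept (C x) (mix R a x) with hacc
    have hacc0 : ∀ x, 0 ≤ acc x := fun x => accept_nonneg _ _ _
    set G : (Fin N → Bool) → ℝ := fun x => α * τ x + ω / 2 * nsq (C x) with hG
    have hG0 : ∀ x, 0 ≤ G x := fun x => add_nonneg (mul_nonneg hα0.le (hτ0 x))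
      (mul_nonneg (by positivity) (nsq_nonneg _))
    have h1 : |ex (fun x => acc x * av S f x) - ex (fun x => acc x * av Sᶜ (av S f) x)| ≤
        L * ex G := by
      refine interp Sᶜ acc (av S f) G (fun k hk x => ?_) hG0 (fun z => ?_)
      · rw [mem_compl] at hk
        rw [av_single]
        have h2 := acc_diff Acc (C x) (C (fl k x)) hω
        have h3 := nsq_le_of_maj (C x - C (fl k x)) (g x) (hmaj k hk x)
        have h4 : (1 / ω + 1) * nsq (C x - C (fl k x)) ≤ (1 / ω + 1) * τ x :=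
          mul_le_mul_of_nonneg_left h3 (by positivity)
        have h5 : acc x - (acc x + acc (fl k x)) / 2 = (acc x - acc (fl k x)) / 2 := by ring
        have h6 : |acc x - acc (fl k x)| ≤ ω * nsq (C x) + (1 / ω + 1) * τ x := h2.trans (by
          linarith)
        rw [h5, abs_div, abs_two]
        simp only [hG]
        have h7 : α * τ x = (1 / ω + 1) * τ x / 2 := by
          rw [hα]
          field_simp
        rw [h7]
        linarith
      · exact (sum_le_sum_of_subset_of_nonneg (subset_univ _) fun k _ _ => abs_nonneg _).trans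
          (sens_av S f hf z)
    have h2 : av Sᶜ (av S f) = fun _ => ex f := by
      rw [av_compl_indep S (av S f) (fun y x => av_mix S f y x), ex_av]
    rw [h2, ex_mul_right] at h1
    have h3 : ex G = α * ex τ + ω / 2 * ex fun x => nsq (C x) := by
      simp only [hG]
      rw [ex_add, ex_mul_left, ex_mul_left]
    rw [h3] at h1
    have h4 : 0 ≤ ex τ := ex_nonneg hτ0
    have h5 : 0 ≤ ex fun x => nsq (C x) := ex_nonneg fun x => nsq_nonneg _
    have h6 : 1 ≤ ρ ^ n := one_le_pow₀ hρ1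
    have hn0 : (0 : ℝ) ≤ n := Nat.cast_nonneg n
    have h7 : L * α * ex τ ≤ ρ ^ n * (L * α + n * a₁) * ex τ := by
      refine mul_le_mul_of_nonneg_right ?_ h4
      have h8 : L * α ≤ L * α + n * a₁ := by
        have := mul_nonneg hn0 ha₁0
        linarith
      have h9 : 0 ≤ L * α + n * a₁ := by positivity
      calc L * α ≤ 1 * (L * α + n * a₁) := by linarith
        _ ≤ _ := mul_le_mul_of_nonneg_right h6 h9
    have h8 : L * (ω / 2) * ex (fun x => nsq (C x)) ≤
        (L * (ω / 2) + n * b₁ + ζ * n * ρ ^ n * (L * α + n * a₁)) *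
          ex fun x => nsq (C x) := by
      refine mul_le_mul_of_nonneg_right ?_ h5
      have h9 := mul_nonneg hn0 hb₁0
      have h10 : 0 ≤ ζ * n * ρ ^ n * (L * α + n * a₁) := by positivity
      linarith
    refine h1.trans ?_
    linarith
  | step U V c out next ih =>
    intro hA n hn S F hF J _ C g hC hmaj
    simp only [Alg.depth] at hn
    obtain ⟨n, rfl⟩ : ∃ n', n = n' + 1 := ⟨n - 1, by omega⟩
    -- the new states
    set Cj : Fin c → (Fin N → Bool) → Option (Fin N) × Fin m → ℂ :=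
      fun j => Cn Prod.fst U V out R a C j with hCj
    have hsumC : ∀ x, ∑ j, nsq (Cj j x) = nsq (C x) := fun x => sum_Cn Prod.fst U V out R a x
    set H : Fin c → Finset (Fin N) := fun j => hvy Prod.fst U V out F δ j with hH
    set gj : Fin c → (Fin N → Bool) → J ⊕ (Option (Fin N) × Fin m) →
      Option (Fin N) × Fin m → ℂ := fun j => gn Prod.fst U V out R a F η δ C g j with hgj
    set acc : Fin c → (Fin N → Bool) → ℝ :=
      fun j x => (next j).accept (Cj j x) (mix R a x) with hacc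
    have hacc0 : ∀ j x, 0 ≤ acc j x := fun j x => accept_nonneg _ _ _
    have hacc1 : ∀ j x, acc j x ≤ nsq (Cj j x) := fun j x => accept_le _ _ _
    set h : Fin c → (Fin N → Bool) → ℝ := fun j x => |av S f x - av (S ∪ H j) f x| with hh
    -- the induction hypothesis
    have hstep : ∀ j, |ex (fun x => acc j x * av (S ∪ H j) f x) - ex (acc j) * ex f| ≤
        ρ ^ n * (L * α + n * a₁) * ex (fun x => ∑ i, nsq (gj j x i)) +
        (L * (ω / 2) + n * b₁ + ζ * n * ρ ^ n * (L * α + n * a₁)) *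
          ex (fun x => nsq (Cj j x)) := by
      intro j
      refine ih j (hA j).2 n (depth_next next hn j) (S ∪ H j)
        (univ.filter fun s => out s = j) (hA j).1 _ (Cj j) (gj j) ?_ ?_
      · intro x s hs
        simp only [hCj, Cn, part]
        rw [if_neg]
        intro h
        exact hs (mem_filter.2 ⟨mem_univ _, h⟩)
      · intro k hk x w
        rw [mem_union, not_or] at hk
        exact maj_next Prod.fst U V out R a hη hδ.le hC hmaj j k hk.1 hk.2 x w
    have hstep2 : ∀ j, |ex (fun x => acc j x * av S f x) - ex (acc j) * ex f| ≤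
        (ρ ^ n * (L * α + n * a₁) * ex (fun x => ∑ i, nsq (gj j x i)) +
        (L * (ω / 2) + n * b₁ + ζ * n * ρ ^ n * (L * α + n * a₁)) *
          ex (fun x => nsq (Cj j x))) + ex (fun x => nsq (Cj j x) * h j x) := by
      intro j
      have h1 : |ex (fun x => acc j x * av S f x) - ex (fun x => acc j x * av (S ∪ H j) f x)| ≤
          ex (fun x => nsq (Cj j x) * h j x) := by
        rw [← ex_sub]
        refine (abs_ex_le _).trans (ex_mono fun x => ?_)
        rw [← mul_sub, abs_mul, abs_of_nonneg (hacc0 j x)]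
        exact mul_le_mul_of_nonneg_right (hacc1 j x) (abs_nonneg _)
      have h2 := abs_sub_le (ex fun x => acc j x * av S f x)
        (ex fun x => acc j x * av (S ∪ H j) f x) (ex (acc j) * ex f)
      have h3 := hstep j
      linarith
    -- the loss
    have hμ0 : 0 ≤ τ₀ / δ := by positivity
    have htele := tele_sum Prod.fst U V out R a hη hδ₁ hC hmaj hω hω₁
      (mul_nonneg (by norm_num : (0 : ℝ) ≤ 2) hL0) hμ0 hD hδD hF (fun j => (hA j).1) h
      (fun j x => abs_nonneg _)
      (fun j y x => by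
        simp only [hh]
        rw [av_mix]
        have h1 : av (S ∪ H j) f = av S (av (S ∪ H j) f) := by
          rw [av_av]
          congr 1
          rw [← union_assoc, union_self]
        rw [h1, av_mix])
      (fun j z => by
        have h1 := sens_abs_sub (av S f) (av (S ∪ H j) f) (sens_av S f hf)
          (sens_av (S ∪ H j) f hf) z
        have h2 : L + L = 2 * L := by ring
        rw [h2] at h1
        exact h1)
      (fun j => by
        have h1 := ex_abs_sub_av_le (H j) (av S f)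
        rw [av_av, union_comm] at h1
        refine h1.trans ?_
        calc ∑ i ∈ H j, inf1 i (av S f) ≤ ∑ _i ∈ H j, τ₀ :=
              sum_le_sum fun i _ => (inf1_av i S f).trans (hinf i)
          _ = ((H j).card : ℝ) * τ₀ := by rw [sum_const, nsmul_eq_mul]
          _ ≤ 1 / δ * τ₀ :=
              mul_le_mul_of_nonneg_right (hvy_card Prod.fst U V out F hδ j) hτ₀
          _ = τ₀ / δ := by ring)
    -- summation over the outcomes
    have hacc' : ∀ x, (Alg.step U V c out next).accept (C x) (mix R a x) = ∑ j, acc j x :=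
      fun x => accept_step U V c out next (C x) (mix R a x)
    have e1 : ex (fun x => (Alg.step U V c out next).accept (C x) (mix R a x) * av S f x) =
        ∑ j, ex fun x => acc j x * av S f x := by
      rw [← ex_sum]
      refine congrArg ex (funext fun x => ?_)
      rw [hacc', sum_mul]
    have e2 : ex (fun x => (Alg.step U V c out next).accept (C x) (mix R a x)) =
        ∑ j, ex (acc j) := by
      rw [← ex_sum]
      exact congrArg ex (funext fun x => hacc' x)
    rw [e1, e2, sum_mul, ← sum_sub_distrib]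
    refine (abs_sum_le_sum_abs _ _).trans ((sum_le_sum fun j _ => hstep2 j).trans ?_)
    rw [sum_add_distrib, sum_add_distrib, ← mul_sum, ← mul_sum, ← ex_sum, ← ex_sum]
    simp only [hsumC]
    set X := ex (fun x => ∑ i, nsq (g x i)) with hX
    set Y := ex (fun x => nsq (C x)) with hY
    have hY0 : 0 ≤ Y := ex_nonneg fun x => nsq_nonneg _
    have hX0 : 0 ≤ X := ex_nonneg fun x => sum_nonneg fun i _ => nsq_nonneg _
    have h5 : ex (fun x => ∑ j, ∑ i, nsq (gj j x i)) ≤ ρ * X + ζ * Y := by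
      rw [hX, hY, ← ex_mul_left, ← ex_mul_left, ← ex_add]
      exact ex_mono fun x => sum_next Prod.fst U V out R a hη hδ.le hF (fun j => (hA j).1) x
    have hAn : 0 ≤ L * α + n * a₁ := by positivity
    have hρn : 0 ≤ ρ ^ n := by positivity
    have h6 : ρ ^ n * (L * α + n * a₁) * ex (fun x => ∑ j, ∑ i, nsq (gj j x i)) ≤
        ρ ^ n * (L * α + n * a₁) * (ρ * X + ζ * Y) :=
      mul_le_mul_of_nonneg_left h5 (by positivity)
    have h7 : ρ ^ n ≤ ρ ^ (n + 1) := pow_le_pow_right₀ hρ1 (Nat.le_succ n)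
    have h7' : 1 ≤ ρ ^ (n + 1) := one_le_pow₀ hρ1
    have hAn' : L * α + n * a₁ ≤ L * α + ((n + 1 : ℕ) : ℝ) * a₁ := by
      push_cast
      linarith
    have h8 : (ρ ^ (n + 1) * (L * α + n * a₁) + a₁) * X ≤
        ρ ^ (n + 1) * (L * α + ((n + 1 : ℕ) : ℝ) * a₁) * X := by
      refine mul_le_mul_of_nonneg_right ?_ hX0
      push_cast
      nlinarith
    have h9 : ζ * ((n + 1 : ℕ) : ℝ) * ρ ^ n * (L * α + n * a₁) * Y ≤
        ζ * ((n + 1 : ℕ) : ℝ) * ρ ^ (n + 1) * (L * α + ((n + 1 : ℕ) : ℝ) * a₁) * Y := by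
      refine mul_le_mul_of_nonneg_right ?_ hY0
      refine mul_le_mul (mul_le_mul_of_nonneg_left h7 (by positivity)) hAn' hAn (by positivity)
    have htele' : ∑ j, ex (fun x => nsq (Cj j x) * h j x) ≤ a₁ * X + b₁ * Y := htele
    have e3 : ρ ^ n * (L * α + n * a₁) * (ρ * X + ζ * Y) =
        ρ ^ (n + 1) * (L * α + n * a₁) * X + ζ * ρ ^ n * (L * α + n * a₁) * Y := by ring
    rw [e3] at h6
    push_cast at h8 h9 ⊢
    linarith

end main

lemma pow_bound {T : ℕ} (hT : 1 ≤ T) {ρ : ℝ} (h0 : 0 ≤ ρ) (hρ : ρ ≤ 1 + 2 / T) :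
    ρ ^ T ≤ 8 := by
  have hT' : (0 : ℝ) < T := by exact_mod_cast hT
  have h1 : ρ ≤ Real.exp (2 / T) := by
    have := Real.add_one_le_exp (2 / (T : ℝ))
    linarith
  have h2 : ρ ^ T ≤ Real.exp (2 / T) ^ T := pow_le_pow_left₀ h0 h1 T
  have h3 : Real.exp (2 / T) ^ T = Real.exp 1 ^ 2 := by
    rw [← Real.exp_nat_mul, ← Real.exp_nat_mul]
    congr 1
    push_cast
    field_simp
  have h4 := Real.exp_one_lt_d9
  have h5 := Real.exp_pos 1
  rw [h3] at h2
  nlinarith


lemma sens_res (A : Alg N m) {T : ℕ} (hT : 1 ≤ T) (hAT : A.depth ≤ T)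
    {v₀ : Option (Fin N) × Fin m → ℂ} (hv₀ : nsq v₀ = 1) (R : Finset (Fin N))
    (a z : Fin N → Bool) :
    ∑ k, |res (A.accept v₀) R a z - av {k} (res (A.accept v₀) R a) z| ≤ 8 * (T : ℝ) ^ 2 := by
  have hT' : (1 : ℝ) ≤ T := by exact_mod_cast hT
  have h1 := sens1 A T hAT (mix R a z) v₀
  have h2 : ∀ k, |res (A.accept v₀) R a z - av {k} (res (A.accept v₀) R a) z| ≤
      |A.accept v₀ (mix R a z) - A.accept v₀ (fl k (mix R a z))| / 2 := by
    intro k
    rw [av_single]
    unfold res
    by_cases hk : k ∈ R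
    · rw [mix_fl_mem hk]
      have : A.accept v₀ (mix R a z) - (A.accept v₀ (mix R a z) + A.accept v₀ (mix R a z)) / 2 =
          0 := by ring
      rw [this, abs_zero]
      positivity
    · rw [mix_fl_notMem hk]
      have : A.accept v₀ (mix R a z) -
          (A.accept v₀ (mix R a z) + A.accept v₀ (fl k (mix R a z))) / 2 =
          (A.accept v₀ (mix R a z) - A.accept v₀ (fl k (mix R a z))) / 2 := by ring
      rw [this, abs_div, abs_two]
  refine (sum_le_sum fun k _ => h2 k).trans ?_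
  rw [← sum_div]
  rw [hv₀] at h1
  nlinarith

lemma covar_self (f : (Fin N → Bool) → ℝ) : ex (fun x => f x * f x) - ex f * ex f = var f := by
  unfold var
  have h3 : (fun x => (f x - ex f) ^ 2) =
      fun x => (f x * f x - 2 * ex f * f x) + ex f ^ 2 := by
    funext x; ring
  rw [h3, ex_add, ex_sub, ex_mul_left, ex_const]
  ring

lemma var_le_one {f : (Fin N → Bool) → ℝ} (h0 : ∀ x, 0 ≤ f x) (h1 : ∀ x, f x ≤ 1) :
    var f ≤ 1 := by
  unfold var
  refine ex_le_of_le fun x => ?_
  exact sq_diff_le_one ⟨h0 x, h1 x⟩ ⟨ex_nonneg h0, ex_le_of_le h1⟩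

/-- An influential variable of every restriction of large variance. -/
lemma influential {M T : ℕ} (A : Alg N m) (s₀ : Option (Fin N) × Fin m) (hA : A.Memory M)
    (hM : 1 ≤ M) (hT : 1 ≤ T) (hAT : A.depth ≤ T) {v : ℝ} (hv : 0 < v) (R : Finset (Fin N))
    (a : Fin N → Bool) (hvar : v < var (res (A.accept (Pi.single s₀ 1)) R a)) :
    ∃ i, v ^ 9 / (2 ^ 86 * T ^ 30 * M ^ 8) ≤ inf1 i (res (A.accept (Pi.single s₀ 1)) R a) := by
  by_contra hcon
  push Not at hcon
  set v₀ : Option (Fin N) × Fin m → ℂ := Pi.single s₀ 1 with hv₀d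
  have hv₀ : nsq v₀ = 1 := nsq_one s₀
  set f := res (A.accept v₀) R a with hf
  have hf0 : ∀ x, 0 ≤ f x := fun x => accept_nonneg A _ v₀
  have hf1 : ∀ x, f x ≤ 1 := fun x => (accept_le A _ v₀).trans hv₀.le
  have hv1 : v ≤ 1 := hvar.le.trans (var_le_one hf0 hf1)
  have hT' : (1 : ℝ) ≤ T := by exact_mod_cast hT
  have hM' : (1 : ℝ) ≤ M := by exact_mod_cast hM
  have hT0 : (0 : ℝ) < T := by linarith
  have hM0 : (0 : ℝ) < M := by linarith
  set τ₀ : ℝ := v ^ 9 / (2 ^ 86 * T ^ 30 * M ^ 8) with hτ₀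
  have hτ₀0 : 0 < τ₀ := by positivity
  -- the parameters
  set ω₁ : ℝ := v / (64 * T ^ 3) with hω₁
  set D : ℝ := 2 ^ 17 * T ^ 7 * M ^ 2 / v ^ 2 with hD
  set ω : ℝ := v / (1024 * D * T ^ 3) with hω
  set δ : ℝ := v ^ 6 / (2 ^ 62 * T ^ 22 * M ^ 6) with hδ
  have hω₁0 : 0 < ω₁ := by positivity
  have hD0 : 0 < D := by positivity
  have hω0 : 0 < ω := by positivity
  have hδ0 : 0 < δ := by positivity
  have hTp : ∀ n : ℕ, (1 : ℝ) ≤ (T : ℝ) ^ n := fun n => one_le_pow₀ hT'
  have hMp : ∀ n : ℕ, (1 : ℝ) ≤ (M : ℝ) ^ n := fun n => one_le_pow₀ hM'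
  have hD1 : 1 ≤ D := by
    rw [hD, le_div_iff₀ (by positivity), one_mul]
    have h1 : v ^ 2 ≤ 1 := pow_le_one₀ hv.le hv1
    have h2 : (1 : ℝ) ≤ T ^ 7 * M ^ 2 := one_le_mul_of_one_le_of_one_le (hTp 7) (hMp 2)
    nlinarith
  have hωω₁ : ω ≤ ω₁ := by
    rw [hω, hω₁]
    refine div_le_div_of_nonneg_left hv.le (by positivity) ?_
    have : (T : ℝ) ^ 3 ≤ D * T ^ 3 := le_mul_of_one_le_left (by positivity) hD1
    have h0 : (0 : ℝ) ≤ D * T ^ 3 := by positivity
    nlinarith
  have hω₁1 : ω₁ ≤ 1 := by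
    rw [hω₁, div_le_one (by positivity)]
    have := hTp 3
    linarith
  have key := main_ind2 (M := M) (f := f) (L := 8 * (T : ℝ) ^ 2) (ω := ω) (δ := δ)
    (η := 1 / T) (ω₁ := ω₁) (δ₁ := 1 / D) (τ₀ := τ₀) (D := D) (by positivity) hω0 hω₁0 hδ0
    (by positivity) (by positivity) hD1 (by rw [one_div_one_div]) hτ₀0.le
    (fun z => sens_res A hT hAT hv₀ R a z) (fun i => (hcon i).le) R a A
    hA T hAT ∅ {s₀} (by simpa using hM) Empty (fun _ => v₀) (fun _ i => i.elim)
    (fun x s hs => by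
      rw [hv₀d, Pi.single_apply, if_neg]
      simpa using hs)
    (fun k _ x w => by
      rw [sub_self]
      simp [ip])
  rw [av_empty] at key
  have hacc : (fun x => A.accept v₀ (mix R a x) * f x) = fun x => f x * f x := rfl
  have hacc2 : (fun x => A.accept v₀ (mix R a x)) = f := rfl
  rw [hacc, hacc2, covar_self f, hv₀] at key
  simp only [univ_eq_empty, sum_empty, ex_const, mul_zero, zero_add, mul_one, one_div_one_div]
    at key
  set α : ℝ := 1 / (2 * ω) + 1 / 2 with hα
  set α₁ : ℝ := 1 / (2 * ω₁) + 1 / 2 with hα₁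
  set ζ : ℝ := (1 + (T : ℝ)) * (8 * δ * M ^ 2) with hζ
  set ζ₁ : ℝ := (1 + (T : ℝ)) * (8 * (1 / D) * M ^ 2) with hζ₁
  have hα_le : α ≤ 1 / ω := by
    have h1 : 1 ≤ 1 / ω := by
      rw [le_div_iff₀ hω0]
      linarith
    have h2 : 1 / (2 * ω) = 1 / ω / 2 := by
      field_simp
    rw [hα, h2]
    linarith
  have hα₁_le : α₁ ≤ 1 / ω₁ := by
    have h1 : 1 ≤ 1 / ω₁ := by
      rw [le_div_iff₀ hω₁0]
      linarith
    have h2 : 1 / (2 * ω₁) = 1 / ω₁ / 2 := by
      field_simp
    rw [hα₁, h2]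
    linarith
  have hα0 : 0 ≤ α := by positivity
  have hα₁0 : 0 ≤ α₁ := by positivity
  have hζ0 : 0 ≤ ζ := by positivity
  have hζ₁0 : 0 ≤ ζ₁ := by positivity
  have hζ₁_le : ζ₁ ≤ v * ω₁ / (128 * T ^ 3) := by
    have h1 : v * ω₁ / (128 * T ^ 3) = (2 * T) * (8 * (1 / D) * M ^ 2) := by
      rw [hω₁, hD]
      field_simp
      ring
    rw [h1, hζ₁]
    exact mul_le_mul_of_nonneg_right (by linarith) (by positivity)
  have hζ_le : ζ ≤ v * ω / (2 ^ 14 * D * T ^ 4) := by
    have h1 : v * ω / (2 ^ 14 * D * T ^ 4) = (2 * T) * (8 * δ * M ^ 2) := by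
      rw [hω, hδ, hD]
      field_simp
      ring
    rw [h1, hζ]
    exact mul_le_mul_of_nonneg_right (by linarith) (by positivity)
  have hζ₁1 : ζ₁ ≤ 1 := by
    refine hζ₁_le.trans ?_
    rw [div_le_one (by positivity)]
    have := hTp 3
    nlinarith
  have hζT : ζ ≤ 1 / T := by
    refine hζ_le.trans ?_
    rw [div_le_div_iff₀ (by positivity) hT0]
    have h1 : v * ω ≤ 1 := by nlinarith
    have h2 : (T : ℝ) ≤ D * T ^ 4 := by
      have h3 : (T : ℝ) ≤ T ^ 4 := by
        calc (T : ℝ) = T ^ 1 := (pow_one _).symm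
          _ ≤ T ^ 4 := pow_le_pow_right₀ hT' (by norm_num)
      have h4 : (T : ℝ) ^ 4 ≤ D * T ^ 4 := le_mul_of_one_le_left (by positivity) hD1
      linarith
    nlinarith
  set ρ : ℝ := 1 + 1 / (T : ℝ) + ζ with hρ
  have hρ1 : ρ ≤ 1 + 2 / T := by
    have h2 : (2 / T : ℝ) = 1 / T + 1 / T := by ring
    rw [hρ, h2]
    linarith
  have hρT : ρ ^ T ≤ 8 := pow_bound hT (by positivity) hρ1
  have hT1 : 1 / (T : ℝ) ≤ 1 := by
    rw [div_le_one hT0]
    exact hT'
  -- the terms
  have t1 : 8 * (T : ℝ) ^ 2 * (ω / 2) ≤ v / 8 := by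
    have h1 : 8 * (T : ℝ) ^ 2 * (ω₁ / 2) = v / (16 * T) := by
      rw [hω₁]
      field_simp
      ring
    have h2 : v / (16 * T) ≤ v / 8 := div_le_div_of_nonneg_left hv.le (by norm_num) (by linarith)
    have h3 : 8 * (T : ℝ) ^ 2 * (ω / 2) ≤ 8 * (T : ℝ) ^ 2 * (ω₁ / 2) := by
      gcongr
    linarith
  have t2 : (T : ℝ) * (2 * (8 * T ^ 2) * (α₁ * ζ₁ + ω₁ / 2)) ≤ v / 4 := by
    have h1 : α₁ * ζ₁ ≤ v / (128 * T ^ 3) := by
      calc α₁ * ζ₁ ≤ 1 / ω₁ * (v * ω₁ / (128 * T ^ 3)) :=
            mul_le_mul hα₁_le hζ₁_le hζ₁0 (by positivity)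
        _ = v / (128 * T ^ 3) := by field_simp
    have h2 : (T : ℝ) * (2 * (8 * T ^ 2) * (v / (128 * T ^ 3) + ω₁ / 2)) = v / 4 := by
      rw [hω₁]
      field_simp
      ring
    have h3 : (T : ℝ) * (2 * (8 * T ^ 2) * (α₁ * ζ₁ + ω₁ / 2)) ≤
        (T : ℝ) * (2 * (8 * T ^ 2) * (v / (128 * T ^ 3) + ω₁ / 2)) := by
      gcongr
    linarith
  have t3 : (T : ℝ) * (10 * D * (τ₀ / δ + 2 * (8 * T ^ 2) * (ω / 2))) ≤ v / 4 := by
    have h1 : τ₀ / δ = v / (128 * D * T) := by
      rw [hτ₀, hδ, hD]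
      field_simp
      ring
    have h2 : (T : ℝ) * (10 * D * (v / (128 * D * T) + 2 * (8 * T ^ 2) * (ω / 2))) =
        (10 / 128 + 80 / 1024) * v := by
      rw [hω]
      field_simp
      ring
    rw [h1, h2]
    linarith
  have t4 : ζ * T * ρ ^ T * (8 * T ^ 2 * α + T * (2 * (8 * T ^ 2) * (α₁ * (1 + 1 / T + ζ₁)) +
      10 * D * (2 * (8 * T ^ 2) * α))) ≤ v / 8 := by
    have h1 : α₁ * (1 + 1 / T + ζ₁) ≤ 3 * (1 / ω) := by
      have h3 : 1 / ω₁ ≤ 1 / ω := one_div_le_one_div_of_le hω0 hωω₁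
      have h4 : α₁ ≤ 1 / ω := hα₁_le.trans h3
      calc α₁ * (1 + 1 / T + ζ₁) ≤ 1 / ω * 3 :=
            mul_le_mul h4 (by linarith) (by positivity) (by positivity)
        _ = _ := by ring
    have h2 : 8 * (T : ℝ) ^ 2 * α + T * (2 * (8 * T ^ 2) * (α₁ * (1 + 1 / T + ζ₁)) +
        10 * D * (2 * (8 * T ^ 2) * α)) ≤ 256 * D * T ^ 3 * (1 / ω) := by
      have h5 : 8 * (T : ℝ) ^ 2 * α ≤ 8 * D * T ^ 3 * (1 / ω) := by
        have h6 : (T : ℝ) ^ 2 ≤ D * T ^ 3 := by
          have h7 : (T : ℝ) ^ 2 ≤ T ^ 3 := pow_le_pow_right₀ hT' (by norm_num)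
          have h8 : (T : ℝ) ^ 3 ≤ D * T ^ 3 := le_mul_of_one_le_left (by positivity) hD1
          linarith
        calc 8 * (T : ℝ) ^ 2 * α ≤ 8 * (D * T ^ 3) * (1 / ω) := by gcongr
          _ = _ := by ring
      have h9 : (T : ℝ) * (2 * (8 * T ^ 2) * (α₁ * (1 + 1 / T + ζ₁))) ≤
          48 * D * T ^ 3 * (1 / ω) := by
        calc (T : ℝ) * (2 * (8 * T ^ 2) * (α₁ * (1 + 1 / T + ζ₁)))
            ≤ (T : ℝ) * (2 * (8 * T ^ 2) * (3 * (1 / ω))) := by gcongr
          _ = 1 * (48 * T ^ 3 * (1 / ω)) := by ring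
          _ ≤ D * (48 * T ^ 3 * (1 / ω)) := by gcongr
          _ = _ := by ring
      have h10 : (T : ℝ) * (10 * D * (2 * (8 * T ^ 2) * α)) ≤ 160 * D * T ^ 3 * (1 / ω) := by
        calc (T : ℝ) * (10 * D * (2 * (8 * T ^ 2) * α))
            ≤ (T : ℝ) * (10 * D * (2 * (8 * T ^ 2) * (1 / ω))) := by gcongr
          _ = _ := by ring
      have h11 : 0 ≤ D * T ^ 3 * (1 / ω) := by positivity
      have h12 : (T : ℝ) * (2 * (8 * T ^ 2) * (α₁ * (1 + 1 / T + ζ₁)) +
        10 * D * (2 * (8 * T ^ 2) * α)) = (T : ℝ) * (2 * (8 * T ^ 2) * (α₁ * (1 + 1 / T + ζ₁))) +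
        (T : ℝ) * (10 * D * (2 * (8 * T ^ 2) * α)) := by ring
      rw [h12]
      linarith
    calc ζ * T * ρ ^ T * (8 * T ^ 2 * α + T * (2 * (8 * T ^ 2) * (α₁ * (1 + 1 / T + ζ₁)) +
        10 * D * (2 * (8 * T ^ 2) * α)))
        ≤ (v * ω / (2 ^ 14 * D * T ^ 4)) * T * 8 * (256 * D * T ^ 3 * (1 / ω)) := by
          have hρ0 : 0 ≤ ρ ^ T := by positivity
          gcongr
      _ = v / 8 := by
          field_simp
          ring
  have hvar0 : 0 < var f := hv.trans hvar
  rw [abs_of_pos hvar0] at key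
  have e1 : (T : ℝ) * (2 * (8 * T ^ 2) * (α₁ * ζ₁ + ω₁ / 2) +
      10 * D * (τ₀ / δ + 2 * (8 * T ^ 2) * (ω / 2))) =
      (T : ℝ) * (2 * (8 * T ^ 2) * (α₁ * ζ₁ + ω₁ / 2)) +
      (T : ℝ) * (10 * D * (τ₀ / δ + 2 * (8 * T ^ 2) * (ω / 2))) := by ring
  rw [e1] at key
  linarith

/-- The bit-fixing statement. -/
lemma bitfix (N m M T : ℕ) (A : Alg N m) (s₀ : Option (Fin N) × Fin m) (hA : A.Memory M)
    (hM : 1 ≤ M) (hT : 1 ≤ T) (hAT : A.depth ≤ T) (E Var : ℝ)
    (hE : E = (∑ x, A.accept (Pi.single s₀ 1) x) / 2 ^ N)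
    (hV : Var = (∑ x, (A.accept (Pi.single s₀ 1) x - E) ^ 2) / 2 ^ N) (hpos : 0 < Var) :
    ∃ (S : Finset (Fin N)) (a : Fin N → Bool),
      (S.card : ℝ) ≤ 2 ^ 18 * (T : ℝ) ^ 7 * (M : ℝ) ^ 2 / Var ^ 2 ∧
      Var / 2 ≤ |(∑ x ∈ univ.filter (fun x : Fin N → Bool => ∀ i ∈ S, x i = a i),
        A.accept (Pi.single s₀ 1) x) /
        ((univ.filter (fun x : Fin N → Bool => ∀ i ∈ S, x i = a i)).card : ℝ) - E| := by
  by_contra hcon
  push Not at hcon
  set v₀ : Option (Fin N) × Fin m → ℂ := Pi.single s₀ 1 with hv₀d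
  have hv₀ : nsq v₀ = 1 := nsq_one s₀
  set p := A.accept v₀ with hp
  have hex : ∀ g : (Fin N → Bool) → ℝ, (∑ x, g x) / 2 ^ N = ex g := by
    intro g
    unfold ex
    congr 1
    simp
  rw [hex p] at hE
  rw [hex fun x => (p x - E) ^ 2] at hV
  have hp0 : ∀ x, 0 ≤ p x := fun x => accept_nonneg A x v₀
  have hp1 : ∀ x, p x ≤ 1 := fun x => (accept_le A x v₀).trans hv₀.le
  have hE0 : 0 ≤ E := by rw [hE]; exact ex_nonneg hp0
  have hE1 : E ≤ 1 := by rw [hE]; exact ex_le_of_le hp1
  have hV1 : Var ≤ 1 := by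
    rw [hV]
    refine ex_le_of_le fun x => ?_
    have := hp0 x
    have := hp1 x
    nlinarith
  have hVcov : Var = ex (fun x => p x * p x) - ex p * ex p := by
    have h3 : (fun x => (p x - E) ^ 2) = fun x => (p x * p x - 2 * E * p x) + E ^ 2 := by
      funext x; ring
    rw [hV, h3, ex_add, ex_sub, ex_mul_left, ex_const, hE]
    ring
  have hT' : (1 : ℝ) ≤ T := by exact_mod_cast hT
  have hM' : (1 : ℝ) ≤ M := by exact_mod_cast hM
  -- the parameters
  set ω : ℝ := Var / (32 * T ^ 2) with hω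
  have hω0 : 0 < ω := by positivity
  have hω1 : ω ≤ 1 := by
    rw [hω, div_le_one (by positivity)]
    nlinarith
  set δ : ℝ := (ω / (16 * T * M)) ^ 2 with hδ
  have hδ0 : 0 < δ := by positivity
  set d : ℝ := 2 ^ 18 * (T : ℝ) ^ 7 * (M : ℝ) ^ 2 / Var ^ 2 with hd
  have hsens : ∀ z, ∑ k, |p z - av {k} p z| ≤ 8 * (T : ℝ) ^ 2 := by
    intro z
    have h1 := sens1 A T hAT z v₀
    have h2 : ∀ k, |p z - av {k} p z| = |p z - p (fl k z)| / 2 := by
      intro k
      rw [av_single, show p z - (p z + p (fl k z)) / 2 = (p z - p (fl k z)) / 2 by ring,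
        abs_div, abs_two]
    simp only [h2]
    rw [← sum_div, hv₀] at *
    have h3 : ∑ k, |p z - p (fl k z)| ≤ 8 * T * (T + 1) * 1 := h1
    nlinarith
  have hcube : ∀ (S : Finset (Fin N)) (a : Fin N → Bool), (S.card : ℝ) ≤ d →
      |av Sᶜ p a - ex p| ≤ Var / 2 := by
    intro S a hS
    have h1 := hcon S a hS
    have hav : av Sᶜ p a = ex (res p S a) := by
      unfold av res
      refine congrArg ex (funext fun y => congrArg p (funext fun k => ?_))
      simp only [mix, mem_compl]
      split_ifs <;> simp_all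
    rw [mean_cell p S a, hE, ← hav] at h1
    exact h1.le
  have key := main_ind (M := M) (f := p) (L := 8 * (T : ℝ) ^ 2) (θ := Var / 2) (ω := ω) (δ := δ)
    (η := 1 / T) (d := d) (by positivity) (by positivity) hω0 hδ0 (by positivity) hsens hcube A
    hA T hAT ∅ (by
      rw [card_empty, Nat.cast_zero, zero_add, hd, hδ, hω]
      refine le_of_eq ?_
      field_simp
      ring) {s₀} (by simpa using hM) Empty (fun _ => v₀) (fun _ i => i.elim)
    (fun x s hs => by
      rw [hv₀d, Pi.single_apply, if_neg]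
      simpa using hs)
    (fun k _ x w => by
      rw [sub_self]
      simp [ip])
  have hacc : (fun x => A.accept v₀ x * p x) = fun x => p x * p x := rfl
  have hacc2 : (fun x => A.accept v₀ x) = p := rfl
  rw [hacc, hacc2, ← hVcov, hv₀] at key
  simp only [univ_eq_empty, sum_empty, ex_const, mul_zero, zero_add, mul_one, one_div_one_div]
    at key
  set ζ : ℝ := (1 + (T : ℝ)) * (8 * δ * M ^ 2) with hζ
  set ρ : ℝ := 1 + 1 / (T : ℝ) + ζ with hρ
  have hζ0 : 0 ≤ ζ := by positivity
  have hζ1 : ζ ≤ ω ^ 2 / (16 * T) := by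
    rw [hζ, hδ]
    have h1 : (1 + (T : ℝ)) * (8 * (ω / (16 * T * M)) ^ 2 * M ^ 2) =
        (1 + (T : ℝ)) * (ω ^ 2 / (32 * T ^ 2)) := by
      field_simp
      ring
    have h2 : (ω ^ 2 / (16 * T) : ℝ) = (2 * T) * (ω ^ 2 / (32 * T ^ 2)) := by
      field_simp
      ring
    rw [h1, h2]
    exact mul_le_mul_of_nonneg_right (by linarith) (by positivity)
  have hρ1 : ρ ≤ 1 + 2 / T := by
    have h1 : ω ^ 2 / (16 * T) ≤ 1 / (T : ℝ) := by
      rw [div_le_div_iff₀ (by positivity) (by positivity)]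
      have : ω ^ 2 ≤ 1 := pow_le_one₀ hω0.le hω1
      nlinarith
    have h2 : (2 / T : ℝ) = 1 / T + 1 / T := by ring
    rw [hρ, h2]
    linarith
  have hρT : ρ ^ T ≤ 8 := pow_bound hT (by positivity) hρ1
  have hα : 1 / (2 * ω) + 1 / 2 ≤ 1 / ω := by
    have h1 : 1 ≤ 1 / ω := by
      rw [le_div_iff₀ hω0]
      linarith
    have h2 : 1 / (2 * ω) = 1 / ω / 2 := by
      field_simp
    rw [h2]
    linarith
  have hβ : (1 / (2 * ω) + 1 / 2) * ζ * T * ρ ^ T ≤ ω / 2 := by
    calc (1 / (2 * ω) + 1 / 2) * ζ * T * ρ ^ T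
        ≤ (1 / ω) * (ω ^ 2 / (16 * T)) * T * 8 := by
          have hρ0 : 0 ≤ ρ ^ T := by positivity
          gcongr
      _ = ω / 2 := by
          field_simp
          ring
  have h1 : 8 * (T : ℝ) ^ 2 * (ω / 2 + (1 / (2 * ω) + 1 / 2) * ζ * T * ρ ^ T) ≤ Var / 4 := by
    have h2 : 8 * (T : ℝ) ^ 2 * (ω / 2 + (1 / (2 * ω) + 1 / 2) * ζ * T * ρ ^ T) ≤
        8 * (T : ℝ) ^ 2 * ω := mul_le_mul_of_nonneg_left (by linarith) (by positivity)
    have h3 : 8 * (T : ℝ) ^ 2 * ω = Var / 4 := by
      rw [hω]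
      field_simp
      ring
    linarith
  rw [abs_of_pos hpos] at key
  linarith

lemma tot_le (A : Alg N m) {T : ℕ} (hT : 1 ≤ T) (hAT : A.depth ≤ T)
    {v₀ : Option (Fin N) × Fin m → ℂ} (hv₀ : nsq v₀ = 1) :
    tot (A.accept v₀) ≤ 4 * (T : ℝ) ^ 2 := by
  have hT' : (1 : ℝ) ≤ T := by exact_mod_cast hT
  have h1 : ∀ i, inf2 i (A.accept v₀) ≤
      1 / 4 * ex fun x => |A.accept v₀ x - A.accept v₀ (fl i x)| := by
    intro i
    rw [inf2_eq]
    refine mul_le_mul_of_nonneg_left (ex_mono fun x => ?_) (by norm_num)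
    have h2 := accept_nonneg A x v₀
    have h3 := (accept_le A x v₀).trans hv₀.le
    have h4 := accept_nonneg A (fl i x) v₀
    have h5 := (accept_le A (fl i x) v₀).trans hv₀.le
    have h6 : |A.accept v₀ x - A.accept v₀ (fl i x)| ≤ 1 := abs_le.2 ⟨by linarith, by linarith⟩
    rw [← sq_abs, sq]
    exact mul_le_of_le_one_right (abs_nonneg _) h6
  unfold tot
  refine (sum_le_sum fun i _ => h1 i).trans ?_
  rw [← mul_sum, ← ex_sum]
  have h2 : ex (fun x => ∑ i, |A.accept v₀ x - A.accept v₀ (fl i x)|) ≤ 16 * (T : ℝ) ^ 2 := by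
    refine ex_le_of_le fun x => ?_
    have h3 := sens1 A T hAT x v₀
    rw [hv₀] at h3
    nlinarith
  linarith

/-- The tree. -/
lemma exists_tree {M T : ℕ} (A : Alg N m) (s₀ : Option (Fin N) × Fin m) (hA : A.Memory M)
    (hM : 1 ≤ M) (hT : 1 ≤ T) (hAT : A.depth ≤ T) {ε : ℝ} (hε : 0 < ε) (hε1 : ε ≤ 1) :
    ∃ D : DTree N ℝ, (D.depth : ℝ) ≤ 2 ^ 194 * T ^ 62 * M ^ 16 / ε ^ 19 ∧
      ex (fun x => (A.accept (Pi.single s₀ 1) x - D.eval x) ^ 2) ≤ ε := by
  have hT' : (1 : ℝ) ≤ T := by exact_mod_cast hT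
  have hM' : (1 : ℝ) ≤ M := by exact_mod_cast hM
  have hT0 : (0 : ℝ) < T := by linarith
  have hM0 : (0 : ℝ) < M := by linarith
  set v₀ : Option (Fin N) × Fin m → ℂ := Pi.single s₀ 1 with hv₀d
  have hv₀ : nsq v₀ = 1 := nsq_one s₀
  set v : ℝ := ε / 2 with hv
  have hv0 : 0 < v := by positivity
  set τ : ℝ := v ^ 9 / (2 ^ 86 * T ^ 30 * M ^ 8) with hτ
  have hτ0 : 0 < τ := by positivity
  set B : ℝ := 2 ^ 193 * T ^ 62 * M ^ 16 / ε ^ 19 with hB
  have hB1 : 1 ≤ B := by
    rw [hB, le_div_iff₀ (by positivity), one_mul]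
    have h1 : ε ^ 19 ≤ 1 := pow_le_one₀ hε.le hε1
    have h4 : (1 : ℝ) ≤ T ^ 62 * M ^ 16 :=
      one_le_mul_of_one_le_of_one_le (one_le_pow₀ hT') (one_le_pow₀ hM')
    nlinarith
  obtain ⟨D, h1, -, -, h4⟩ := build (P := A.accept v₀)
    (fun x => ⟨accept_nonneg _ _ _, (accept_le _ _ _).trans hv₀.le⟩) hτ0 hv0.le
    (fun S a h => influential A s₀ hA hM hT hAT hv0 S a h) ⌈B⌉₊ ∅ fun _ => false
  have hres : res (A.accept v₀) ∅ (fun _ => false) = A.accept v₀ := by
    funext x
    exact congrArg (A.accept v₀) (funext fun i => by simp [mix])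
  rw [hres] at h4
  refine ⟨D, ?_, ?_⟩
  · have h2 : (⌈B⌉₊ : ℝ) < B + 1 := Nat.ceil_lt_add_one (by linarith)
    have h3 : (D.depth : ℝ) ≤ (⌈B⌉₊ : ℝ) := by exact_mod_cast h1
    have h5 : 2 * B = 2 ^ 194 * T ^ 62 * M ^ 16 / ε ^ 19 := by rw [hB]; ring
    linarith
  · set E := ex fun x => (A.accept v₀ x - D.eval x) ^ 2 with hE
    by_contra hcon
    push Not at hcon
    have h5 := h4.trans (tot_le A hT hAT hv₀)
    have h8 : B ≤ (⌈B⌉₊ : ℝ) := Nat.le_ceil B
    have h9 : v < E - v := by rw [hv] at *; linarith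
    have h10 : B * τ ^ 2 * v < (⌈B⌉₊ : ℝ) * τ ^ 2 * (E - v) := by
      have : B * τ ^ 2 * v < B * τ ^ 2 * (E - v) :=
        mul_lt_mul_of_pos_left h9 (by positivity)
      refine this.trans_le ?_
      refine mul_le_mul_of_nonneg_right (mul_le_mul_of_nonneg_right h8 (sq_nonneg _)) ?_
      linarith
    have h11 : B * τ ^ 2 * v = 4 * T ^ 2 := by
      rw [hB, hτ, hv]
      field_simp
      ring
    linarith

/-- **Main theorem.** Let `A` be a quantum algorithm which makes at most `T` adaptive queries in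
superposition, with a measurement after every query that leaves a quantum memory of dimension at
most `M`, and with unlimited classical memory. Let `P x = A.accept (Pi.single s₀ 1) x` be its
acceptance probability, and `E` and `Var` the mean and the variance of `P` over uniform
`x ∈ {0,1} ^ N`. Then
(1) if `Var > 0`, then some bit `i` has influence
`E (P x - P x^i) ^ 2 ≥ Var ^ 18 / (2 ^ 188 T ^ 60 M ^ 16)`, where `x^i` is `x` with the bit `i`
flipped;
(2) for every `0 < ε ≤ 1` there is a classical decision tree of depth at most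
`2 ^ 194 T ^ 62 M ^ 16 / ε ^ 19` whose output approximates `P` with mean square error at most `ε`;
(3) if `Var > 0`, then some assignment of at most `2 ^ 18 T ^ 7 M ^ 2 / Var ^ 2` bits changes the
mean of `P` by at least `Var / 2`. -/
theorem result (N m M T : ℕ) (A : Alg N m) (s₀ : Option (Fin N) × Fin m) (hA : A.Memory M)
    (hM : 1 ≤ M) (hT : 1 ≤ T) (hAT : A.depth ≤ T) (E Var : ℝ)
    (hE : E = (∑ x, A.accept (Pi.single s₀ 1) x) / 2 ^ N)
    (hV : Var = (∑ x, (A.accept (Pi.single s₀ 1) x - E) ^ 2) / 2 ^ N) :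
    (0 < Var → ∃ i : Fin N, Var ^ 18 / (2 ^ 188 * (T : ℝ) ^ 60 * (M : ℝ) ^ 16) ≤
      (∑ x : Fin N → Bool, (A.accept (Pi.single s₀ 1) x -
        A.accept (Pi.single s₀ 1) (Function.update x i (!x i))) ^ 2) / 2 ^ N) ∧
    (∀ ε : ℝ, 0 < ε → ε ≤ 1 → ∃ D : DTree N ℝ,
      (D.depth : ℝ) ≤ 2 ^ 194 * (T : ℝ) ^ 62 * (M : ℝ) ^ 16 / ε ^ 19 ∧
      (∑ x, (A.accept (Pi.single s₀ 1) x - D.eval x) ^ 2) / 2 ^ N ≤ ε) ∧
    (0 < Var → ∃ (S : Finset (Fin N)) (a : Fin N → Bool),
      (S.card : ℝ) ≤ 2 ^ 18 * (T : ℝ) ^ 7 * (M : ℝ) ^ 2 / Var ^ 2 ∧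
      Var / 2 ≤ |(∑ x ∈ univ.filter (fun x : Fin N → Bool => ∀ i ∈ S, x i = a i),
        A.accept (Pi.single s₀ 1) x) /
        ((univ.filter (fun x : Fin N → Bool => ∀ i ∈ S, x i = a i)).card : ℝ) - E|) := by
  have hex : ∀ g : (Fin N → Bool) → ℝ, (∑ x, g x) / 2 ^ N = ex g := by
    intro g
    unfold ex
    congr 1
    simp
  refine ⟨fun hpos => ?_, fun ε hε hε1 => ?_, fun hpos => ?_⟩
  · have hT' : (1 : ℝ) ≤ T := by exact_mod_cast hT
    have hM' : (1 : ℝ) ≤ M := by exact_mod_cast hM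
    have hT0 : (0 : ℝ) < T := by linarith
    have hM0 : (0 : ℝ) < M := by linarith
    set p := A.accept (Pi.single s₀ 1) with hp
    have hres : res p ∅ (fun _ => false) = p := by
      funext x
      exact congrArg p (funext fun i => by simp [mix])
    have hvar : var (res p ∅ fun _ => false) = Var := by
      rw [hres]
      unfold var
      rw [hex p] at hE
      rw [hex fun x => (p x - E) ^ 2] at hV
      rw [hV, hE]
    obtain ⟨i, hi⟩ := influential A s₀ hA hM hT hAT (v := Var / 2) (by positivity) ∅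
      (fun _ => false) (by rw [hvar]; linarith)
    refine ⟨i, ?_⟩
    rw [hres] at hi
    have h1 : (∑ x : Fin N → Bool, (p x - p (Function.update x i (!x i))) ^ 2) / 2 ^ N =
        4 * inf2 i p := by
      rw [hex fun x => (p x - p (Function.update x i (!x i))) ^ 2, inf2_eq]
      have : (fun x => (p x - p (Function.update x i (!x i))) ^ 2) =
          fun x => (p x - p (fl i x)) ^ 2 := rfl
      rw [this]
      ring
    rw [h1]
    have h2 := sq_inf1_le i p
    have h3 : ((Var / 2) ^ 9 / (2 ^ 86 * (T : ℝ) ^ 30 * (M : ℝ) ^ 8)) ^ 2 ≤ inf1 i p ^ 2 :=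
      pow_le_pow_left₀ (by positivity) hi 2
    have h4 : Var ^ 18 / (2 ^ 188 * (T : ℝ) ^ 60 * (M : ℝ) ^ 16) =
        4 * ((Var / 2) ^ 9 / (2 ^ 86 * (T : ℝ) ^ 30 * (M : ℝ) ^ 8)) ^ 2 := by
      field_simp
      ring
    rw [h4]
    linarith
  · obtain ⟨D, h1, h2⟩ := exists_tree A s₀ hA hM hT hAT hε hε1
    refine ⟨D, h1, ?_⟩
    rw [hex fun x => (A.accept (Pi.single s₀ 1) x - D.eval x) ^ 2]
    exact h2
  · exact bitfix N m M T A s₀ hA hM hT hAT E Var hE hV hpos

end Pool.Agent.Results.MP_58d537_lc.SmallQuantumMemory
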